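import Pool.Agent.Y648.CS.StmA

set_option autoImplicit false

/-!
# Scales of circuit ratios: one algorithm for all instances

The iterations are repeated until the status says that the phase is finished. All bounds depend on a
further number `S`.
-/

namespace Pool.Agent.Y648.CS.W

open Pool.Agent.NPC Pool.Agent.H558R2 Pool.Agent.H622R3.SM Pool.Agent.W920.FC


/-! ### The algorithm -/

/-- Repetition: the number of repetitions is one more than the number of outcomes given. -/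
def whl {σ : Type} (f : σ → TT σ) (s : σ) : TT σ := fun h => iter f (h.length + 1) s h

/-- The second phase. -/
def TBW (m n : ℕ) (s : PS) : TT Bool :=
  if s.1 ≠ 2 then ret true
  else
    bnd (batch (bQs m n)) fun o =>
      if (List.range m).all fun j => decide (o.getD j none ≠ some true) then ret true
      else
        bnd (batch [fxQ m n (t1 m n (bMax m o))]) fun o' =>
          bnd (whl (itr m n 1 (dr1 m s.2.2.2))
            (st1 m n (bMax m o) (o'.getD 0 none) s.2.2.1 s.2.2.2)) fun s' =>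
            ret (decide (s'.1 ≠ 1))

/-- The computation. -/
def TAW (m n : ℕ) : TT Bool :=
  bnd (whl (itr m n 0 (dr0 m)) (st0 m)) fun s => TBW m n s

/-- The algorithm. -/
def algW : Alg := algOf TAW

/-! ### Queries -/

/-- Products of minors. -/
def S_PR : Prop := ∀ pB : Polynomial ℕ, ∃ q : Polynomial ℕ, ∀ (m n S : ℕ) (g : Reg → ℝ) (e : ℕ)
  (l : List Mn), Base g → m + n ≤ S → e ≤ pB.eval S → l.length ≤ pB.eval S →
  HasVal g (Gd q S g) (prQ m n e l) (prV m n g e l) ∧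
  (prQ m n e l).1.length ≤ q.eval S

/-- Comparisons. -/
def S_CMPQ : Prop := ∀ pB : Polynomial ℕ, ∃ q : Polynomial ℕ, ∀ (m n S : ℕ) (g : Reg → ℝ)
  (a b : Mo), Base g → m + n ≤ S → MoSz (pB.eval S) a → MoSz (pB.eval S) b →
  HasVal g (Gd q S g) (cmpQ m n a b) (cmV m n g a b) ∧
  (cmpQ m n a b).1.length ≤ q.eval S

/-- Monomials. -/
def S_MOQ : Prop := ∀ pB : Polynomial ℕ, ∃ q : Polynomial ℕ, ∀ (m n S : ℕ) (g : Reg → ℝ)
  (a : Mo), Base g → m + n ≤ S → MoSz (pB.eval S) a → MoOK m n g a →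
  HasVal g (Gd q S g) (moQ m n a) (moV m n g a) ∧
  (moQ m n a).1.length ≤ q.eval S

/-- The program for the weighted matrix. -/
def S_PRE : Prop := ∀ pB : Polynomial ℕ, ∃ q : Polynomial ℕ, ∀ (m n p S : ℕ) (g : Reg → ℝ)
  (Ws : List Mo), Base g → m + n ≤ S → (∀ a ∈ Ws, MoSz (pB.eval S) a ∧ MoOK m n g a) →
  Ord baseReg (preP m n p Ws) ∧
  (∀ r ∈ Pool.Agent.W920.FC.wr (preP m n p Ws), 60 ≤ r.headD 0 ∧ r.headD 0 ≤ 80) ∧
  (∀ i < n + 3, ∀ c < m + m + 4, [80, i, c] ∈ Pool.Agent.W920.FC.wr (preP m n p Ws)) ∧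
  (∃ V : Reg → ℝ, (∀ r ∈ baseReg, V r = g r) ∧
    (∀ I ∈ preP m n p Ws, Eqn V I ∧ Gd q S g (V I.dst)) ∧
    ∀ i < n + 3, ∀ c < m + m + 4, V [80, i, c] = PW m n p g (wV m n g Ws) i c) ∧
  (preP m n p Ws).length ≤ q.eval S ∧
  ∀ lam, RB lam g → RB (q.eval (S + lam)) (gW m n p g (wV m n g Ws))

/-- The queries of a step of the perceptron algorithm. -/
def S_PEQ : Prop := ∀ pB : Polynomial ℕ, ∃ q : Polynomial ℕ, ∀ (m n p S : ℕ) (g : Reg → ℝ)
  (drop : List Bool) (Ws : List Mo) (y : List ℕ), Base g → m + n ≤ S →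
  (∀ a ∈ Ws, MoSz (pB.eval S) a ∧ MoOK m n g a) →
  (∀ l < cD m n, y.getD l 0 ≤ cT (n + 3) (m + m + 4)) →
  List.Forall₂ (HasVal g (Gd q S g)) (peQs m n p drop Ws y)
    (alV (GMat (n + 3) (m + m + 4) (gW m n p g (wV m n g Ws)) (fun _ => 1) (drK m n drop)) y) ∧
  ((peQs m n p drop Ws y).map fun q => q.1.length + 1).sum ≤ q.eval S

/-! ### The parts of an iteration -/

/-- The search for the centre. -/
def S_REC : Prop := ∀ pB : Polynomial ℕ, ∃ q : Polynomial ℕ, ∀ (m n p S : ℕ) (g : Reg → ℝ)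
  (drop : List Bool) (E : ℕ) (t : Mo) (W : List Mo), Base g → m + n ≤ S → E ≤ pB.eval S →
  Inv m n p g drop E t W → ∃ (Ws : List Mo) (y : List ℕ) (x : ℕ → ℝ),
  Runs g (Gd q S g) (recen m n p drop t W) ((Ws, y), true) (q.eval S) ∧
  Ws.length = m + m + 4 ∧ (∀ c < m + m, MoG m n g (E + cR m n) (Ws.getD c moOne)) ∧
  (∀ a ∈ Ws, MoSz (q.eval S) a ∧ MoOK m n g a) ∧
  (∀ l < cD m n, y.getD l 0 ≤ cT (n + 3) (m + m + 4)) ∧
  Cen (Lsp m n p g drop) (Xc m drop) (m + m) (m + m + 1) (moV m n g t)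
    (wf m n g t (Ws.take (m + m))) (epR m n) x ∧
  (zOf (cD m n) ((alV (GMat (n + 3) (m + m + 4) (gW m n p g (wV m n g Ws)) (fun _ => 1)
    (drK m n drop)) y).map signOut) (cO m n + (m + m + 3)) < 0 ↔ x (m + m) < 0) ∧
  (0 ≤ x (m + m) → Bds (Lsp m n p g drop) (Xc m drop) (m + m) (m + m + 1) (moV m n g t)
    (wf m n g t (Ws.take (m + m))) (MR m n))

/-- The choice of the basis. -/
def S_BAS : Prop := ∀ pB : Polynomial ℕ, ∃ q : Polynomial ℕ, ∀ (m n p S : ℕ) (g : Reg → ℝ)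
  (drop : List Bool) (E : ℕ) (t : Mo) (W : List Mo), Base g → m + n ≤ S → E ≤ pB.eval S →
  MoG m n g E t → (∀ c < m + m, MoG m n g E (W.getD c moOne)) →
  ∃ β : List ℕ, Runs g (Gd q S g) (basis m n p drop t W) β (q.eval S) ∧
    β.length = n + 2 ∧ Greedy (cl m n p g) (un m n) (Acs m drop) (wf m n g t W) (bf n β)

/-- The queries for the graph. -/
def S_GRA : Prop := ∀ pB : Polynomial ℕ, ∃ q : Polynomial ℕ, ∀ (m n p S : ℕ) (g : Reg → ℝ)
  (drop : List Bool) (E : ℕ) (t : Mo) (W : List Mo) (β : List ℕ), Base g → m + n ≤ S →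
  E ≤ pB.eval S → MoG m n g E t → (∀ c < m + m, MoG m n g E (W.getD c moOne)) →
  β.length = n + 2 →
  Greedy (cl m n p g) (un m n) (Acs m drop) (wf m n g t W) (bf n β) →
  ∃ o : List Outcome, Runs g (Gd q S g) (batch (grQs m n p t W β)) o (q.eval S) ∧
    GrOK m n p g drop (wf m n g t W) β o

/-- The end of an iteration. -/
def S_FIN : Prop := ∀ pB : Polynomial ℕ, ∃ q : Polynomial ℕ, ∀ (m n p S : ℕ) (g : Reg → ℝ)
  (drop : List Bool) (E : ℕ) (t : Mo) (W : List Mo) (β : List ℕ) (o : List Outcome)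
  (x : ℕ → ℝ), Base g → m + n ≤ S → E ≤ pB.eval S → 64 * (cD m n * cD m n) ≤ E →
  W.length = m + m →
  MoG m n g E t → (∀ c < m + m, MoG m n g E (W.getD c moOne)) → β.length = n + 2 →
  Bds (Lsp m n p g drop) (Xc m drop) (m + m) (m + m + 1) (moV m n g t) (wf m n g t W)
    (MR m n) →
  Cen (Lsp m n p g drop) (Xc m drop) (m + m) (m + m + 1) (moV m n g t) (wf m n g t W)
    (epR m n) x →
  Greedy (cl m n p g) (un m n) (Acs m drop) (wf m n g t W) (bf n β) →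
  GrOK m n p g drop (wf m n g t W) β o →
  LabOK m n p g drop (moV m n g t) (wf m n g t W) β o (labs m n p drop β o) →
  ∃ s : PS, Runs g (Gd q S g) (fin m n p drop t W β o) s (q.eval S) ∧
    ((s.1 = 0 ∧ Inv m n p g drop (E + 1) s.2.1 s.2.2.1 ∧
        Cut m n p g drop (moV m n g t) (moV m n g s.2.1)) ∨
      (s.1 = 2 ∧ Trm m n p g drop E s.2.2.1 s.2.2.2))

/-- One iteration. -/
def S_ITR : Prop := ∀ pB : Polynomial ℕ, ∃ q : Polynomial ℕ, ∀ (m n p S : ℕ) (g : Reg → ℝ)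
  (drop : List Bool) (E : ℕ) (t : Mo) (W : List Mo) (B : List Bool), Base g → m + n ≤ S →
  E ≤ pB.eval S → 64 * (cD m n * cD m n) ≤ E → Inv m n p g drop E t W →
  ∃ s : PS, Runs g (Gd q S g) (itr m n p drop (0, (t, (W, B)))) s (q.eval S) ∧
    ((s.1 = 0 ∧ Inv m n p g drop (E + cR m n + 1) s.2.1 s.2.2.1 ∧
        Cut m n p g drop (moV m n g t) (moV m n g s.2.1)) ∨
      (s.1 = 1 ∧ ∃ x ∈ Lsp m n p g drop, (∀ c ∈ Xc m drop, 0 ≤ x c) ∧ x (m + m) < 0) ∨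
      (s.1 = 2 ∧ Trm m n p g drop (E + cR m n) s.2.2.1 s.2.2.2))

/-- The number of steps. -/
def S_CUTC : Prop := ∃ q : Polynomial ℕ, ∀ (m n p r : ℕ) (g : Reg → ℝ) (drop : List Bool)
  (T : ℕ → ℝ) (M : ℕ), 1 ≤ r →
  ScOn r (Lsp m n p g drop) (Xc m drop) (m + m + 1) →
  (∀ i < M, Cut m n p g drop (T i) (T (i + 1))) → M < q.eval (m + n + r)

/-- A phase: the number `N` is a bound for the number of steps. -/
def S_PHS : Prop := ∀ pB : Polynomial ℕ, ∃ q : Polynomial ℕ, ∀ (m n p S N : ℕ)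
  (g : Reg → ℝ) (drop : List Bool) (E : ℕ) (t : Mo) (W : List Mo) (B : List Bool), Base g →
  m + n ≤ S → E ≤ pB.eval S → N ≤ pB.eval S → 64 * (cD m n * cD m n) ≤ E →
  Inv m n p g drop E t W →
  (∀ (T : ℕ → ℝ) (M : ℕ), (∀ i < M, Cut m n p g drop (T i) (T (i + 1))) → M < N) →
  ∃ s : PS, Runs g (Gd q S g) (whl (itr m n p drop) (0, (t, (W, B)))) s
      (q.eval S) ∧
    ((s.1 = 1 ∧ ∃ x ∈ Lsp m n p g drop, (∀ c ∈ Xc m drop, 0 ≤ x c) ∧ x (m + m) < 0) ∨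
      (s.1 = 2 ∧ Trm m n p g drop (q.eval S) s.2.2.1 s.2.2.2))

/-! ### The result -/

/-- For any two rows, the ratios of the entries of the circuits lie in at most `r` intervals
`[s, 2 ^ r s]`. -/
def Scales (r : ℕ) {m n : ℕ} (A : Matrix (Fin m) (Fin n) ℝ) : Prop :=
  ∀ i j : Fin m, ∃ S : Finset ℝ, S.card ≤ r ∧ (∀ s ∈ S, 0 < s) ∧
    ∀ C, Circ A C → C i ≠ 0 → C j ≠ 0 → ∃ s ∈ S, s ≤ |C i / C j| ∧ |C i / C j| ≤ 2 ^ r * s

/-- The scales in the two phases. -/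
def S_SC : Prop := ∀ (r m n : ℕ) (A : Matrix (Fin m) (Fin n) ℝ) (b : Fin m → ℝ),
  Scales r A →
  ScOn (r + 1) (Lsp m n 0 (start A b) (dr0 m)) (Xc m (dr0 m)) (m + m + 1) ∧
  ∀ B : List Bool, ScOn (r + 1) (Lsp m n 1 (start A b) (dr1 m B)) (Xc m (dr1 m B))
    (m + m + 1)

/-- There are at most `2 ^ m` supports of circuits. -/
def S_TOT : Prop := ∀ (m n : ℕ) (A : Matrix (Fin m) (Fin n) ℝ), Scales (2 ^ m) A

/-- The computation in polynomial time. -/
def S_PTW : Prop := PT (fun a : List Unit × List Unit => TAW a.1.length a.2.length)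

/-- The main theorem. -/
def S_MAIN : Prop := PolyControl algW ∧ OracleFree algW ∧ ∃ p : Polynomial ℕ, ∀ m n : ℕ, 1 ≤ m →
  1 ≤ n → ∀ (A : Matrix (Fin m) (Fin n) ℝ) (b : Fin m → ℝ) (r : ℕ), Scales r A →
  ∃ ans nums steps,
    run ∅ (algW m n) (p.eval (m + n + r)) [] (start A b) = some (ans, nums, steps) ∧
    (ans = true ↔ ∃ x : Fin n → ℝ, b ≤ A.mulVec x) ∧ steps ≤ p.eval (m + n + r) ∧
    ∀ (A' : Matrix (Fin m) (Fin n) ℚ) (b' : Fin m → ℚ), (∀ i j, ((A' i j : ℚ) : ℝ) = A i j) →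
      (∀ i, ((b' i : ℚ) : ℝ) = b i) →
      ∀ v ∈ nums, ∃ q : ℚ, (q : ℝ) = v ∧ bitLength q ≤ p.eval (inputLength A' b' + r)

end Pool.Agent.Y648.CS.W
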