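import Pool.Agent.Y648.CS.T_BAS
import Pool.Agent.Y648.CW.Stm

set_option autoImplicit false

/-!
# The choice of the basis, and the queries for the graph, with the bound `S`
-/

namespace Pool.Agent.Y648.CS.W

open Pool.Agent.NPC Pool.Agent.H558R2 Pool.Agent.H622R3.SM Pool.Agent.W920.FC

open TBAS in
/-- The choice of the basis. -/
theorem t_BAS : W.S_PR → W.S_CMPQ → S_MOV → S_LSP → W.S_BAS := by
  intro hPR hCM hM hL pB
  obtain ⟨qa, hqa⟩ := hPR (pQ pB)
  obtain ⟨qb, hqb⟩ := hCM (pQ pB)
  refine ⟨(qa + qb) + (Polynomial.X + Polynomial.C 2) * q1 (qa + qb), ?_⟩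
  intro m n p S g drop E t W hg hS hE ht hW
  have hpE : E ≤ (pQ pB).eval S := by
    rw [pQ_eval]
    omega
  have hp1 : 1 ≤ (pQ pB).eval S := by
    rw [pQ_eval]
    omega
  have hpD : 1 + 4 * cD m n ≤ (pQ pB).eval S := by
    have := cD_le m n
    rw [pQ_eval]
    omega
  have hga : ∀ {v : ℝ}, Gd qa S g v → Gd (qa + qb) S g v := fun hv =>
    Pool.Agent.W920.FD.TRD.gd_mono (fun x => by
      rw [Polynomial.eval_add]; exact Nat.le_add_right _ _) hv
  have hgb : ∀ {v : ℝ}, Gd qb S g v → Gd (qa + qb) S g v := fun hv =>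
    Pool.Agent.W920.FD.TRD.gd_mono (fun x => by
      rw [Polynomial.eval_add]; exact Nat.le_add_left _ _) hv
  have hszm : ∀ (x : Mn) (c : ℕ), MoSz ((pQ pB).eval S) (moMul (moMin x) (wc m t W c)) := by
    intro x c
    obtain ⟨h1, h2, h3, h4⟩ := sz_wc ht hW c
    refine ⟨?_, ?_, ?_, ?_⟩
    · show ([] ++ (wc m t W c).1.2.1).length ≤ _
      rw [List.nil_append]
      omega
    · show ([] ++ (wc m t W c).1.2.2).length ≤ _
      rw [List.nil_append]
      omega
    · show ([x] ++ (wc m t W c).2.1).length ≤ _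
      rw [List.length_append, List.length_singleton]
      omega
    · show ([] ++ (wc m t W c).2.2).length ≤ _
      rw [List.nil_append]
      omega
  have hstep : ∀ β : List ℕ, Runs g (Gd (qa + qb) S g)
      (bnd (batch (baQs m n p t W β)) fun o => ret (β ++ [pick m drop β.length o]))
      (β ++ [pick m drop β.length ((baV m n p g t W β).map signOut)])
      ((q1 (qa + qb)).eval S) := by
    intro β
    have hv : List.Forall₂ (HasVal g (Gd (qa + qb) S g)) (baQs m n p t W β)
        (baV m n p g t W β) := by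
      unfold baQs baV
      refine List.rel_append (f2_map _ _ _ fun c _ => ?_) (f2_flat _ _ _ fun c _ =>
        f2_map _ _ _ fun c' _ => ?_)
      · exact TTT.hasVal_mono (fun v hv => hga hv)
          (hqa m n S g 0 [cand m n p β c] hg hS (Nat.zero_le _) (by simpa using hp1)).1
      · exact TTT.hasVal_mono (fun v hv => hgb hv)
          (hqb m n S g _ _ hg hS (hszm _ _) (hszm _ _)).1
    have hlen : ∀ q ∈ baQs m n p t W β, q.1.length ≤ (qa + qb).eval S := by
      intro q hq
      rw [Polynomial.eval_add]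
      unfold baQs at hq
      rcases List.mem_append.1 hq with hq | hq
      · obtain ⟨c, -, rfl⟩ := List.mem_map.1 hq
        exact (hqa m n S g 0 [cand m n p β c] hg hS (Nat.zero_le _) (by simpa using hp1)).2.trans
          (Nat.le_add_right _ _)
      · obtain ⟨c, -, hq⟩ := List.mem_flatMap.1 hq
        obtain ⟨c', -, rfl⟩ := List.mem_map.1 hq
        exact (hqb m n S g _ _ hg hS (hszm _ _) (hszm _ _)).2.trans (Nat.le_add_left _ _)
    have hcost := cost_le _ _ hlen
    have hql : (baQs m n p t W β).length = (m + m + 2) + (m + m + 2) * (m + m + 2) := by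
      unfold baQs
      rw [List.length_append, List.length_map, List.length_range, TPROJ.length_block]
    have h3 := t_TT.2.1 g (Gd (qa + qb) S g) _ _ hv
    have h4 := t_TT.1 _ _ g (Gd (qa + qb) S g) _
      (fun o => ret (β ++ [pick m drop β.length o])) _
      (β ++ [pick m drop β.length ((baV m n p g t W β).map signOut)]) _ 0 h3
      (Runs.done _ _ _ (fun h => rfl))
    refine t_TT.2.2.2 _ g _ _ _ _ _ _ (fun v hv => hv) ?_ h4
    rw [add_zero, q1_eval]
    refine hcost.trans ?_
    rw [hql]
    refine Nat.mul_le_mul_right _ ?_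
    have h5 : m + m + 2 ≤ 2 * S + 2 := by omega
    exact Nat.add_le_add h5 (Nat.mul_le_mul h5 h5)
  have hit := t_TT.2.2.1 (List ℕ) g (Gd (qa + qb) S g)
    (fun β => bnd (batch (baQs m n p t W β)) fun o => ret (β ++ [pick m drop β.length o]))
    (bs m n p g drop t W) (n + 2) ((q1 (qa + qb)).eval S)
    (fun i _ => hstep (bs m n p g drop t W i))
  refine ⟨bs m n p g drop t W (n + 2), ?_, bs_len m n p g drop t W (n + 2), ?_⟩
  · refine t_TT.2.2.2 _ g _ _ _ _ _ _ (fun v hv =>
      Pool.Agent.W920.FD.TRD.gd_mono (fun x => ?_) hv) ?_ hit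
    · rw [Polynomial.eval_add (p := qa + qb)]
      exact Nat.le_add_right _ _
    · rw [Polynomial.eval_add (p := qa + qb), Polynomial.eval_mul]
      refine le_trans (Nat.mul_le_mul_right _ ?_) (Nat.le_add_left _ _)
      simp
      omega
  · intro k
    refine pick_ok hM hL ht hW (bs m n p g drop t W k) (bs m n p g drop t W (n + 2)) k
      (bs_len m n p g drop t W k) (fun l hl => ?_) ?_
    · exact (bs_getD m n p g drop t W 0 hl (n + 2) (by omega)).symm
    · rw [bs_getD m n p g drop t W 0 (Nat.lt_succ_self k) (n + 2) (by have := k.2; omega)]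
      exact bs_last m n p g drop t W k 0

open TBAS in
/-- The queries for the graph. -/
theorem t_GRA : W.S_PR → W.S_CMPQ → S_MOV → S_LSP → S_GRD → W.S_GRA := by
  intro hPR hCM hM hL hGRD pB
  obtain ⟨qa, hqa⟩ := hPR (pQ pB)
  obtain ⟨qb, hqb⟩ := hCM (pQ pB)
  refine ⟨(qa + qb) + q2 (qa + qb), ?_⟩
  intro m n p S g drop E t W β hg hS hE ht hW hβ hG
  obtain ⟨-, -, -, hU, -, hmv, hact⟩ := hL m n p g drop
  have hwp : ∀ c ∈ Acs m drop, 0 < wf m n g t W c := fun c _ => pos_wf hM ht hW c
  have hd := (hGRD (n + 2) (cl m n p g) (un m n) (Acs m drop) (wf m n g t W) (bf n β) hU hwp hG).1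
  have hmvβ : mv m n g (p, β) ≠ 0 := by
    rw [hmv]
    exact mul_ne_zero (pow_ne_zero _ (by norm_num)) hd
  have hp1 : 1 ≤ (pQ pB).eval S := by
    rw [pQ_eval]
    omega
  have hcDle := cD_le m n
  have hga : ∀ {v : ℝ}, Gd qa S g v → Gd (qa + qb) S g v := fun hv =>
    Pool.Agent.W920.FD.TRD.gd_mono (fun x => by
      rw [Polynomial.eval_add]; exact Nat.le_add_right _ _) hv
  have hgb : ∀ {v : ℝ}, Gd qb S g v → Gd (qa + qb) S g v := fun hv =>
    Pool.Agent.W920.FD.TRD.gd_mono (fun x => by
      rw [Polynomial.eval_add]; exact Nat.le_add_left _ _) hv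
  have hsz1 : ∀ (k c : ℕ), MoSz ((pQ pB).eval S)
      (moMul (moTwo (cE m n)) (moMul (tM p β k c) (wc m t W c))) := by
    intro k c
    obtain ⟨h1, h2, h3, h4⟩ := sz_wc ht hW c
    have hcE : cE m n = 8 * cD m n := rfl
    have hpe := pQ_eval pB S
    refine ⟨?_, ?_, ?_, ?_⟩
    · show (List.replicate (cE m n) () ++ ([] ++ (wc m t W c).1.2.1)).length ≤ _
      rw [List.length_append, List.length_replicate, List.nil_append]
      omega
    · show ([] ++ ([] ++ (wc m t W c).1.2.2)).length ≤ _
      rw [List.nil_append, List.nil_append]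
      omega
    · show ([] ++ ([(p, β.set k c)] ++ (wc m t W c).2.1)).length ≤ _
      rw [List.nil_append, List.length_append, List.length_singleton]
      omega
    · show ([] ++ ([(p, β)] ++ (wc m t W c).2.2)).length ≤ _
      rw [List.nil_append, List.length_append, List.length_singleton]
      omega
  have hsz2 : ∀ c : ℕ, MoSz ((pQ pB).eval S) (wc m t W c) := by
    intro c
    obtain ⟨h1, h2, h3, h4⟩ := sz_wc ht hW c
    have hpe := pQ_eval pB S
    exact ⟨by omega, by omega, by omega, by omega⟩
  have hok : ∀ k c : ℕ, MoOK m n g (moMul (moTwo (cE m n)) (moMul (tM p β k c) (wc m t W c))) := by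
    intro k c x hx
    have hx' : x ∈ [] ++ ([(p, β)] ++ (wc m t W c).2.2) := hx
    rw [List.nil_append, List.mem_append, List.mem_singleton] at hx'
    rcases hx' with rfl | hx'
    · exact hmvβ
    · exact ok_wc ht hW c x hx'
  refine ⟨(grV m n p g t W β).map signOut, ?_, ?_⟩
  · have hv : List.Forall₂ (HasVal g (Gd (qa + qb) S g)) (grQs m n p t W β)
        (grV m n p g t W β) := by
      unfold grQs grV
      refine f2_flat _ _ _ fun k _ => f2_flat _ _ _ fun c _ => ?_
      refine List.Forall₂.cons ?_ (List.Forall₂.cons ?_ List.Forall₂.nil)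
      · exact TTT.hasVal_mono (fun v hv => hga hv)
          (hqa m n S g 0 [(p, β.set k c)] hg hS (Nat.zero_le _) (by simpa using hp1)).1
      · exact TTT.hasVal_mono (fun v hv => hgb hv)
          (hqb m n S g _ _ hg hS (hsz1 _ _) (hsz2 _)).1
    have hlen : ∀ q ∈ grQs m n p t W β, q.1.length ≤ (qa + qb).eval S := by
      intro q hq
      rw [Polynomial.eval_add]
      unfold grQs at hq
      obtain ⟨k, -, hq⟩ := List.mem_flatMap.1 hq
      obtain ⟨c, -, hq⟩ := List.mem_flatMap.1 hq
      simp only [List.mem_cons, List.not_mem_nil, or_false] at hq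
      rcases hq with rfl | rfl
      · exact (hqa m n S g 0 [(p, β.set k c)] hg hS (Nat.zero_le _) (by simpa using hp1)).2.trans
          (Nat.le_add_right _ _)
      · exact (hqb m n S g _ _ hg hS (hsz1 _ _) (hsz2 _)).2.trans (Nat.le_add_left _ _)
    have hcost := cost_le _ _ hlen
    have hql : (grQs m n p t W β).length = (n + 2) * ((m + m + 2) * 2) := by
      unfold grQs
      exact TCMP.length_flat _ _ (fun k => TCMP.length_flat _ 2 (fun _ => rfl) _) _
    have h3 := t_TT.2.1 g (Gd (qa + qb) S g) _ _ hv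
    refine t_TT.2.2.2 _ g _ _ _ _ _ _ (fun v hv =>
      Pool.Agent.W920.FD.TRD.gd_mono (fun x => ?_) hv) ?_ h3
    · rw [Polynomial.eval_add (p := qa + qb)]
      exact Nat.le_add_right _ _
    · rw [Polynomial.eval_add (p := qa + qb), q2_eval]
      refine hcost.trans (le_trans ?_ (Nat.le_add_left _ _))
      rw [hql]
      refine Nat.mul_le_mul_right _ ?_
      exact Nat.mul_le_mul (by omega) (Nat.mul_le_mul_right _ (by omega))
  · intro k c hc
    have hk := k.2
    have habs : ∀ l : List ℕ, |mv m n g (p, l)| = |cdet (cl m n p g) (bf n l)| := by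
      intro l
      rw [hmv, abs_mul, abs_pow, abs_neg, abs_one, one_pow, one_mul]
    have h0 := grV_getD m n p g t W β k c 0 hk hc (by norm_num)
    have h1 := grV_getD m n p g t W β k c 1 hk hc (by norm_num)
    rw [add_zero] at h0
    constructor
    · unfold nz
      rw [Bool.and_eq_true, decide_eq_true_eq, h0, signOut_ne, ← bf_set n β hβ]
      refine and_congr Iff.rfl ?_
      have e : [prV m n g 0 [(p, β.set k c)],
        cmV m n g (moMul (moTwo (cE m n)) (moMul (tM p β k c) (wc m t W c)))
        (wc m t W (β.getD k 0))].getD 0 0 = mv m n g (p, β.set k c) := by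
        show prV m n g 0 [(p, β.set k c)] = _
        unfold prV
        simp
      rw [e, ← abs_pos, habs, abs_pos]
    · unfold edge
      rw [Bool.and_eq_true, decide_eq_true_eq, h1, ← bf_set n β hβ]
      refine and_congr Iff.rfl ?_
      have e : [prV m n g 0 [(p, β.set k c)],
        cmV m n g (moMul (moTwo (cE m n)) (moMul (tM p β k c) (wc m t W c)))
        (wc m t W (β.getD k 0))].getD 1 0 =
          cmV m n g (moMul (moTwo (cE m n)) (moMul (tM p β k c) (wc m t W c)))
            (wc m t W (β.getD k 0)) := rfl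
      obtain ⟨-, -, h2e, hmul, -, -, -, hrat, -, hcm, -⟩ := hM m n g
      rw [e, hcm _ _ (hok k c) (ok_wc ht hW _), osg_nn, sub_nonneg, hmul, hmul, (h2e _).1]
      have e2 : moV m n g (tM p β k c) = mv m n g (p, β.set k c) / mv m n g (p, β) := hrat _ _
      have hw1 := pos_wf hM ht hW c
      have hw2 := pos_wf hM ht hW (β.getD k 0)
      unfold wf at hw1 hw2 ⊢
      rw [e2, abs_mul, abs_mul, abs_div, abs_of_pos hw1, abs_of_pos hw2,
        abs_of_pos (show (0 : ℝ) < 2 ^ cE m n by positivity), habs, habs]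
      have hdp : 0 < |cdet (cl m n p g) (bf n β)| := abs_pos.2 hd
      have e3 : 2 ^ cE m n * (|cdet (cl m n p g) (bf n (β.set k c))| /
          |cdet (cl m n p g) (bf n β)| * moV m n g (wc m t W c)) =
          (2 ^ cE m n * (|cdet (cl m n p g) (bf n (β.set k c))| * moV m n g (wc m t W c))) /
            |cdet (cl m n p g) (bf n β)| := by
        field_simp
      rw [e3, le_div_iff₀ hdp, mul_comm (moV m n g (wc m t W (β.getD k 0)))]

end Pool.Agent.Y648.CS.W
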