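import Pool.Agent.Y648.CS.T_CUTC
import Pool.Agent.Y648.CW.Stm

set_option autoImplicit false

/-!
# Scales of circuit ratios: the number of steps
-/

namespace Pool.Agent.Y648.CS.W

open Pool.Agent.NPC Pool.Agent.H558R2 Pool.Agent.H622R3.SM Pool.Agent.W920.FC
open TCUTC

theorem logb_nat (a : ℕ) (ha : 1 ≤ a) : Real.logb 2 (a : ℝ) ≤ a := by
  have h1 : (a : ℝ) ≤ 2 ^ a := by exact_mod_cast (Nat.lt_two_pow_self (n := a)).le
  have h0 : (0 : ℝ) < a := by exact_mod_cast ha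
  rw [Real.logb_le_iff_le_rpow (by norm_num) h0, Real.rpow_natCast]
  exact h1

/-- the bound for `C` -/
theorem C_leW (m n r : ℕ) (s : ℝ) (hs : s = (m : ℝ) + n + r + 4) :
    ((r : ℕ) : ℝ) + Real.logb 2 (((m + m + 2 : ℕ) : ℝ) ^ 2 * (1 + MR m n) / epR m n) ≤
      60 * s := by
  have hd : ((cD m n : ℕ) : ℝ) ≤ 4 * s := by
    have h1 : cD m n = 4 * m + n + 12 := by unfold cD cK; omega
    rw [h1, hs]
    push_cast
    have h2 : (0 : ℝ) ≤ n := Nat.cast_nonneg _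
    have h3 : (0 : ℝ) ≤ r := Nat.cast_nonneg _
    linarith
  have hK1 : (1 : ℝ) ≤ ((m + m + 2 : ℕ) : ℝ) := by exact_mod_cast (by omega : 1 ≤ m + m + 2)
  have hKs : ((m + m + 2 : ℕ) : ℝ) ≤ 2 * s := by
    rw [hs]
    push_cast
    have h2 : (0 : ℝ) ≤ n := Nat.cast_nonneg _
    have h3 : (0 : ℝ) ≤ r := Nat.cast_nonneg _
    linarith
  have hlogK : Real.logb 2 ((m + m + 2 : ℕ) : ℝ) ≤ ((m + m + 2 : ℕ) : ℝ) :=
    logb_nat _ (by omega)
  have hr : ((r : ℕ) : ℝ) ≤ s := by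
    rw [hs]
    have h2 : (0 : ℝ) ≤ n := Nat.cast_nonneg _
    have h3 : (0 : ℝ) ≤ m := Nat.cast_nonneg _
    linarith
  have hs1 : 1 ≤ s := by
    rw [hs]
    have h2 : (0 : ℝ) ≤ n := Nat.cast_nonneg _
    have h3 : (0 : ℝ) ≤ m := Nat.cast_nonneg _
    have h4 : (0 : ℝ) ≤ r := Nat.cast_nonneg _
    linarith
  have e1 : ((m + m + 2 : ℕ) : ℝ) ^ 2 * (1 + MR m n) / epR m n ≤
      ((m + m + 2 : ℕ) : ℝ) ^ 2 * 2 ^ (4 * cD m n + 1) := by
    unfold MR epR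
    rw [one_div_pow, div_div_eq_mul_div, div_one, mul_assoc]
    refine mul_le_mul_of_nonneg_left ?_ (by positivity)
    have h1 : (1 : ℝ) ≤ 2 ^ (2 * cD m n) := one_le_pow₀ (by norm_num)
    have h2 : (2 : ℝ) ^ (4 * cD m n + 1) = 2 ^ (2 * cD m n) * 2 ^ (2 * cD m n) * 2 := by
      rw [← pow_add, ← pow_succ]
      congr 1
      ring
    rw [h2]
    generalize (2 : ℝ) ^ (2 * cD m n) = a at h1
    nlinarith
  have hpos : (0 : ℝ) < ((m + m + 2 : ℕ) : ℝ) ^ 2 * (1 + MR m n) / epR m n := by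
    unfold MR epR
    have : (0 : ℝ) < ((m + m + 2 : ℕ) : ℝ) := by linarith
    positivity
  have e2 : Real.logb 2 (((m + m + 2 : ℕ) : ℝ) ^ 2 * (1 + MR m n) / epR m n) ≤
      Real.logb 2 (((m + m + 2 : ℕ) : ℝ) ^ 2 * 2 ^ (4 * cD m n + 1)) :=
    Real.logb_le_logb_of_le (by norm_num) hpos e1
  have hK0 : ((m + m + 2 : ℕ) : ℝ) ≠ 0 := by linarith
  have e3 : Real.logb 2 (((m + m + 2 : ℕ) : ℝ) ^ 2 * 2 ^ (4 * cD m n + 1)) =
      2 * Real.logb 2 ((m + m + 2 : ℕ) : ℝ) + ((4 * cD m n + 1 : ℕ) : ℝ) := by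
    rw [Real.logb_mul (pow_ne_zero _ hK0) (pow_ne_zero _ (by norm_num)), Real.logb_pow,
      Real.logb_pow, Real.logb_self_eq_one (by norm_num)]
    push_cast
    ring
  rw [e3] at e2
  have e4 : ((4 * cD m n + 1 : ℕ) : ℝ) = 4 * ((cD m n : ℕ) : ℝ) + 1 := by push_cast; rfl
  rw [e4] at e2
  generalize ((cD m n : ℕ) : ℝ) = d at *
  generalize ((m + m + 2 : ℕ) : ℝ) = K at *
  linarith

/-- the bound, in terms of `s` -/
theorem totalW (s Zc N C D c₁ : ℝ) (hs4 : 4 ≤ s) (hZ0 : 0 ≤ Zc) (hN0 : 0 ≤ N) (hC0 : 0 ≤ C)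
    (hD0 : 0 ≤ D) (hc0 : 0 ≤ c₁) (hN : N + 1 ≤ s) (hCb : C ≤ 60 * s)
    (hDb : D ≤ 2 * s ^ 2) (hcC : c₁ ≤ 1024 * s ^ 2) (hZb : Zc ≤ 8 * s ^ 5) :
    2 * Zc + (2 * Zc + 1) * ((N + 1) ^ 2 * (2 * (2 * N * C + D + c₁) + 2)) <
      40000 * s ^ 9 := by
  have hs1 : (1 : ℝ) ≤ s := by linarith
  have hs0 : (0 : ℝ) < s := by linarith
  have q1 : (1 : ℝ) ≤ s ^ 2 := one_le_pow₀ hs1
  have q5 : (1 : ℝ) ≤ s ^ 5 := one_le_pow₀ hs1
  have r1 : 2 * (2 * N * C + D + c₁) + 2 ≤ 2300 * s ^ 2 := by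
    have e1 : 2 * N * C ≤ 2 * s * (60 * s) := by
      have : N ≤ s := by linarith
      gcongr
    nlinarith
  have r2 : (N + 1) ^ 2 ≤ s ^ 2 := pow_le_pow_left₀ (by positivity) hN 2
  have r3 : (0 : ℝ) ≤ 2 * (2 * N * C + D + c₁) + 2 := by positivity
  have r4 : (N + 1) ^ 2 * (2 * (2 * N * C + D + c₁) + 2) ≤ s ^ 2 * (2300 * s ^ 2) :=
    mul_le_mul r2 r1 r3 (by positivity)
  have r5 : 2 * Zc + 1 ≤ 17 * s ^ 5 := by linarith
  have r6 : (2 * Zc + 1) * ((N + 1) ^ 2 * (2 * (2 * N * C + D + c₁) + 2)) ≤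
      (17 * s ^ 5) * (s ^ 2 * (2300 * s ^ 2)) :=
    mul_le_mul r5 r4 (by positivity) (by positivity)
  have r7 : (17 * s ^ 5) * (s ^ 2 * (2300 * s ^ 2)) = 39100 * s ^ 9 := by ring
  have r8 : s ^ 5 ≤ s ^ 9 := pow_le_pow_right₀ hs1 (by omega)
  have r9 : (0 : ℝ) < s ^ 9 := by positivity
  linarith

theorem t_CUTC : S_LSP → S_GRD → S_GRV → S_FST → S_CNT → W.S_CUTC := by
  intro hLSP hGRD hGRV hFST hCNT
  refine ⟨40000 * (Polynomial.X + 4) ^ 9, ?_⟩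
  intro m n p r g drop T M hr1 hSc hcut
  obtain ⟨l1, l2, l3, l4, l5, l6, l7⟩ := hLSP m n p g drop
  obtain ⟨Z, F, z1, z2, z3⟩ := hFST (Lsp m n p g drop) (Xc m drop) (m + m) (m + m + 1)
    r (m + m + 2) hr1 l1 l3 hSc
  have hch : ∀ i, ∃ (w : ℕ → ℝ) (β : Fin (n + 2) → ℕ) (x : ℕ → ℝ), i < M →
      Wts (Xc m drop) (m + m) (m + m + 1) (T i) w ∧
      Bds (Lsp m n p g drop) (Xc m drop) (m + m) (m + m + 1) (T i) w (MR m n) ∧
      Cen (Lsp m n p g drop) (Xc m drop) (m + m) (m + m + 1) (T i) w (epR m n) x ∧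
      Greedy (cl m n p g) (un m n) (Acs m drop) w β ∧ 0 < T (i + 1) ∧ 2 * T (i + 1) ≤ T i ∧
      ∀ σ : ℕ → Bool, σ (m + m + 1) = false → σ (m + m) = true →
        ∃ k, β k ∈ Acs m drop ∧ ∃ c ∈ Acs m drop, (∀ l, β l ≠ c) ∧ σ (β k) ≠ σ c ∧
        (|cdet (cl m n p g) β| * w (β k) ≤
            2 ^ cC m n * (|cdet (cl m n p g) (Function.update β k c)| * w c) ∨
          (σ (β k) = true ∧ σ c = false ∧ |cdet (cl m n p g) β| * w (β k) * (T (i + 1) / T i) ≤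
            2 ^ cC m n * (|cdet (cl m n p g) (Function.update β k c)| * w c))) := by
    intro i
    by_cases hi : i < M
    · obtain ⟨w, β, x, h⟩ := hcut i hi
      exact ⟨w, β, x, fun _ => h⟩
    · exact ⟨fun _ => 0, fun _ => 0, fun _ => 0, fun h => absurd h hi⟩
  choose w β x h using hch
  have hep : 0 < epR m n := by unfold epR; positivity
  have hep1 : epR m n ≤ 1 := by
    unfold epR
    exact pow_le_one₀ (by norm_num) (by norm_num)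
  have hMR : 1 ≤ MR m n := by
    unfold MR
    exact one_le_pow₀ (by norm_num)
  obtain ⟨C, hCd⟩ : ∃ C : ℝ, C = ((r : ℕ) : ℝ) +
      Real.logb 2 (((m + m + 2 : ℕ) : ℝ) ^ 2 * (1 + MR m n) / epR m n) := ⟨_, rfl⟩
  have hC0 : 0 ≤ C := by
    have h1 : 0 ≤ Real.logb 2 (((m + m + 2 : ℕ) : ℝ) ^ 2 * (1 + MR m n) / epR m n) := by
      refine Real.logb_nonneg (by norm_num) ?_
      rw [le_div_iff₀ hep]
      have h2 : (1 : ℝ) ≤ ((m + m + 2 : ℕ) : ℝ) ^ 2 := by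
        refine one_le_pow₀ ?_
        exact_mod_cast (by omega : 1 ≤ m + m + 2)
      nlinarith
    rw [hCd]
    positivity
  have hcore := core hGRD hGRV hCNT (cl m n p g) (un m n) (Acs m drop) l4 (m + m) (m + m + 1)
    Z F z2 C hC0 (cC m n) M T w β (by
      intro i hi
      obtain ⟨h1, h2, h3, h4, h5, h6, h7⟩ := h i hi
      refine ⟨?_, h4, ?_, h5, h6, h7⟩
      · intro c hc
        obtain ⟨_, _, _, t1, t2, t3, t4⟩ := h1
        rcases Finset.mem_insert.1 hc with rfl | hc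
        · rw [t3]; exact t1
        · rcases Finset.mem_insert.1 hc with rfl | hc
          · rw [t4]; exact one_pos
          · exact t2 c hc
      · rw [hCd]
        exact z3 (T i) (w i) (MR m n) (epR m n) (x i) h1 hep hep1 hMR h2 h3)
  obtain ⟨s, hs⟩ : ∃ s : ℝ, s = (m : ℝ) + n + r + 4 := ⟨_, rfl⟩
  have hm0 : (0 : ℝ) ≤ m := Nat.cast_nonneg _
  have hn0 : (0 : ℝ) ≤ n := Nat.cast_nonneg _
  have hr0 : (0 : ℝ) ≤ r := Nat.cast_nonneg _
  have hcC : (cC m n : ℝ) ≤ 1024 * s ^ 2 := by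
    have h1 : (cC m n : ℝ) = 64 * ((cD m n : ℝ) * (cD m n : ℝ)) := by
      unfold cC
      push_cast
      rfl
    have h2 : ((cD m n : ℕ) : ℝ) ≤ 4 * s := by
      have h1 : cD m n = 4 * m + n + 12 := by unfold cD cK; omega
      rw [h1, hs]
      push_cast
      linarith
    have h3 : (0 : ℝ) ≤ (cD m n : ℝ) := Nat.cast_nonneg _
    rw [h1]
    generalize (cD m n : ℝ) = d at h2 h3
    nlinarith
  have hc0 : (0 : ℝ) ≤ (cC m n : ℝ) := Nat.cast_nonneg _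
  have hD0 : 0 ≤ Real.logb 2 (((n + 2).factorial : ℝ) * 2 ^ ((n + 2) * (n + 2))) := by
    refine Real.logb_nonneg (by norm_num) ?_
    have h1 : (1 : ℝ) ≤ (n + 2).factorial := by
      exact_mod_cast Nat.one_le_iff_ne_zero.2 (n + 2).factorial_ne_zero
    have h2 : (1 : ℝ) ≤ 2 ^ ((n + 2) * (n + 2)) := one_le_pow₀ (by norm_num)
    exact one_le_mul_of_one_le_of_one_le h1 h2
  have hZb : (Z.card : ℝ) ≤ 8 * s ^ 5 := by
    have e1 : (Z.card : ℝ) ≤ ((m + m + 2 : ℕ) : ℝ) * (((m + m + 2 : ℕ) : ℝ) * (r : ℝ)) ^ 2 := by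
      exact_mod_cast z1
    have hKs : ((m + m + 2 : ℕ) : ℝ) ≤ 2 * s := by
      rw [hs]
      push_cast
      linarith
    have hrs : (r : ℝ) ≤ s := by linarith
    have hs0 : 0 ≤ s := by linarith
    have e2 : ((m + m + 2 : ℕ) : ℝ) * (((m + m + 2 : ℕ) : ℝ) * (r : ℝ)) ^ 2 ≤
        (2 * s) * ((2 * s) * s) ^ 2 := by
      gcongr
    have e3 : (2 * s) * ((2 * s) * s) ^ 2 = 8 * s ^ 5 := by ring
    linarith
  generalize (cC m n : ℝ) = c₁ at hcC hc0 hcore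
  have hnum := totalW s Z.card ((n + 2 : ℕ) : ℝ) C _ c₁ (by linarith) (Nat.cast_nonneg _)
    (Nat.cast_nonneg _) hC0 hD0 hc0 (by push_cast; linarith)
    (by rw [hCd]; exact C_leW m n r s hs) (by
      refine D_le (n + 2) s ?_
      push_cast
      linarith) hcC hZb
  have hfin := hcore.trans_lt hnum
  have hq : (((40000 * (Polynomial.X + 4) ^ 9 : Polynomial ℕ).eval (m + n + r) : ℕ) : ℝ) =
      40000 * s ^ 9 := by
    simp only [Polynomial.eval_mul, Polynomial.eval_pow, Polynomial.eval_add,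
      Polynomial.eval_X, Polynomial.eval_ofNat]
    rw [hs]
    push_cast
    ring
  rw [← hq] at hfin
  exact_mod_cast hfin

end Pool.Agent.Y648.CS.W
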