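import Pool.Agent.Y648.CS.T_FIN
import Pool.Agent.Y648.CW.Stm

set_option autoImplicit false

/-!
# Scales of circuit ratios: the end of an iteration
-/

namespace Pool.Agent.Y648.CS.W

open Pool.Agent.NPC Pool.Agent.H558R2 Pool.Agent.H622R3.SM Pool.Agent.W920.FC

theorem pD_leS {m n S : ℕ} (h : m + n ≤ S) : cD m n ≤ pD.eval S := (pD_le m n).trans (pe_mono _ h)

theorem pR_leS {m n S : ℕ} (h : m + n ≤ S) : cR m n ≤ pR.eval S := (pR_le m n).trans (pe_mono _ h)

open FN in
theorem t_FIN : S_LSP → S_MOV → S_CMPQ → S_PR → S_GRD → S_COMP → S_JUMP → S_TERM → S_FIN := by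
  intro hL hM hCM hPR hG hC hJ hT pB
  obtain ⟨pS, hpS⟩ : ∃ pS : Polynomial ℕ, ∀ m n S : ℕ, m + n ≤ S → pB.eval S ≤ pS.eval S ∧
      64 * (cD m n * cD m n) ≤ pS.eval S ∧ 8 * cD m n ≤ pS.eval S := by
    refine ⟨pB + (64 * (pD * pD) + 8 * pD), fun m n S hS => ?_⟩
    have h1 := pD_leS hS
    have h2 : cD m n * cD m n ≤ pD.eval S * pD.eval S := Nat.mul_le_mul h1 h1
    simp only [Polynomial.eval_add, Polynomial.eval_mul, Polynomial.eval_ofNat]
    refine ⟨by omega, by omega, by omega⟩
  obtain ⟨q1, h1⟩ := hCM pS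
  obtain ⟨q2, h2⟩ := hPR pS
  refine ⟨(q1 + q2) + (pD * pD * (pD * pD * (q1 + 1)) + ((q1 + 1) + pD * (q2 + 1))), ?_⟩
  intro m n p S g drop E t W β o x hg hS hE hE64 hWl htG hW hβl hbd hcen hgre hgr hlab
  obtain ⟨q, hq⟩ : ∃ q : Polynomial ℕ, q =
    (q1 + q2) + (pD * pD * (pD * pD * (q1 + 1)) + ((q1 + 1) + pD * (q2 + 1))) := ⟨_, rfl⟩
  rw [← hq]
  have l1 : PLe q1 q := by
    rw [hq]
    exact (ple_add_left _ _).trans (ple_add_left _ _)
  have l2 : PLe q2 q := by
    rw [hq]
    exact (ple_add_right _ _).trans (ple_add_left _ _)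
  have hqe : q.eval S = (q1.eval S + q2.eval S) +
      (pD.eval S * pD.eval S * (pD.eval S * pD.eval S *
        (q1.eval S + 1)) + ((q1.eval S + 1) + pD.eval S *
        (q2.eval S + 1))) := by
    rw [hq]
    simp only [Polynomial.eval_add, Polynomial.eval_mul, Polynomial.eval_one]
  obtain ⟨hpS1, hpS2, hpS3⟩ := hpS m n S hS
  obtain ⟨P, Q, H, hP, hQ, hH, hP4, hPK, hPQ, hHQ, hH1, heP, hMR, hM0, hdl, hPE, hJQ, hCQ, hWP,
    hHd⟩ := nums m n
  have hP1 : (1 : ℝ) ≤ P := by linarith
  have hQ1 : 1 ≤ Q := (one_le_pow₀ hP1).trans hPQ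
  have hK : 4 * m + n + 12 = cD m n := by unfold cD cK; omega
  have hKK : 12 * cD m n ≤ cD m n * cD m n := Nat.mul_le_mul_right _ (by omega)
  have hKE : 2 * (m + m + 2) * cE m n ≤ 8 * (cD m n * cD m n) := by
    unfold cE
    calc 2 * (m + m + 2) * (8 * cD m n) ≤ cD m n * (8 * cD m n) :=
          Nat.mul_le_mul_right _ (by omega)
      _ = 8 * (cD m n * cD m n) := by ring
  have hwts : Wts (Xc m drop) (m + m) (m + m + 1) (moV m n g t) (wf m n g t W) := by
    refine ⟨fun h => ?_, fun h => ?_, by omega, htG.2.2, fun c hc => ?_, ?_, ?_⟩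
    · have := xc_lt h
      omega
    · have := xc_lt h
      omega
    · rw [wf_lt (xc_lt hc)]
      exact (hW c (xc_lt hc)).2.2
    · unfold wf wc
      rw [if_neg (by omega), if_pos rfl]
    · unfold wf wc
      rw [if_neg (by omega), if_neg (by omega)]
      exact (hM m n g).1
  obtain ⟨l, hl⟩ : ∃ l, l = labs m n p drop β o := ⟨_, rfl⟩
  rw [← hl] at hlab
  have h : Hy m n p g drop (moV m n g t) (wf m n g t W) β o l x :=
    ⟨hwts, hbd, hcen, hgre, hβl, hgr, hlab⟩
  have ht := mk_ta hG hL h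
  have htpos : 0 < moV m n g t := htG.2.2
  have hhalf : moV m n g (moHalf t) = moV m n g t / 2 := ((hM m n g).2.2.2.2.2.1 t).1
  unfold fin
  rw [← hl]
  by_cases hcon : conn m n p drop β o l = true
  · rw [if_pos hcon]
    refine ⟨_, t_TT.2.2.2 _ _ _ _ _ _ _ _ (fun _ h => h) (Nat.zero_le _) (runs_ret _),
      Or.inl ⟨rfl, halve_inv hM hWl htG hW hbd hcen, ?_⟩⟩
    show Cut m n p g drop (moV m n g t) (moV m n g (moHalf t))
    rw [hhalf]
    exact cut_conn hL h (by linarith) (by linarith) hcon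
  rw [if_neg hcon]
  by_cases hcr : crs m n p drop β o l = []
  · rw [if_pos (by rw [hcr]; rfl)]
    exact ⟨_, t_TT.2.2.2 _ _ _ _ _ _ _ _ (fun _ h => h) (Nat.zero_le _) (runs_ret _),
      Or.inr ⟨rfl, term hT hC hL hM h ht hW hcon hcr⟩⟩
  rw [if_neg (by
    intro h3
    rw [List.isEmpty_iff] at h3
    exact hcr h3)]
  obtain ⟨L, hLd⟩ : ∃ L, L = crs m n p drop β o l := ⟨_, rfl⟩
  rw [← hLd] at hcr ⊢
  have hcf : ∀ a ∈ L, ∃ k c, CrF m n p g drop β l a k c := fun a ha =>
    crs_crf hL hM h ht (by rw [← hLd]; exact ha)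
  have hszL : ∀ a ∈ L, MoSz (pS.eval S) a ∧ MoOK m n g a := by
    intro a ha
    obtain ⟨k, c, -, -, -, -, -, -, h3, -, h4, -⟩ := hcf a ha
    exact ⟨MoS.sz (by omega) (by omega) h4, h3⟩
  -- the comparisons
  have hcmp : ∀ a ∈ L, ∀ b ∈ L, HasVal g (Gd q1 S g) (cmpQ m n a b) (cmV m n g a b) ∧
      (cmpQ m n a b).1.length ≤ q1.eval S := fun a ha b hb =>
    h1 m n S g a b hg hS (hszL a ha).1 (hszL b hb).1
  have r1 := runs_batch (forall_sq L fun a ha b hb => (hcmp a ha b hb).1)
  have s1 := sq_len (m := m) (n := n) L (q1.eval S) fun a ha b hb => (hcmp a ha b hb).2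
  obtain ⟨o', ho'⟩ : ∃ o', o' = (L.flatMap fun u => L.map fun v => cmV m n g u v).map signOut :=
    ⟨_, rfl⟩
  rw [← ho'] at r1
  have hlenL : L.length ≤ pD.eval S * pD.eval S := by
    have h3 : L.length ≤ (n + 2) * (m + m + 2) := by
      rw [hLd]
      exact crs_len
    have h4 := pD_leS hS
    exact h3.trans (Nat.mul_le_mul (by omega) (by omega))
  obtain ⟨tau, htau⟩ : ∃ tau, tau = argmax L o' := ⟨_, rfl⟩
  have hmax := argmax_spec L (fun a => |moV m n g a|) o' hcr (by
    intro i j hi hj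
    rw [ho']
    have h3 : (L.flatMap fun u => L.map fun v => cmV m n g u v).map signOut =
        L.flatMap fun u => L.map fun v => signOut (cmV m n g u v) := by
      rw [List.map_flatMap]
      simp only [List.map_map]
      rfl
    rw [h3, getD_fm (fun u => L.map fun v => signOut (cmV m n g u v)) L.length none L
      (fun a _ => by rw [List.length_map]) i j hi hj,
      getD_map_lt (fun v => signOut (cmV m n g L[i] v)) L none moOne hj,
      List.getD_eq_getElem _ _ hj]
    exact (hM m n g).2.2.2.2.2.2.2.2.2.1 _ _ (hszL _ (List.getElem_mem hi)).2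
      (hszL _ (List.getElem_mem hj)).2)
  rw [← htau] at hmax
  obtain ⟨htL, hmx⟩ := hmax
  obtain ⟨kk, cc, hf1, hf2, hf3, hf4, hf5, hf6, hf7, hf8, hf9, hf10⟩ := hcf tau htL
  have htau0 : 0 < |moV m n g tau| := abs_pos.2 hf8
  -- the comparison with `t`
  obtain ⟨-, -, htwo, hmul, hmulok, -, hinv, -, -, hcmps, hfix⟩ := hM m n g
  have hsz2 : MoS (cJ m n + 1 + 2 * (m + m + 2) * cE m n) (0 + (1 + 2 * (m + m + 2)))
      (moMul (moTwo (cJ m n + 1)) tau) := MoS.mul (MoS.two _) hf9
  have hok2 : MoOK m n g (moMul (moTwo (cJ m n + 1)) tau) := hmulok _ _ (htwo _).2 hf7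
  have hcJ : cJ m n = 24 * (cD m n * cD m n) := rfl
  have hcWd : cW m n = 6 * cD m n := rfl
  have hc2 := h1 m n S g (moMul (moTwo (cJ m n + 1)) tau) t hg hS
    (MoS.sz (by omega) (by omega) hsz2) (MoS.sz (by omega) (by omega) htG.1)
  have r2 := runs_batch (List.Forall₂.cons hc2.1 List.Forall₂.nil)
  have hval2 : moV m n g (moMul (moTwo (cJ m n + 1)) tau) = 2 ^ (cJ m n + 1) * moV m n g tau := by
    rw [hmul, (htwo _).1]
  have hout2 : ((List.map signOut [cmV m n g (moMul (moTwo (cJ m n + 1)) tau) t]).getD 0 none =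
      some false) ↔ 2 ^ (cJ m n + 1) * |moV m n g tau| < moV m n g t := by
    show signOut (cmV m n g (moMul (moTwo (cJ m n + 1)) tau) t) = some false ↔ _
    rw [hcmps _ _ hok2 htG.2.1, signOut_false, hval2, abs_mul, abs_of_pos htpos,
      abs_of_pos (by positivity : (0 : ℝ) < 2 ^ (cJ m n + 1)), sub_neg]
  have hlb1 := (hlab.2.2.1 _ _ hf4).2.2.2.2
  have hlb2 := (hlab.2.2.1 _ _ hf5).2.2.2.2
  rw [hHd] at hlb1 hlb2
  simp only [root, if_true] at hlb1
  simp only [root, Bool.false_eq_true, if_false, mul_one] at hlb2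
  -- the exchange
  have hexch : ∀ t' : ℝ, 0 < t' → t' ≤ 2 ^ (cJ m n + 1) * |moV m n g tau| →
      |cdet (cl m n p g) (bf n β)| * wf m n g t W (bf n β kk) * (t' / moV m n g t) ≤
        2 ^ cC m n * (|cdet (cl m n p g) (Function.update (bf n β) kk cc)| *
          wf m n g t W cc) := by
    intro t' ht'0 ht'
    have hD0 : 0 ≤ |cdet (cl m n p g) (bf n β)| := abs_nonneg _
    calc |cdet (cl m n p g) (bf n β)| * wf m n g t W (bf n β kk) * (t' / moV m n g t)
        ≤ |cdet (cl m n p g) (bf n β)| * (|moV m n g (lbW l (bf n β kk))| * moV m n g t) *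
          (t' / moV m n g t) :=
          mul_le_mul_of_nonneg_right (mul_le_mul_of_nonneg_left hlb1.1 hD0) (by positivity)
      _ = |cdet (cl m n p g) (bf n β)| * |moV m n g (lbW l (bf n β kk))| * t' := by
          field_simp
      _ ≤ |cdet (cl m n p g) (bf n β)| * |moV m n g (lbW l (bf n β kk))| *
          (2 ^ (cJ m n + 1) * |moV m n g tau|) :=
          mul_le_mul_of_nonneg_left ht' (by positivity)
      _ = 2 ^ (cJ m n + 1) * (|moV m n g tau| * (|cdet (cl m n p g) (bf n β)| *
          |moV m n g (lbW l (bf n β kk))|)) := by ring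
      _ = 2 ^ (cJ m n + 1) * (|cdet (cl m n p g) (Function.update (bf n β) kk cc)| *
          |moV m n g (lbW l cc)|) := by rw [hf10]
      _ ≤ 2 ^ (cJ m n + 1) * (|cdet (cl m n p g) (Function.update (bf n β) kk cc)| *
          (H * wf m n g t W cc)) :=
          mul_le_mul_of_nonneg_left (mul_le_mul_of_nonneg_left hlb2.2 (abs_nonneg _))
            (by positivity)
      _ = 2 ^ (cJ m n + 1) * H * (|cdet (cl m n p g) (Function.update (bf n β) kk cc)| *
          wf m n g t W cc) := by ring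
      _ ≤ 2 ^ cC m n * (|cdet (cl m n p g) (Function.update (bf n β) kk cc)| *
          wf m n g t W cc) := by
          refine mul_le_mul_of_nonneg_right ?_ (mul_nonneg (abs_nonneg _) (wpos h hf2).le)
          rw [pow_succ, hJQ, hCQ]
          have h3 : (2 : ℝ) ≤ Q := by
            have : (2 : ℝ) ≤ P ^ 12 := by
              calc (2 : ℝ) ≤ P := by linarith
                _ ≤ P ^ 12 := le_self_pow₀ hP1 (by norm_num)
            linarith
          calc Q ^ 24 * 2 * H ≤ Q ^ 24 * Q * Q ^ 8 :=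
                mul_le_mul (mul_le_mul_of_nonneg_left h3 (by positivity)) hHQ hH.le
                  (by positivity)
            _ = Q ^ 33 := by ring
            _ ≤ Q ^ 64 := pow_le_pow_right₀ hQ1 (by norm_num)
  by_cases hjump : 2 ^ (cJ m n + 1) * |moV m n g tau| < moV m n g t
  swap
  · -- halving
    refine ⟨(0, (moHalf t, (W, []))), ?_, Or.inl ⟨rfl, halve_inv hM hWl htG hW hbd hcen, ?_⟩⟩
    · have r4 := runs_bnd (f := fun o' => bnd (batch [cmpQ m n (moMul (moTwo (cJ m n + 1))
            (argmax L o')) t]) fun o'' =>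
          if o''.getD 0 none = some false then
            bnd (batch (fxQ m n (moMul (moTwo (cJ m n)) (argmax L o')) ::
              (newW m n drop l (moMul (moTwo (cJ m n)) (argmax L o'))).map (fxQ m n))) fun o3 =>
              ret ((0, (fixS (moMul (moTwo (cJ m n)) (argmax L o')) (o3.getD 0 none),
                ((newW m n drop l (moMul (moTwo (cJ m n)) (argmax L o'))).zipIdx.map fun x =>
                    fixS x.1 (o3.getD (x.2 + 1) none), []))) : PS)
          else ret ((0, (moHalf t, (W, []))) : PS)) (b' := ((0, (moHalf t, (W, []))) : PS))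
          (c' := (([cmpQ m n (moMul (moTwo (cJ m n + 1)) tau) t]).map
            fun q => q.1.length + 1).sum + 0) r1 (by
          show Runs g (Gd q1 S g) (bnd (batch [cmpQ m n (moMul (moTwo (cJ m n + 1))
            (argmax L o')) t]) _) _ _
          rw [← htau]
          refine runs_bnd r2 ?_
          rw [if_neg (fun h3 => hjump (hout2.1 h3))]
          exact runs_ret _)
      refine runs_mono l1 ?_ r4
      rw [hqe]
      have h3 : L.length * (L.length * (q1.eval S + 1)) ≤
          pD.eval S * pD.eval S * (pD.eval S * pD.eval S *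
            (q1.eval S + 1)) :=
        Nat.mul_le_mul hlenL (Nat.mul_le_mul_right _ hlenL)
      have h4 := hc2.2
      simp only [List.map_cons, List.map_nil, List.sum_cons, List.sum_nil]
      omega
    · show Cut m n p g drop (moV m n g t) (moV m n g (moHalf t))
      rw [hhalf]
      refine cut_of hL h (by linarith) (by linarith) ⟨kk, cc, hf1, hf2, hf3, hf4, hf5, ?_⟩
      refine hexch _ (by linarith) ?_
      have := not_lt.1 hjump
      linarith
  -- the jump
  obtain ⟨a, ha⟩ : ∃ a, a = moMul (moTwo (cJ m n)) tau := ⟨_, rfl⟩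
  obtain ⟨NW, hNW⟩ : ∃ NW, NW = newW m n drop l a := ⟨_, rfl⟩
  have hva : |moV m n g a| = 2 ^ cJ m n * |moV m n g tau| := by
    rw [ha, hmul, (htwo _).1, abs_mul, abs_of_pos (by positivity : (0 : ℝ) < 2 ^ cJ m n)]
  have hva0 : moV m n g a ≠ 0 := by
    rw [← abs_pos, hva]
    positivity
  have hsa : MoS (cJ m n + 2 * (m + m + 2) * cE m n) (0 + (1 + 2 * (m + m + 2))) a := by
    rw [ha]
    exact MoS.mul (MoS.two _) hf9
  have hoka : MoOK m n g a := by
    rw [ha]
    exact hmulok _ _ (htwo _).2 hf7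
  have hNl : NW.length = m + m := by rw [hNW]; exact newW_len
  have hlabA : ∀ c < m + m, act m drop c = true → c ∈ Xc m drop ∧
      (isL l true c = true ∨ (isL l true c = false ∧ isL l false c = true)) := by
    intro c hc hact
    obtain ⟨-, -, -, -, -, -, h7⟩ := hL m n p g drop
    have h8 := (h7 c (by omega)).2 hact
    refine ⟨?_, ?_⟩
    · rcases mem_acs.1 h8 with h9 | h9 | h9
      · omega
      · omega
      · exact h9
    · cases h10 : isL l true c with
      | true => exact Or.inl rfl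
      | false =>
        rcases all_lab hC hL h ht c h8 with h9 | h9
        · rw [h10] at h9
          exact absurd h9 (by simp)
        · exact Or.inr ⟨rfl, h9⟩
  -- the new weights
  have hN : ∀ c < m + m, MoS (64 * (cD m n * cD m n)) (4 * cD m n) (NW.getD c moOne) ∧
      MoOK m n g (NW.getD c moOne) ∧ moV m n g (NW.getD c moOne) ≠ 0 := by
    intro c hc
    rw [hNW, newW_getD hc]
    by_cases hact : act m drop c = true
    · rw [if_pos hact]
      obtain ⟨hcX, hcl⟩ := hlabA c hc hact
      rcases hcl with hcl | ⟨hcl1, hcl2⟩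
      · rw [if_pos hcl]
        obtain ⟨-, -, hok3, hs3, -, -⟩ := hlab.2.2.1 _ _ hcl
        refine ⟨?_, hmulok _ _ (htwo _).2 (hmulok _ _ hok3 hoka), ?_⟩
        · have hs4 := MoS.mul (MoS.two (cW m n)) (MoS.mul hs3 hsa)
          refine MoS.mono ?_ ?_ hs4
          · have h5 : (m + m + 2) * cE m n ≤ 8 * (cD m n * cD m n) := by
              refine le_trans ?_ hKE
              rw [mul_assoc]
              exact Nat.le_mul_of_pos_left _ (by norm_num)
            omega
          · omega
        · rw [hmul, hmul, (htwo _).1]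
          exact mul_ne_zero (by positivity) (mul_ne_zero (lb_ne h hcl) hva0)
      · rw [if_neg (by rw [hcl1]; simp)]
        obtain ⟨-, -, hok3, hs3, -, -⟩ := hlab.2.2.1 _ _ hcl2
        refine ⟨MoS.mono ?_ ?_ hs3, hok3, lb_ne h hcl2⟩
        · have h5 : (m + m + 2) * cE m n ≤ 8 * (cD m n * cD m n) := by
            refine le_trans ?_ hKE
            rw [mul_assoc]
            exact Nat.le_mul_of_pos_left _ (by norm_num)
          omega
        · omega
    · rw [if_neg hact]
      refine ⟨MoS.mono (Nat.zero_le _) (Nat.zero_le _) MoS.one, (hM m n g).2.1, ?_⟩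
      rw [(hM m n g).1]
      exact one_ne_zero
  have hfxa : HasVal g (Gd q2 S g) (fxQ m n a) (prV m n g 0 (a.2.1 ++ a.2.2)) ∧
      (fxQ m n a).1.length ≤ q2.eval S := by
    refine h2 m n S g 0 _ hg hS (Nat.zero_le _) ?_
    rw [List.length_append]
    have h3 := hsa.2.2.1
    have h4 := hsa.2.2.2
    omega
  have hfxN : ∀ b ∈ NW, HasVal g (Gd q2 S g) (fxQ m n b)
      (prV m n g 0 (b.2.1 ++ b.2.2)) ∧ (fxQ m n b).1.length ≤ q2.eval S := by
    intro b hb
    obtain ⟨c, hc, rfl⟩ := List.getElem_of_mem hb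
    have h3 := (hN c (by rw [← hNl]; exact hc)).1
    rw [List.getD_eq_getElem _ _ hc] at h3
    refine h2 m n S g 0 _ hg hS (Nat.zero_le _) ?_
    rw [List.length_append]
    have h4 := h3.2.2.1
    have h5 := h3.2.2.2
    omega
  have r3 : Runs g (Gd q2 S g) (batch (fxQ m n a :: NW.map (fxQ m n)))
      ((prV m n g 0 (a.2.1 ++ a.2.2) :: NW.map fun b => prV m n g 0 (b.2.1 ++ b.2.2)).map signOut)
      (((fxQ m n a :: NW.map (fxQ m n)).map fun q => q.1.length + 1).sum) := by
    refine runs_batch (List.Forall₂.cons hfxa.1 ?_)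
    rw [List.forall₂_map_left_iff, List.forall₂_map_right_iff, List.forall₂_same]
    exact fun b hb => (hfxN b hb).1
  have s3 : ((fxQ m n a :: NW.map (fxQ m n)).map fun q => q.1.length + 1).sum ≤
      pD.eval S * (q2.eval S + 1) := by
    have h3 : ∀ x ∈ (fxQ m n a :: NW.map (fxQ m n)).map (fun q : Qry => q.1.length + 1),
        x ≤ q2.eval S + 1 := by
      intro x hx
      obtain ⟨q', hq', rfl⟩ := List.mem_map.1 hx
      rcases List.mem_cons.1 hq' with h4 | h4
      · rw [h4]
        exact Nat.succ_le_succ hfxa.2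
      · obtain ⟨b, hb, rfl⟩ := List.mem_map.1 h4
        exact Nat.succ_le_succ (hfxN b hb).2
    refine (List.sum_le_card_nsmul _ _ h3).trans ?_
    rw [smul_eq_mul]
    refine Nat.mul_le_mul_right _ ?_
    rw [List.length_map, List.length_cons, List.length_map, hNl]
    exact le_trans (by omega) (pD_leS hS)
  obtain ⟨o3, ho3⟩ : ∃ o3, o3 = ((prV m n g 0 (a.2.1 ++ a.2.2) ::
    NW.map fun b => prV m n g 0 (b.2.1 ++ b.2.2)).map signOut) := ⟨_, rfl⟩
  rw [← ho3] at r3
  have ho30 : o3.getD 0 none = signOut (prV m n g 0 (a.2.1 ++ a.2.2)) := by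
    rw [ho3]
    rfl
  have ho31 : ∀ c < m + m, o3.getD (c + 1) none = signOut (prV m n g 0
      ((NW.getD c moOne).2.1 ++ (NW.getD c moOne).2.2)) := by
    intro c hc
    rw [ho3, List.map_cons, List.getD_cons_succ, List.map_map,
      getD_map_lt _ NW none moOne (by rw [hNl]; exact hc)]
    rfl
  obtain ⟨W', hW'⟩ : ∃ W', W' = NW.zipIdx.map fun x => fixS x.1 (o3.getD (x.2 + 1) none) :=
    ⟨_, rfl⟩
  have hW'l : W'.length = m + m := by
    rw [hW', List.length_map, List.length_zipIdx, hNl]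
  have hW'g : ∀ c < m + m, W'.getD c moOne = fixS (NW.getD c moOne)
      (signOut (prV m n g 0 ((NW.getD c moOne).2.1 ++ (NW.getD c moOne).2.2))) := by
    intro c hc
    rw [hW', fix_getD (by rw [hNl]; exact hc), ho31 c hc]
  have hW'v : ∀ c < m + m, moV m n g (W'.getD c moOne) = |moV m n g (NW.getD c moOne)| := by
    intro c hc
    rw [hW'g c hc]
    exact (hfix _ (hN c hc).2.1 (hN c hc).2.2).2.1
  have hW'G : ∀ c < m + m, MoG m n g (E + 1) (W'.getD c moOne) := by
    intro c hc
    rw [hW'g c hc]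
    obtain ⟨h3, h4, h5⟩ := hN c hc
    obtain ⟨h6, h7, h8⟩ := hfix _ h4 h5
    refine ⟨?_, h6, by rw [h7]; exact h8⟩
    exact MoS.mono (by omega) le_rfl h3
  have hfa := hfix a hoka hva0
  have hft : MoG m n g (E + 1) (fixS a (o3.getD 0 none)) := by
    rw [ho30]
    refine ⟨?_, hfa.1, by rw [hfa.2.1]; exact hfa.2.2⟩
    exact MoS.mono (by omega) (by omega) hsa
  have hftv : moV m n g (fixS a (o3.getD 0 none)) = |moV m n g a| := by
    rw [ho30]
    exact hfa.2.1
  have ht2 : 2 * |moV m n g a| ≤ moV m n g t := by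
    rw [hva]
    rw [pow_succ] at hjump
    linarith
  obtain ⟨j1, y, j2, j3, j4⟩ := jump hJ hC hL h ht hcon htau0 (by
    intro i hi j hj hi1 hj1
    by_cases hT0 : Tt m n p g β i j = 0
    · rw [hT0, abs_zero, zero_mul]
      positivity
    · obtain ⟨b, hb, h3⟩ := T_crs hL hM h ht hi hj hi1 hj1 hT0
      rw [← h3]
      refine mul_le_mul_of_nonneg_right ?_ (abs_nonneg _)
      exact hmx b (by rw [hLd]; exact hb)) hva ht2
  -- the values of the new weights
  have hval : ∀ c ∈ Xc m drop, (isL l true c = true ∧ moV m n g (W'.getD c moOne) =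
        2 ^ cW m n * (|moV m n g (lbW l c)| * |moV m n g a|)) ∨
      (isL l false c = true ∧ moV m n g (W'.getD c moOne) = |moV m n g (lbW l c)|) := by
    intro c hc
    have hc1 := xc_lt hc
    obtain ⟨-, -, -, -, -, -, h7⟩ := hL m n p g drop
    have hact : act m drop c = true := (h7 c (by omega)).1 (mem_acs.2 (Or.inr (Or.inr hc)))
    rw [hW'v c hc1, hNW, newW_getD hc1, if_pos hact]
    rcases (hlabA c hc1 hact).2 with h3 | ⟨h3, h4⟩
    · left
      refine ⟨h3, ?_⟩
      rw [if_pos h3, hmul, hmul, (htwo _).1, abs_mul, abs_mul,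
        abs_of_pos (by positivity : (0 : ℝ) < 2 ^ cW m n)]
    · right
      refine ⟨h4, ?_⟩
      rw [if_neg (by rw [h3]; simp)]
  have ha0 : 0 < |moV m n g a| := abs_pos.2 hva0
  refine ⟨(0, (fixS a (o3.getD 0 none), (W', []))), ?_, Or.inl ⟨rfl,
    ⟨hW'l, hft, hW'G, ?_, ?_⟩, ?_⟩⟩
  · have r4 := runs_bnd (f := fun o' => bnd (batch [cmpQ m n (moMul (moTwo (cJ m n + 1))
            (argmax L o')) t]) fun o'' =>
          if o''.getD 0 none = some false then
            bnd (batch (fxQ m n (moMul (moTwo (cJ m n)) (argmax L o')) ::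
              (newW m n drop l (moMul (moTwo (cJ m n)) (argmax L o'))).map (fxQ m n))) fun o3 =>
              ret ((0, (fixS (moMul (moTwo (cJ m n)) (argmax L o')) (o3.getD 0 none),
                ((newW m n drop l (moMul (moTwo (cJ m n)) (argmax L o'))).zipIdx.map fun x =>
                    fixS x.1 (o3.getD (x.2 + 1) none), []))) : PS)
          else ret ((0, (moHalf t, (W, []))) : PS))
          (b' := ((0, (fixS a (o3.getD 0 none), (W', []))) : PS))
          (c' := (([cmpQ m n (moMul (moTwo (cJ m n + 1)) tau) t]).map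
            fun q => q.1.length + 1).sum +
            ((((fxQ m n a :: NW.map (fxQ m n)).map fun q => q.1.length + 1).sum) + 0))
          (runs_mono l1 le_rfl r1) (by
          show Runs g (Gd q S g) (bnd (batch [cmpQ m n (moMul (moTwo (cJ m n + 1))
            (argmax L o')) t]) _) _ _
          rw [← htau]
          refine runs_bnd (runs_mono l1 le_rfl r2) ?_
          rw [if_pos (hout2.2 hjump), ← ha, ← hNW]
          refine runs_bnd (runs_mono l2 le_rfl r3) ?_
          rw [← hW']
          exact runs_ret _)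
    refine t_TT.2.2.2 _ _ _ _ _ _ _ _ (fun _ h => h) ?_ r4
    rw [hqe]
    have h3 : L.length * (L.length * (q1.eval S + 1)) ≤
        pD.eval S * pD.eval S * (pD.eval S * pD.eval S *
          (q1.eval S + 1)) :=
      Nat.mul_le_mul hlenL (Nat.mul_le_mul_right _ hlenL)
    have h4 := hc2.2
    have h5 : (([cmpQ m n (moMul (moTwo (cJ m n + 1)) tau) t]).map
            fun q => q.1.length + 1).sum = (cmpQ m n (moMul (moTwo (cJ m n + 1)) tau) t).1.length
              + 1 := by
      simp only [List.map_cons, List.map_nil, List.sum_cons, List.sum_nil]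
      omega
    rw [h5]
    omega
  · -- the bounds
    intro y' hy'
    rw [show moV m n g (0, (fixS a (o3.getD 0 none), (W', ([] : List Bool)))).2.1 =
      moV m n g (fixS a (o3.getD 0 none)) from rfl, hftv] at hy'
    obtain ⟨j5, j6⟩ := j1 y' hy'
    have h3 := hbd y' (sl_mono (by linarith) hy')
    refine ⟨fun c hc => ?_, ?_, h3.2.2⟩
    · show y' c ≤ wf m n g (fixS a (o3.getD 0 none)) W' c
      rw [wf_lt (xc_lt hc)]
      rcases hval c hc with ⟨h4, h5⟩ | ⟨h4, h5⟩
      · rw [h5]
        exact (le_abs_self _).trans (j5 c (mem_acs.2 (Or.inr (Or.inr hc))) h4)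
      · rw [h5]
        have h6 := (hlab.2.2.1 _ _ h4).2.2.2.2.1
        simp only [root, Bool.false_eq_true, if_false, mul_one] at h6
        exact (h3.1 c hc).trans h6
    · show -(M0R m n * moV m n g (fixS a (o3.getD 0 none))) ≤ y' (m + m)
      rw [hftv]
      exact j6
  · -- the quality of the weights
    intro c hc
    refine ⟨y, ?_, ?_⟩
    · show y ∈ Sl _ _ _ _ (moV m n g (fixS a (o3.getD 0 none)))
      rw [hftv]
      exact j2
    · show dlR m n * wf m n g (fixS a (o3.getD 0 none)) W' c ≤ y c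
      rw [wf_lt (xc_lt hc)]
      rcases hval c hc with ⟨h4, h5⟩ | ⟨h4, h5⟩
      · rw [h5]
        exact j4 c hc h4
      · rw [h5]
        exact j3 c hc h4
  · show Cut m n p g drop (moV m n g t) (moV m n g (fixS a (o3.getD 0 none)))
    rw [hftv]
    refine cut_of hL h ha0 ht2 ⟨kk, cc, hf1, hf2, hf3, hf4, hf5, ?_⟩
    refine hexch _ ha0 ?_
    rw [hva, pow_succ]
    have : 0 ≤ 2 ^ cJ m n * |moV m n g tau| := by positivity
    linarith

end Pool.Agent.Y648.CS.W
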