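import Pool.Agent.Y648.CS.T_ITR
import Pool.Agent.Y648.CW.T_FIN
import Pool.Agent.W920.FC.T_OUT

set_option autoImplicit false

/-!
# Scales of circuit ratios: one iteration, and a phase
-/

namespace Pool.Agent.Y648.CS.W

open Pool.Agent.NPC Pool.Agent.H558R2 Pool.Agent.H622R3.SM Pool.Agent.W920.FC

theorem t_ITR : S_REC → S_PEQ → S_BAS → S_GRA → S_LAB → S_FIN → S_ITR := by
  intro hREC hPEQ hBAS hGRA hLAB hFIN pB
  obtain ⟨q1, h1⟩ := hREC pB
  obtain ⟨q2, h2⟩ := hPEQ q1
  obtain ⟨q3, h3⟩ := hBAS (pB + pR)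
  obtain ⟨q4, h4⟩ := hGRA (pB + pR)
  obtain ⟨q5, h5⟩ := hFIN (pB + pR)
  refine ⟨q1 + (q2 + (q3 + (q4 + q5))), ?_⟩
  have l1 : PLe q1 (q1 + (q2 + (q3 + (q4 + q5)))) := ple_add_left _ _
  have l2 : PLe q2 (q1 + (q2 + (q3 + (q4 + q5)))) :=
    (ple_add_left _ _).trans (ple_add_right _ _)
  have l3 : PLe q3 (q1 + (q2 + (q3 + (q4 + q5)))) :=
    ((ple_add_left _ _).trans (ple_add_right _ _)).trans (ple_add_right _ _)
  have l4 : PLe q4 (q1 + (q2 + (q3 + (q4 + q5)))) :=
    (((ple_add_left _ _).trans (ple_add_right _ _)).trans (ple_add_right _ _)).trans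
      (ple_add_right _ _)
  have l5 : PLe q5 (q1 + (q2 + (q3 + (q4 + q5)))) :=
    (((ple_add_right _ _).trans (ple_add_right _ _)).trans (ple_add_right _ _)).trans
      (ple_add_right _ _)
  intro m n p S g drop E t W B hg hS hE hE64 hI
  have hER : E + cR m n ≤ (pB + pR).eval S := by
    rw [Polynomial.eval_add]
    exact Nat.add_le_add hE (pR_leS hS)
  obtain ⟨Ws, y, x, r1, hlen, hWs, hWs2, hy, hcen, hz, hbd⟩ := h1 m n p S g drop E t W hg hS hE hI
  obtain ⟨r2, s2⟩ := h2 m n p S g drop Ws y hg hS hWs2 hy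
  have r1' := runs_mono l1 le_rfl r1
  have r2' := runs_mono l2 s2 (runs_batch r2)
  obtain ⟨o, ho⟩ : ∃ o, o = (alV (GMat (n + 3) (m + m + 4) (gW m n p g (wV m n g Ws))
    (fun _ => 1) (drK m n drop)) y).map signOut := ⟨_, rfl⟩
  rw [← ho] at hz r2'
  have hval : ∀ E', q1.eval S + (q2.eval S + E') =
      q1.eval S + (q2.eval S + E') := fun _ => rfl
  have heval : (q1 + (q2 + (q3 + (q4 + q5)))).eval S = q1.eval S +
      (q2.eval S + (q3.eval S + (q4.eval S + q5.eval S))) := by
    simp only [Polynomial.eval_add]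
  have hcx : ∀ c ∈ Xc m drop, 0 ≤ x c := by
    intro c hc
    have h6 := hcen.2.1 c hc
    have hc2 : c < m + m := Finset.mem_range.1 (Finset.mem_filter.1 hc).1
    have h7 : 0 < wf m n g t (Ws.take (m + m)) c := by
      unfold wf wc
      rw [if_pos hc2, getD_take hc2]
      exact (hWs c hc2).2.2
    exact (mul_nonneg (by unfold epR; positivity) h7.le).trans h6
  by_cases hzz : zOf (cD m n) o (cO m n + (m + m + 3)) < 0
  · refine ⟨(1, (t, (W, B))), ?_, Or.inr (Or.inl ⟨rfl, x, hcen.1, hcx, hz.1 hzz⟩)⟩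
    have r3 : Runs g (Gd (q1 + (q2 + (q3 + (q4 + q5)))) S g)
        (itr m n p drop (0, (t, (W, B)))) (1, (t, (W, B)))
        (q1.eval S + (q2.eval S + 0)) := by
      unfold itr
      rw [if_neg (by simp)]
      refine runs_bnd r1' (runs_bnd r2' ?_)
      rw [if_pos hzz]
      exact runs_ret _
    refine t_TT.2.2.2 _ _ _ _ _ _ _ _ (fun _ h => h) ?_ r3
    rw [heval]
    omega
  · have hx0 : 0 ≤ x (m + m) := by
      by_contra hneg
      exact hzz (hz.2 (not_le.1 hneg))
    have hb := hbd hx0
    have hWt : ∀ c < m + m, MoG m n g (E + cR m n) ((Ws.take (m + m)).getD c moOne) := by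
      intro c hc
      rw [getD_take hc]
      exact hWs c hc
    have htG := hI.szt.mono (Nat.le_add_right E (cR m n))
    obtain ⟨β, r3, hβl, hgr⟩ := h3 m n p S g drop (E + cR m n) t (Ws.take (m + m)) hg hS hER htG hWt
    obtain ⟨o', r4, hgo⟩ := h4 m n p S g drop (E + cR m n) t (Ws.take (m + m)) β hg hS hER htG hWt hβl
      hgr
    have hwts : Wts (Xc m drop) (m + m) (m + m + 1) (moV m n g t)
        (wf m n g t (Ws.take (m + m))) := by
      refine ⟨?_, ?_, by omega, hI.szt.2.2, ?_, ?_, ?_⟩
      · intro h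
        have := Finset.mem_range.1 (Finset.mem_filter.1 h).1
        omega
      · intro h
        have := Finset.mem_range.1 (Finset.mem_filter.1 h).1
        omega
      · intro c hc
        have hc2 : c < m + m := Finset.mem_range.1 (Finset.mem_filter.1 hc).1
        unfold wf wc
        rw [if_pos hc2]
        exact (hWt c hc2).2.2
      · unfold wf wc
        rw [if_neg (by omega), if_pos rfl]
      · unfold wf wc
        rw [if_neg (by omega), if_neg (by omega)]
        simp [moV, moOne, prV]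
    have hlab := hLAB m n p g drop (moV m n g t) (wf m n g t (Ws.take (m + m))) β o' hwts hβl hgr
      hgo
    have hlen' : (Ws.take (m + m)).length = m + m := by
      rw [List.length_take, hlen]
      omega
    obtain ⟨s, r5, hs⟩ := h5 m n p S g drop (E + cR m n) t (Ws.take (m + m)) β o' x hg hS hER (by omega)
      hlen' htG hWt hβl hb hcen hgr hgo hlab
    refine ⟨s, ?_, ?_⟩
    · have r6 : Runs g (Gd (q1 + (q2 + (q3 + (q4 + q5)))) S g)
          (itr m n p drop (0, (t, (W, B)))) s
          (q1.eval S + (q2.eval S + (q3.eval S + (q4.eval S +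
            q5.eval S)))) := by
        unfold itr
        rw [if_neg (by simp)]
        refine runs_bnd r1' (runs_bnd r2' ?_)
        rw [if_neg hzz]
        exact runs_bnd (runs_mono l3 le_rfl r3) (runs_bnd (runs_mono l4 le_rfl r4)
          (runs_mono l5 le_rfl r5))
      rw [heval]
      exact r6
    · rcases hs with hs | hs
      · exact Or.inl hs
      · exact Or.inr (Or.inr hs)


/-! ### Repetition -/

/-- The results of the iterations with a history: more iterations than outcomes do not change the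
result. -/
theorem iter_stable {σ : Type} (f : σ → TT σ) (R : σ → Prop)
    (h1 : ∀ s, ¬ R s → ∀ h, f s h = Sum.inl (s, h))
    (h2 : ∀ s, R s → ∀ h s' h', f s h = Sum.inl (s', h') → h'.length < h.length) (s : σ) :
    ∀ (n : ℕ) (h : List Outcome) (s' : σ) (h' : List Outcome), iter f n s h = Sum.inl (s', h') →
      ¬ R s' ∨ h'.length + n ≤ h.length := by
  intro n
  induction n with
  | zero =>
    intro h s' h' he
    have he' : (Sum.inl (s, h) : (σ × List Outcome) ⊕ Qry) = Sum.inl (s', h') := he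
    have := Sum.inl.inj he'
    rw [Prod.mk.injEq] at this
    rw [this.2]
    right
    omega
  | succ n ih =>
    intro h s' h' he
    have he' : bnd (iter f n s) f h = Sum.inl (s', h') := he
    unfold bnd at he'
    cases hh : iter f n s h with
    | inl p =>
      rw [hh] at he'
      obtain ⟨s1, h1'⟩ := p
      have he2 : f s1 h1' = Sum.inl (s', h') := he'
      by_cases hR : R s1
      · have h3 := h2 s1 hR h1' s' h' he2
        rcases ih h s1 h1' hh with h4 | h4
        · exact absurd hR h4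
        · right
          omega
      · rw [h1 s1 hR h1'] at he2
        have := Sum.inl.inj he2
        rw [Prod.mk.injEq] at this
        left
        rw [← this.1]
        exact hR
    | inr q =>
      rw [hh] at he'
      exact absurd he' (by simp)

theorem iter_succ_of {σ : Type} (f : σ → TT σ) (R : σ → Prop)
    (h1 : ∀ s, ¬ R s → ∀ h, f s h = Sum.inl (s, h)) (s : σ) (n : ℕ) (h : List Outcome)
    (hn : ∀ s' h', iter f n s h = Sum.inl (s', h') → ¬ R s') :
    iter f (n + 1) s h = iter f n s h := by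
  show bnd (iter f n s) f h = _
  unfold bnd
  cases hh : iter f n s h with
  | inl p =>
    obtain ⟨s', h'⟩ := p
    exact h1 s' (hn s' h' hh) h'
  | inr q => rfl

/-- All large numbers of iterations give the same. -/
theorem iter_const {σ : Type} (f : σ → TT σ) (R : σ → Prop)
    (h1 : ∀ s, ¬ R s → ∀ h, f s h = Sum.inl (s, h)) (s : σ) (n : ℕ) (h : List Outcome)
    (hn : ∀ s' h', iter f n s h = Sum.inl (s', h') → ¬ R s') (d : ℕ) :
    iter f (n + d) s h = iter f n s h := by
  induction d with
  | zero => rfl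
  | succ d ih =>
    rw [← Nat.add_assoc, iter_succ_of f R h1 s (n + d) h, ih]
    intro s' h' he
    rw [ih] at he
    exact hn s' h' he

theorem whl_eq {σ : Type} (f : σ → TT σ) (R : σ → Prop)
    (h1 : ∀ s, ¬ R s → ∀ h, f s h = Sum.inl (s, h))
    (h2 : ∀ s, R s → ∀ h s' h', f s h = Sum.inl (s', h') → h'.length < h.length) (s : σ)
    (M : ℕ) (h : List Outcome) :
    iter f M s h = whl f s h ∨ ∃ s' h', iter f M s h = Sum.inl (s', h') ∧ R s' := by
  by_cases hM : ∃ s' h', iter f M s h = Sum.inl (s', h') ∧ R s'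
  · exact Or.inr hM
  left
  have hM' : ∀ s' h', iter f M s h = Sum.inl (s', h') → ¬ R s' := fun s' h' he hR =>
    hM ⟨s', h', he, hR⟩
  have hL : ∀ s' h', iter f (h.length + 1) s h = Sum.inl (s', h') → ¬ R s' := by
    intro s' h' he
    rcases iter_stable f R h1 h2 s (h.length + 1) h s' h' he with h3 | h3
    · exact h3
    · omega
  unfold whl
  rcases Nat.le_total M (h.length + 1) with h3 | h3
  · obtain ⟨d, hd⟩ := Nat.exists_eq_add_of_le h3
    rw [hd, iter_const f R h1 s M h hM' d]
  · obtain ⟨d, hd⟩ := Nat.exists_eq_add_of_le h3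
    rw [hd, iter_const f R h1 s (h.length + 1) h hL d]

/-- Computations which agree as long as the result is not a running state. -/
theorem runs_agree {σ : Type} {g : Reg → ℝ} {G : ℝ → Prop} {R : σ → Prop} {T : TT σ} {b : σ}
    {c : ℕ} (hr : Runs g G T b c) (hb : ¬ R b) : ∀ T' : TT σ,
    (∀ h, T h = T' h ∨ ∃ s' h', T h = Sum.inl (s', h') ∧ R s') → Runs g G T' b c := by
  induction hr with
  | done T b c h6 =>
    intro T' hT
    refine Runs.done _ _ _ fun h => ?_
    rcases hT h with h7 | ⟨s', h', h7, h8⟩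
    · rw [← h7]
      exact h6 h
    · rw [h6 h] at h7
      have := Sum.inl.inj h7
      rw [Prod.mk.injEq] at this
      rw [← this.1] at h8
      exact absurd h8 hb
  | step T b c q v h6 h7 h8 ih =>
    intro T' hT
    refine Runs.step _ _ _ q v ?_ h7 (ih hb _ fun h => hT (signOut v :: h))
    rcases hT [] with h9 | ⟨s', h', h9, -⟩
    · rw [← h9]
      exact h6
    · rw [h6] at h9
      exact absurd h9 (by simp)

theorem whl_runs {σ : Type} {g : Reg → ℝ} {G : ℝ → Prop} (f : σ → TT σ) (R : σ → Prop)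
    (h1 : ∀ s, ¬ R s → ∀ h, f s h = Sum.inl (s, h))
    (h2 : ∀ s, R s → ∀ h s' h', f s h = Sum.inl (s', h') → h'.length < h.length) {s : σ}
    {M : ℕ} {b : σ} {c : ℕ} (hr : Runs g G (iter f M s) b c) (hb : ¬ R b) :
    Runs g G (whl f s) b c :=
  runs_agree hr hb _ fun h => whl_eq f R h1 h2 s M h

/-! ### Iterations use outcomes -/

theorem shr_of (m n p : ℕ) (drop : List Bool) (s : PS) : Shr (itr m n p drop s) := by
  obtain ⟨h1, h2, h3, h4, h5, h6, h7⟩ := (t_OUT).1
  have hbatch := h6
  have hret : ∀ (β : Type) (b : β), Shr (ret b) := h4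
  have hrnd : ∀ s : RS, Shr (rnd m n p drop s) := by
    intro s
    unfold rnd
    split_ifs
    · exact hret _ _
    · refine h5 _ _ _ _ (h7 _ _ _ _ fun t => h5 _ _ _ _ (hbatch _) fun o => hret _ _)
        fun t => hret _ _
  have hfin : ∀ t W β o, Shr (fin m n p drop t W β o) := by
    intro t W β o
    unfold fin
    split_ifs
    · exact hret _ _
    · exact hret _ _
    · refine h5 _ _ _ _ (hbatch _) fun o' => h5 _ _ _ _ (hbatch _) fun o'' => ?_
      split_ifs
      · exact h5 _ _ _ _ (hbatch _) fun o3 => hret _ _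
      · exact hret _ _
  unfold itr
  split_ifs
  · exact hret _ _
  · refine h5 _ _ _ _ (h7 _ _ _ _ hrnd) fun c => h5 _ _ _ _ (hbatch _) fun o => ?_
    split_ifs
    · exact hret _ _
    · exact h5 _ _ _ _ (h7 _ _ _ _ fun β => h5 _ _ _ _ (hbatch _) fun o => hret _ _)
        fun β => h5 _ _ _ _ (hbatch _) fun o' => hfin _ _ _ _

end Pool.Agent.Y648.CS.W
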