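import Pool.Agent.Y648.CW.T_ITR

set_option autoImplicit false

/-!
# Scales of circuit ratios: a phase
-/

namespace Pool.Agent.Y648.CS.W

open Pool.Agent.NPC Pool.Agent.H558R2 Pool.Agent.H622R3.SM Pool.Agent.W920.FC

theorem bnd_inl {β γ : Type} {T : TT β} {f : β → TT γ} {h h' : List Outcome} {c : γ}
    (he : bnd T f h = Sum.inl (c, h')) : ∃ b h1, T h = Sum.inl (b, h1) ∧
      f b h1 = Sum.inl (c, h') := by
  unfold bnd at he
  cases hh : T h with
  | inl p =>
    rw [hh] at he
    exact ⟨p.1, p.2, rfl, he⟩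
  | inr q =>
    rw [hh] at he
    exact absurd he (by simp)

theorem peQs_ne (m n p : ℕ) (drop : List Bool) (Ws : List Mo) (y : List ℕ) :
    0 < (peQs m n p drop Ws y).length := by
  unfold peQs allQs
  rw [List.length_map, List.length_append, List.length_flatMap]
  have h1 : ((List.range (cD m n + 1)).map fun r => ((List.range (cD m n)).map fun j =>
      mrQ m n drop y r j).length) = (List.range (cD m n + 1)).map fun _ => cD m n := by
    refine List.map_congr_left fun r _ => ?_
    rw [List.length_map, List.length_range]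
  rw [h1, List.map_const', List.length_range, List.sum_replicate, smul_eq_mul]
  have h2 : 0 < cD m n := by unfold cD cK; omega
  have h3 : 0 < (cD m n + 1) * cD m n := Nat.mul_pos (Nat.succ_pos _) h2
  omega

theorem itr_lt (m n p : ℕ) (drop : List Bool) (s : PS) (hs : s.1 = 0) (h : List Outcome)
    (s' : PS) (h' : List Outcome) (he : itr m n p drop s h = Sum.inl (s', h')) :
    h'.length < h.length := by
  obtain ⟨h1, h2, h3, h4, h5, h6, h7⟩ := (t_OUT).1
  have hrnd : ∀ s : RS, Shr (rnd m n p drop s) := by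
    intro s
    unfold rnd
    split_ifs
    · exact h4 _ _
    · refine h5 _ _ _ _ (h7 _ _ _ _ fun t => h5 _ _ _ _ (h6 _) fun o => h4 _ _)
        fun t => h4 _ _
  have hfin : ∀ t W β o, Shr (fin m n p drop t W β o) := by
    intro t W β o
    unfold fin
    split_ifs
    · exact h4 _ _
    · exact h4 _ _
    · refine h5 _ _ _ _ (h6 _) fun o' => h5 _ _ _ _ (h6 _) fun o'' => ?_
      split_ifs
      · exact h5 _ _ _ _ (h6 _) fun o3 => h4 _ _
      · exact h4 _ _
  unfold itr at he
  rw [if_neg (by rw [hs]; simp)] at he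
  obtain ⟨c, h8, h9, he⟩ := bnd_inl he
  obtain ⟨o, h10, h11, he⟩ := bnd_inl he
  have h12 : h8.length ≤ h.length := h7 _ _ _ _ hrnd _ _ _ h9
  have h13 : h10.length < h8.length := by
    unfold batch at h11
    split_ifs at h11 with hlt
    have h14 := Sum.inl.inj h11
    rw [Prod.mk.injEq] at h14
    rw [← h14.2, List.length_drop]
    have := peQs_ne m n p drop c.1.1 c.1.2
    omega
  have h15 : h'.length ≤ h10.length := by
    split_ifs at he with hz
    · exact h4 _ _ _ _ _ he
    · exact (h5 _ _ _ _ (h7 _ _ _ _ fun β => h5 _ _ _ _ (h6 _) fun o => h4 _ _)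
        fun β => h5 _ _ _ _ (h6 _) fun o' => hfin _ _ _ _) _ _ _ he
  omega

theorem itr_stop (m n p : ℕ) (drop : List Bool) (s : PS) (hs : ¬ s.1 = 0) (h : List Outcome) :
    itr m n p drop s h = Sum.inl (s, h) := by
  unfold itr
  rw [if_pos hs]
  rfl

theorem t_PHS : W.S_ITR → W.S_PHS := by
  intro hITR pB
  obtain ⟨q, hq⟩ := hITR (pB + pB * (pR + 1))
  refine ⟨q + (pB * q + (pB + pB * (pR + 1))), ?_⟩
  have l1 : PLe q (q + (pB * q + (pB + pB * (pR + 1)))) := ple_add_left _ _
  intro m n p S N g drop E t W B hg hS hE hN hE64 hI hCUT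
  -- the property of the state number `i`
  let P : ℕ → PS → Prop := fun i s =>
    (s.1 = 0 ∧ i ≤ N ∧ Inv m n p g drop (E + i * (cR m n + 1)) s.2.1 s.2.2.1) ∨
      (s.1 = 1 ∧ ∃ x ∈ Lsp m n p g drop, (∀ c ∈ Xc m drop, 0 ≤ x c) ∧ x (m + m) < 0) ∨
      (s.1 = 2 ∧ Trm m n p g drop ((q + (pB * q + (pB + pB * (pR + 1)))).eval S)
        s.2.2.1 s.2.2.2) ∨ N < i
  have hev : (q + (pB * q + (pB + pB * (pR + 1)))).eval S = q.eval S +
      (pB.eval S * q.eval S + (pB.eval S + pB.eval S *
        (pR.eval S + 1))) := by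
    simp only [Polynomial.eval_add, Polynomial.eval_mul, Polynomial.eval_one]
  have hbound : ∀ i ≤ N, E + i * (cR m n + 1) ≤ (pB + pB * (pR + 1)).eval S := by
    intro i hi
    simp only [Polynomial.eval_add, Polynomial.eval_mul, Polynomial.eval_one]
    have h1 := pR_leS hS
    have h2 : i * (cR m n + 1) ≤ pB.eval S * (pR.eval S + 1) :=
      Nat.mul_le_mul (hi.trans hN) (by omega)
    omega
  let R : PS → PS → Prop := fun s s' =>
    (Runs g (Gd q S g) (itr m n p drop s) s' (q.eval S) ∨ False) ∧
      (s.1 = 0 → s'.1 = 0 → Cut m n p g drop (moV m n g s.2.1) (moV m n g s'.2.1))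
  have hstep : ∀ i s, P i s → ∃ s', (i < N → R s s') ∧ P (i + 1) s' := by
    intro i s hPs
    by_cases hi : i < N
    swap
    · exact ⟨s, fun h => absurd h hi, Or.inr (Or.inr (Or.inr (by omega)))⟩
    rcases hPs with h | h | h | h
    · obtain ⟨h0, -, hI'⟩ := h
      have hs : s = (0, (s.2.1, (s.2.2.1, s.2.2.2))) := by
        rw [← h0]
      obtain ⟨s', r, hs'⟩ := hq m n p S g drop (E + i * (cR m n + 1)) s.2.1 s.2.2.1 s.2.2.2 hg
        hS (hbound i hi.le) (by omega) hI'
      rw [← hs] at r
      refine ⟨s', fun _ => ⟨Or.inl r, ?_⟩, ?_⟩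
      · intro _ h1
        rcases hs' with h2 | h2 | h2
        · exact h2.2.2
        · exact absurd (h1.symm.trans h2.1) (by norm_num)
        · exact absurd (h1.symm.trans h2.1) (by norm_num)
      · rcases hs' with h2 | h2 | h2
        · refine Or.inl ⟨h2.1, hi, ?_⟩
          refine h2.2.1.mono ?_
          have : (i + 1) * (cR m n + 1) = i * (cR m n + 1) + (cR m n + 1) := by ring
          omega
        · exact Or.inr (Or.inl h2)
        · refine Or.inr (Or.inr (Or.inl ⟨h2.1, h2.2.mono ?_⟩))
          have h3 := hbound (i + 1) hi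
          have h4 : (i + 1) * (cR m n + 1) = i * (cR m n + 1) + (cR m n + 1) := by ring
          have h5 : (pB + pB * (pR + 1)).eval S ≤
              (q + (pB * q + (pB + pB * (pR + 1)))).eval S :=
            ((ple_add_right _ _).trans (ple_add_right _ _)) _
          omega
    · refine ⟨s, fun _ => ⟨Or.inl ?_, fun h0 => absurd (h0.symm.trans h.1) (by norm_num)⟩,
        Or.inr (Or.inl h)⟩
      unfold itr
      rw [if_pos (by rw [h.1]; norm_num)]
      exact t_TT.2.2.2 _ _ _ _ _ _ _ _ (fun _ h => h) (Nat.zero_le _) (runs_ret s)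
    · refine ⟨s, fun _ => ⟨Or.inl ?_, fun h0 => absurd (h0.symm.trans h.1) (by norm_num)⟩,
        Or.inr (Or.inr (Or.inl h))⟩
      unfold itr
      rw [if_pos (by rw [h.1]; norm_num)]
      exact t_TT.2.2.2 _ _ _ _ _ _ _ _ (fun _ h => h) (Nat.zero_le _) (runs_ret s)
    · omega
  obtain ⟨f, hf⟩ : ∃ f : ℕ → PS → PS, ∀ i s, P i s →
      (i < N → R s (f i s)) ∧ P (i + 1) (f i s) := by
    choose! f hf using hstep
    exact ⟨f, hf⟩
  obtain ⟨st, hst0, hst⟩ : ∃ st : ℕ → PS, st 0 = (0, (t, (W, B))) ∧
      ∀ i, st (i + 1) = f i (st i) :=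
    ⟨fun i => Nat.rec (0, (t, (W, B))) (fun i s => f i s) i, rfl, fun _ => rfl⟩
  have hP : ∀ i, P i (st i) := by
    intro i
    induction i with
    | zero =>
      rw [hst0]
      refine Or.inl ⟨rfl, Nat.zero_le _, ?_⟩
      have : E + 0 * (cR m n + 1) = E := by ring
      rw [this]
      exact hI
    | succ i ih =>
      rw [hst]
      exact (hf i _ ih).2
  have hR : ∀ i < N, R (st i) (st (i + 1)) := fun i hi => by
    rw [hst]
    exact (hf i _ (hP i)).1 hi
  have hrun : Runs g (Gd q S g) (iter (itr m n p drop) N (0, (t, (W, B))))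
      (st N) (N * q.eval S) := by
    rw [← hst0]
    refine t_TT.2.2.1 PS g _ (itr m n p drop) st N (q.eval S) fun i hi => ?_
    rcases (hR i hi).1 with h | h
    · exact h
    · exact h.elim
  have hfin : (st N).1 ≠ 0 ∧ ((st N).1 = 1 ∧ (∃ x ∈ Lsp m n p g drop,
      (∀ c ∈ Xc m drop, 0 ≤ x c) ∧ x (m + m) < 0) ∨
      ((st N).1 = 2 ∧ Trm m n p g drop ((q + (pB * q + (pB + pB * (pR + 1)))).eval S)
        (st N).2.2.1 (st N).2.2.2)) := by
    rcases hP N with h | h | h | h
    · exfalso
      -- all states before are running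
      have hback : ∀ j, j ≤ N → (st (N - j)).1 = 0 := by
        intro j
        induction j with
        | zero => intro _; exact h.1
        | succ j ih =>
          intro hj
          have h1 := ih (by omega)
          have h2 : N - (j + 1) + 1 = N - j := by omega
          have h3 := hR (N - (j + 1)) (by omega)
          rw [h2] at h3
          by_contra hne
          rcases h3.1 with h4 | h4
          · unfold itr at h4
            rw [if_pos hne] at h4
            rw [ret_runs h4] at h1
            exact hne h1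
          · exact h4
      have hall : ∀ i ≤ N, (st i).1 = 0 := by
        intro i hi
        have := hback (N - i) (by omega)
        rwa [Nat.sub_sub_self hi] at this
      have := hCUT (fun i => moV m n g (st i).2.1) N
        fun i hi => (hR i hi).2 (hall i hi.le) (hall (i + 1) hi)
      exact lt_irrefl _ this
    · exact ⟨by rw [h.1]; norm_num, Or.inl h⟩
    · exact ⟨by rw [h.1]; norm_num, Or.inr h⟩
    · exact absurd h (lt_irrefl _)
  refine ⟨st N, ?_, hfin.2⟩
  have hw := whl_runs (itr m n p drop) (fun s => s.1 = 0)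
    (fun s hs h => itr_stop m n p drop s hs h)
    (fun s hs h s' h' he => itr_lt m n p drop s hs h s' h' he) hrun hfin.1
  refine runs_mono l1 ?_ hw
  rw [hev]
  have h1 : N * q.eval S ≤ pB.eval S * q.eval S := Nat.mul_le_mul_right _ hN
  omega

end Pool.Agent.Y648.CS.W
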