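import Pool.Agent.Y648.CS.T_PEQ
import Pool.Agent.Y648.CW.Stm

set_option autoImplicit false

/-!
# The program for the weighted matrix, the queries of the perceptron algorithm, with the bound `S`
-/

namespace Pool.Agent.Y648.CS.W

open Pool.Agent.NPC Pool.Agent.H558R2 Pool.Agent.H622R3.SM Pool.Agent.W920.FC

section

open TPRE TTUP Pool.Agent.W920.FC.TORD1

theorem t_PRE : S_TUP → S_TWO → W.S_MOQ → W.S_PRE := by
  intro hT h2 hM pB
  obtain ⟨q1, hq1⟩ := hM pB
  set q0 : Polynomial ℕ := q1 + (28 * Polynomial.X + 84) with hq0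
  set q : Polynomial ℕ := (Polynomial.X + 3) * (2 * Polynomial.X + 4) * (q0 + 2 * Polynomial.X) +
    (2 * Polynomial.X + 4) * q1 + (28 * Polynomial.X + 85) +
    2 * ((Polynomial.X + 3) * (2 * Polynomial.X + 4)) with hq
  refine ⟨q, fun m n p S g Ws hg hS hWs => ?_⟩
  have hcA : ∀ lam, cA m n ≤ (28 * Polynomial.X + 84 : Polynomial ℕ).eval (S + lam) := by
    intro lam
    simp only [cA, cD, cK, Polynomial.eval_add, Polynomial.eval_mul, Polynomial.eval_X,
      Polynomial.eval_ofNat]
    omega
  have hq0e : ∀ x, q0.eval x = q1.eval x + (28 * Polynomial.X + 84 : Polynomial ℕ).eval x :=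
    fun x => by rw [hq0, Polynomial.eval_add]
  have hqe : ∀ x, q.eval x = (x + 3) * (2 * x + 4) * (q0.eval x + 2 * x) +
      (2 * x + 4) * q1.eval x + (28 * x + 85) + 2 * ((x + 3) * (2 * x + 4)) := fun x => by
    rw [hq]
    simp only [Polynomial.eval_add, Polynomial.eval_mul, Polynomial.eval_X, Polynomial.eval_ofNat]
  have hqq0 : ∀ x, q0.eval x + 2 * x ≤ q.eval x := fun x => by
    rw [hqe]
    nlinarith [Nat.zero_le (q0.eval x), Nat.zero_le x, Nat.zero_le (q1.eval x),
      Nat.zero_le (x * q0.eval x), Nat.zero_le (x * x * q0.eval x)]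
  have hWc : ∀ c, MoSz (pB.eval S) (Ws.getD c moOne) ∧ MoOK m n g (Ws.getD c moOne) := by
    intro c
    by_cases h : c < Ws.length
    · rw [List.getD_eq_getElem?_getD, List.getElem?_eq_getElem h]
      exact hWs _ (List.getElem_mem h)
    · rw [List.getD_eq_getElem?_getD, List.getElem?_eq_none (by omega)]
      exact ⟨⟨Nat.zero_le _, Nat.zero_le _, Nat.zero_le _, Nat.zero_le _⟩, fun x hx => by
        simp [moOne] at hx⟩
  set vs : List ℝ := ((List.range (m + m + 4)).map fun c => wV m n g Ws c) ++ [2 ^ cA m n] with hvs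
  -- the queries
  have hmono : ∀ {p p' : Polynomial ℕ}, (∀ x, p.eval x ≤ p'.eval x) → ∀ {q : Qry} {v : ℝ},
      HasVal g (Gd p S g) q v → HasVal g (Gd p' S g) q v := by
    rintro p p' hp q v ⟨a1, V, a2, a3, a4, a5⟩
    refine ⟨a1, V, a2, fun I hI => ⟨(a3 I hI).1, (a3 I hI).2.1, fun lam hlam => ?_⟩, a4, a5⟩
    exact QB_mono (hp _) ((a3 I hI).2.2 lam hlam)
  have hF : List.Forall₂ (HasVal g (Gd q0 S g)) (wtQs m n Ws) vs := by
    rw [wtQs, hvs]
    refine List.rel_append ?_ (List.Forall₂.cons ?_ List.Forall₂.nil)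
    · rw [List.forall₂_map_left_iff, List.forall₂_map_right_iff, List.forall₂_same]
      intro c _
      obtain ⟨w1, w2⟩ := hWc c
      exact hmono (fun x => by rw [hq0e]; omega) (hq1 m n S g _ hg hS w1 w2).1
    · refine (h2 g _ (cA m n) hg fun t ht lam _ => ?_).1
      refine QB_pow t _ (ht.trans ((hcA lam).trans ?_))
      rw [hq0e]
      omega
  obtain ⟨a1, a2, a3, ⟨V, c1, c2, c3⟩, a5⟩ := hT g _ _ _ hF
  have hlen : (wtQs m n Ws).length = m + m + 5 := by simp [wtQs]
  -- the weights
  set ix : ℕ → ℕ → ℕ := fun i c => if i = n + 2 ∧ c = m + m + 3 then m + m + 4 else c with hix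
  have hixl : ∀ i, ∀ c < m + m + 4, ix i c < (wtQs m n Ws).length := by
    intro i c hc
    rw [hlen, hix]
    simp only
    split_ifs <;> omega
  set R : ℕ → ℕ → Reg := fun i c => tupR (wtQs m n Ws) (ix i c) with hR
  have hVR : ∀ i, ∀ c < m + m + 4, V (R i c) =
      if i = n + 2 ∧ c = m + m + 3 then 2 ^ cA m n else wV m n g Ws c := by
    intro i c hc
    rw [hR]
    simp only
    rw [c3 _ (hixl i c hc), hix, hvs]
    simp only
    split_ifs with h
    · rw [List.getD_append_right _ _ _ _ (by simp)]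
      simp
    · rw [List.getD_append _ _ _ _ (by simpa using hc), List.getD_eq_getElem?_getD,
        List.getElem?_eq_getElem (by simpa using hc)]
      simp
  have hRm : ∀ i, ∀ c < m + m + 4, R i c ∈ baseReg ∪ Pool.Agent.W920.FC.wr (tupP (wtQs m n Ws)) :=
    fun i c hc => a3 _ (hixl i c hc)
  have hSh : ∀ r ∈ baseReg ∪ Pool.Agent.W920.FC.wr (tupP (wtQs m n Ws)), r.headD 0 < 79 := by
    rintro r (h | h)
    · have : r.headD 0 < 4 := h
      omega
    · rw [a2 r h]
      norm_num
  have hVRq : ∀ lam, RB lam g → ∀ i, ∀ c < m + m + 4,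
      QB (q0.eval (S + lam) + lam) (V (R i c)) := by
    intro lam hlam i c hc
    rcases hRm i c hc with h | ⟨I, hI, h⟩
    · rw [c1 _ h]
      exact QB_mono (by omega) (QB_base hlam h)
    · rw [← h]
      exact QB_mono (by omega) ((c2 I hI).2 lam hlam)
  have hPWR : ∀ i, ∀ c < m + m + 4, PW m n p g (wV m n g Ws) i c =
      Pc m n p g i c * V (R i c) := by
    intro i c hc
    rw [hVR i c hc, PW]
  have hPWq : ∀ lam, RB lam g → ∀ i, ∀ c < m + m + 4,
      QB (q0.eval (S + lam) + 2 * lam) (PW m n p g (wV m n g Ws) i c) := by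
    intro lam hlam i c hc
    rw [hPWR i c hc]
    exact QB_mono (by omega) (QB_mul (QB_Pc hlam m n p i c) (hVRq lam hlam i c hc))
  have hpre : preP m n p Ws = tupP (wtQs m n Ws) ++ mat m n p R := rfl
  refine ⟨?_, ?_, ?_, ⟨val V (Pc m n p g) (PW m n p g (wV m n g Ws)), ?_, ?_, fun i _ c _ => rfl⟩,
    ?_, ?_⟩
  · rw [hpre, ord_append]
    exact ⟨a1, ord_mat Set.subset_union_left hSh fun i _ c hc => hRm i c hc⟩
  · rintro r hr
    rw [hpre, wr_append] at hr
    rcases hr with hr | ⟨I, hI, rfl⟩
    · rw [a2 r hr]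
      norm_num
    · obtain ⟨i, -, c, -, h | h⟩ := mem_mat.1 hI
      · rw [h, (spec_cof m n p i c _).1]
        exact ⟨by norm_num, by norm_num⟩
      · rw [h]
        exact ⟨by norm_num, by norm_num⟩
  · intro i hi c hc
    rw [hpre, wr_append]
    right
    exact ⟨_, mem_mat.2 ⟨i, hi, c, hc, Or.inr rfl⟩, rfl⟩
  · intro r hr
    have : r.headD 0 < 4 := hr
    rw [val_lt (by omega), c1 r hr]
  · intro I hI
    rw [hpre] at hI
    rcases List.mem_append.1 hI with hI | hI
    · obtain ⟨f1, f2⟩ := ord_opr _ _ a1 I hI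
      obtain ⟨⟨e1, e2⟩, e3⟩ := c2 I hI
      unfold Eqn
      rw [val_lt (hSh _ f1), val_lt (hSh _ f2), val_lt (hSh I.dst (Or.inr ⟨I, hI, rfl⟩))]
      exact ⟨⟨e1, e2⟩, fun lam hlam => QB_mono (by have := hqq0 (S + lam); omega)
        (e3 lam hlam)⟩
    · obtain ⟨i, hi, c, hc, h | h⟩ := mem_mat.1 hI
      · obtain ⟨s1, s2, s3, s4, s5⟩ := spec_cof m n p i c [79, i, c]
        rw [← h] at s1 s2 s3 s4 s5
        have hb : ∀ r ∈ baseReg, val V (Pc m n p g) (PW m n p g (wV m n g Ws)) r = g r := by
          intro r hr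
          have : r.headD 0 < 4 := hr
          rw [val_lt (by omega), c1 r hr]
        have hd : val V (Pc m n p g) (PW m n p g (wV m n g Ws)) I.dst = Pc m n p g i c := by
          rw [s1]
          rfl
        refine ⟨⟨?_, fun h => absurd h s4⟩, fun lam hlam => ?_⟩
        · rw [hd, hb _ s2, hb _ s3, s5 g hg]
        · rw [hd]
          exact QB_mono (by have := hqq0 (S + lam); omega) (QB_Pc hlam m n p i c)
      · have hd : val V (Pc m n p g) (PW m n p g (wV m n g Ws)) I.dst =
            PW m n p g (wV m n g Ws) i c := by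
          rw [h]
          rfl
        refine ⟨⟨?_, fun h' => ?_⟩, fun lam hlam => ?_⟩
        · rw [hd, hPWR i c hc, h]
          change _ = Pc m n p g i c * val V (Pc m n p g) (PW m n p g (wV m n g Ws)) (R i c)
          rw [val_lt (hSh _ (hRm i c hc))]
        · rw [h] at h'
          simp at h'
        · rw [hd]
          exact QB_mono (by have := hqq0 (S + lam); omega) (hPWq lam hlam i c hc)
  · have hmat : (mat m n p R).length = (n + 3) * ((m + m + 4) * 2) := by
      simp [mat, List.length_flatMap]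
    have hsum : ((wtQs m n Ws).map fun q => q.1.length).sum ≤
        (m + m + 4) * q1.eval S + (cA m n + 1) := by
      rw [wtQs, List.map_append, List.sum_append, List.map_map]
      refine Nat.add_le_add ?_ ?_
      · refine (List.sum_le_card_nsmul _ (q1.eval S) ?_).trans ?_
        · intro x hx
          obtain ⟨c, -, rfl⟩ := List.mem_map.1 hx
          obtain ⟨w1, w2⟩ := hWc c
          exact (hq1 m n S g _ hg hS w1 w2).2
        · simp
      · simp [twoQ]
    rw [hpre, List.length_append, a5, hmat, hqe]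
    have e1 := hcA 0
    rw [add_zero] at e1
    simp only [Polynomial.eval_add, Polynomial.eval_mul, Polynomial.eval_X,
      Polynomial.eval_ofNat] at e1
    have e2 : (m + m + 4) * q1.eval S ≤ (2 * S + 4) * q1.eval S :=
      Nat.mul_le_mul_right _ (by omega)
    have e3 : (n + 3) * ((m + m + 4) * 2) ≤ 2 * ((S + 3) * (2 * S + 4)) := by
      calc (n + 3) * ((m + m + 4) * 2) = 2 * ((n + 3) * (m + m + 4)) := by ring
        _ ≤ _ := Nat.mul_le_mul_left _ (Nat.mul_le_mul (by omega) (by omega))
    omega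
  · intro lam hlam
    classical
    obtain ⟨D, d1, d2, d3⟩ := common (Finset.range (n + 3) ×ˢ Finset.range (m + m + 4))
      (fun x => PW m n p g (wV m n g Ws) x.1 x.2) (q0.eval (S + lam) + 2 * lam) (by
        intro x hx
        rw [Finset.mem_product, Finset.mem_range, Finset.mem_range] at hx
        exact hPWq lam hlam x.1 x.2 hx.2)
    rw [Finset.card_product, Finset.card_range, Finset.card_range] at d2 d3
    have hle : (n + 3) * (m + m + 4) * (q0.eval (S + lam) + 2 * lam) ≤
        q.eval (S + lam) := by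
      rw [hqe]
      have : (n + 3) * (m + m + 4) * (q0.eval (S + lam) + 2 * lam) ≤
          (S + lam + 3) * (2 * (S + lam) + 4) *
            (q0.eval (S + lam) + 2 * (S + lam)) :=
        Nat.mul_le_mul (Nat.mul_le_mul (by omega) (by omega)) (by omega)
      omega
    have hpw := Nat.pow_le_pow_right (show 0 < 2 by norm_num) hle
    refine ⟨D, d1, d2.trans hpw, fun r _ => ?_⟩
    unfold gW
    split_ifs with h h'
    · obtain ⟨z, hz, hz'⟩ := d3 (r.getD 1 0, r.getD 2 0) (by
        rw [Finset.mem_product, Finset.mem_range, Finset.mem_range]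
        exact h.2.2)
      exact ⟨z, hz.trans hpw, hz'⟩
    · exact ⟨D, by simpa using d2.trans hpw, by simp⟩
    · exact ⟨0, by simp, by simp⟩

end

section

open TPEQ TTUP TPRE TREL Pool.Agent.W920.FD.THVP

theorem t_PEQ : W.S_PRE → S_REL → S_ALLQ → W.S_PEQ := by
  intro hP hR hA pB
  obtain ⟨qp, hqp⟩ := hP pB
  obtain ⟨qa, hqa⟩ := hA
  set q : Polynomial ℕ := qp + qa.comp (Polynomial.X + qp) + (qa * qp + qa) with hq
  have e1 : ∀ x, q.eval x = qp.eval x + qa.eval (x + qp.eval x) +
      (qa.eval x * qp.eval x + qa.eval x) := fun x => by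
    rw [hq]
    simp only [Polynomial.eval_add, Polynomial.eval_mul, Polynomial.eval_comp, Polynomial.eval_X]
  refine ⟨q, fun m n p S g drop Ws y hg hS hWs hy => ?_⟩
  obtain ⟨c1, c2, c3, ⟨V, c4, c5, c6⟩, c7, c8⟩ := hqp m n p S g Ws hg hS hWs
  set g' := gW m n p g (wV m n g Ws) with hg'
  have hgb : Base g' := by
    constructor <;> simp [hg', gW]
  obtain ⟨d1, d2⟩ := hqa m n g' drop y hgb hy
  have hgd : ∀ v, Gd qa (m + n) g' v → Gd q S g v := by
    intro v hv lam hlam
    refine QB_mono ?_ (hv _ (c8 lam hlam))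
    rw [e1]
    have := eval_mono qa (show m + n + qp.eval (S + lam) ≤ S + lam +
      qp.eval (S + lam) by omega)
    omega
  have hgp : ∀ v, Gd qp S g v → Gd q S g v := fun v hv lam hlam =>
    QB_mono (by rw [e1]; omega) (hv lam hlam)
  have hg0 : ∀ r ∈ baseReg, r ≠ [2] → (∀ i < n + 3, ∀ c < m + m + 4, r ≠ [0, i, c]) →
      g' r = 0 := by
    intro r _ h1 h2
    rw [hg', gW, if_neg, if_neg h1]
    rintro ⟨h3, h4, h5, h6⟩
    exact h2 _ h5 _ h6 (reg3 h3 h4)
  have hgi : ∀ i < n + 3, ∀ c < m + m + 4, V [80, i, c] = g' [0, i, c] := by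
    intro i hi c hc
    rw [c6 i hi c hc, hg']
    simp only [gW]
    rw [if_pos ⟨by simp, by simp, by simpa using hi, by simpa using hc⟩]
    simp
  have hg2 : g' [2] = 1 := hgb.1
  have key : ∀ (Q : Qry) (v : ℝ), HasVal g' (Gd qa (m + n) g') Q v →
      HasVal g (Gd q S g) (reQ m n p Ws Q) v := by
    intro Q v hQ
    exact hR m n p g g' (Gd q S g) Ws Q v hg c1 c2 c3
      ⟨V, c4, fun I hI => ⟨(c5 I hI).1, hgp _ (c5 I hI).2⟩, hgi⟩ hg2 hg0 (hv_mono hgd hQ)
  refine ⟨?_, ?_⟩
  · rw [peQs, List.forall₂_map_left_iff]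
    exact fa_mono key d1
  · have hlen : ∀ l : List Qry, ((l.map (reQ m n p Ws)).map fun q => q.1.length + 1).sum =
        l.length * (preP m n p Ws).length + (l.map fun q => q.1.length + 1).sum := by
      intro l
      induction l with
      | nil => simp
      | cons a l ih =>
        simp only [List.map_cons, List.sum_cons, List.length_cons] at ih ⊢
        rw [ih]
        simp only [reQ, List.length_append, List.length_map]
        ring
    have hcount : ∀ l : List Qry, l.length ≤ (l.map fun q => q.1.length + 1).sum := by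
      intro l
      induction l with
      | nil => simp
      | cons a l ih =>
        simp only [List.map_cons, List.sum_cons, List.length_cons]
        omega
    rw [peQs, hlen, e1]
    have h1 : (allQs m n drop y).length * (preP m n p Ws).length ≤
        qa.eval S * qp.eval S :=
      Nat.mul_le_mul ((hcount _).trans (d2.trans (eval_mono qa hS))) c7
    have h2 := eval_mono qa hS
    omega

end

end Pool.Agent.Y648.CS.W
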