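import Pool.Agent.Y648.CS.T_PR
import Pool.Agent.Y648.CS.Ut
import Pool.Agent.Y648.CW.Stm

set_option autoImplicit false

/-!
# Products of minors, comparisons, monomials, with the bound `S`
-/

namespace Pool.Agent.Y648.CS.W

open Pool.Agent.NPC Pool.Agent.H558R2 Pool.Agent.H622R3.SM Pool.Agent.W920.FC
open Pool.Agent.Y648.CS.TPR

namespace TPR

open Pool.Agent.W920.FD.THVFR (QB_mono) in
lemma gd_lift {p p' : Polynomial ℕ} {S S' : ℕ} {g : Reg → ℝ} (hS : S ≤ S')
    (h : ∀ x, p.eval x ≤ p'.eval x) (v : ℝ) (hv : Gd p S g v) : Gd p' S' g v :=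
  fun lam hl => QB_mono ((eval_mono p (by omega)).trans (h _)) (hv lam hl)

end TPR

open TPR

open Pool.Agent.W920.FC.TORD1 (ord_append ord_cons wr_append wr_cons ord_range map_range_eq) in
open Pool.Agent.W920.FD.THVFR (ord_oper QB_mono QB_sub) in
theorem t_PR : S_TUP → S_TWO → S_DET → W.S_PR := by
  intro hT h2 hD pB
  obtain ⟨q1, hq1⟩ := hD
  refine ⟨pB + pB * (q1 + Polynomial.X) + q1 + (pB + 1 + pB * q1 + 1 + pB), ?_⟩
  intro m n S g e l hg hS he hl
  have ev : ∀ x, (pB + pB * (q1 + Polynomial.X) + q1 + (pB + 1 + pB * q1 + 1 + pB)).eval x =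
      pB.eval x + pB.eval x * (q1.eval x + x) + q1.eval x +
        (pB.eval x + 1 + pB.eval x * q1.eval x + 1 + pB.eval x) := by
    intro x
    simp
  set q : Polynomial ℕ := pB + pB * (q1 + Polynomial.X) + q1 + (pB + 1 + pB * q1 + 1 + pB) with hq
  clear_value q
  set qs : List Qry := twoQ e :: l.map (detQ m n) with hqs
  have hmono : ∀ lam, pB.eval S ≤ pB.eval (S + lam) := fun lam =>
    eval_mono pB (by omega)
  have hmq : q1.eval (m + n) ≤ q1.eval S := eval_mono q1 hS
  have hF : List.Forall₂ (HasVal g (Gd q S g)) qs ((2 : ℝ) ^ e :: l.map (mv m n g)) := by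
    refine List.Forall₂.cons ?_ ?_
    · refine (h2 g _ e hg (fun t ht lam hl' => QB_mono ?_ (QB_two t))).1
      have := hmono lam
      rw [ev]
      omega
    · rw [List.forall₂_map_left_iff, List.forall₂_map_right_iff, List.forall₂_same]
      intro x _
      refine hv_mono (gd_lift hS ?_) (hq1 m n g x hg).1
      intro y
      rw [ev]
      omega
  obtain ⟨t1, t2, t3, ⟨V, v1, v2, v3⟩, t5⟩ := hT g _ qs _ hF
  have hlen : qs.length = l.length + 1 := by simp [hqs]
  have hbw : ∀ r ∈ baseReg ∪ wr (tupP qs), r.headD 0 ≠ 62 := by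
    rintro r (hr | hr)
    · have hr' : r.headD 0 < 4 := hr
      omega
    · have := t2 r hr
      omega
  have hdet : ∀ lam, RB lam g → ∀ x, QB (q1.eval (S + lam) + (S + lam)) (mv m n g x) :=
    fun lam hl' x => QB_mono (Nat.add_le_add (eval_mono q1 (by omega)) (by omega))
      (hv_val (hq1 m n g x hg).1 hl')
  obtain ⟨V', w1, w2⟩ : ∃ V' : Reg → ℝ, (∀ r, r.headD 0 ≠ 62 → V' r = V r) ∧
      ∀ t, V' [62, t] = 2 ^ e * ((l.map (mv m n g)).take t).prod :=
    ⟨fun r => if r.headD 0 = 62 then 2 ^ e * ((l.map (mv m n g)).take (r.getD 1 0)).prod else V r,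
      fun r hr => if_neg hr, fun t => by simp⟩
  refine ⟨⟨?_, V', ?_, ?_, ?_, ?_⟩, ?_⟩
  · -- order
    refine (ord_append _ _ _).2 ⟨t1, ?_⟩
    rw [ord_cons]
    refine ⟨t3 0 (by omega), Or.inl (by simp [baseReg]), fun h => hbw _ h (by simp), ?_⟩
    refine ord_chain _ _ _ (Or.inr rfl) (fun t ht => Or.inl (t3 (t + 1) (by omega))) ?_
    rintro t (h | h)
    · exact hbw _ h (by simp)
    · simp at h
  · -- base registers
    intro r hr
    have hr' : r.headD 0 < 4 := hr
    have h0 : r.headD 0 ≠ 62 := by omega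
    rw [w1 r h0]
    exact v1 r hr
  · -- equations
    intro I hI
    rcases List.mem_append.1 hI with hI | hI
    · have h3 := ord_oper _ _ t1 I hI
      have h4 := v2 I hI
      have d0 := hbw I.dst (Or.inr ⟨I, hI, rfl⟩)
      have d1 := hbw I.fst h3.1
      have d2 := hbw I.snd h3.2
      rw [w1 _ d0, w1 _ d1, w1 _ d2]
      exact ⟨h4.1.1, h4.1.2, h4.2⟩
    · rcases List.mem_cons.1 hI with hI | hI
      · subst hI
        have d1 : V' (tupR qs 0) = 2 ^ e := (w1 _ (hbw _ (t3 0 (by omega)))).trans (v3 0 (by omega))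
        have e3 : V' [3] = 0 :=
          (w1 _ (by simp)).trans ((v1 _ (by simp [baseReg])).trans hg.2)
        have e5 : V' [62, 0] = 2 ^ e := by rw [w2]; simp
        refine ⟨?_, fun h => (by cases h), ?_⟩
        · show V' [62, 0] = V' (tupR qs 0) + V' [3]
          rw [e5, d1, e3, add_zero]
        · intro lam hl'
          show QB _ (V' [62, 0])
          rw [e5]
          refine QB_mono ?_ (QB_two e)
          have := hmono lam
          rw [ev]
          omega
      · obtain ⟨t, ht, rfl⟩ := List.mem_map.1 hI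
        rw [List.mem_range] at ht
        have e4 : V' (tupR qs (t + 1)) = (l.map (mv m n g)).getD t 0 := by
          rw [w1 _ (hbw _ (t3 (t + 1) (by omega))), v3 (t + 1) (by omega)]
          simp
        refine ⟨?_, fun h => (by cases h), ?_⟩
        · show V' [62, t + 1] = V' [62, t] * V' (tupR qs (t + 1))
          rw [e4, w2, w2, prod_take _ t (by simpa using ht), mul_assoc]
        · intro lam hl'
          show QB _ (V' [62, t + 1])
          rw [w2]
          have h7 : ∀ s ≤ l.length, QB (s * (q1.eval (S + lam) + (S + lam)))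
              ((l.map (mv m n g)).take s).prod := by
            intro s hs
            induction s with
            | zero => exact ⟨1, 1, by simp⟩
            | succ s ih =>
              rw [prod_take _ _ (by simpa using (show s < l.length by omega)), add_mul, one_mul]
              refine QB_mul (ih (by omega)) ?_
              have h8 : s < (l.map (mv m n g)).length := by simp; omega
              rw [List.getD_eq_getElem _ _ h8, List.getElem_map]
              exact hdet lam hl' _
          refine QB_mono ?_ (QB_mul (QB_two e) (h7 (t + 1) (by omega)))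
          have h9 := hmono lam
          have h10 : (t + 1) * (q1.eval (S + lam) + (S + lam)) ≤
              pB.eval (S + lam) * (q1.eval (S + lam) + (S + lam)) :=
            Nat.mul_le_mul_right _ (by omega)
          rw [ev]
          omega
  · -- register
    refine Or.inr ?_
    rcases h : l.length with _ | N
    · refine ⟨(⟨Op.add, [62, 0], tupR qs 0, [3]⟩ : Instr), ?_, by simp [prQ, h]⟩
      exact List.mem_append.2 (Or.inr (List.mem_cons.2 (Or.inl rfl)))
    · refine ⟨(⟨Op.mul, [62, N + 1], [62, N], tupR qs (N + 1)⟩ : Instr), ?_, by simp [prQ, h]⟩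
      refine List.mem_append.2 (Or.inr (List.mem_cons.2 (Or.inr ?_)))
      exact List.mem_map.2 ⟨N, List.mem_range.2 (by omega), rfl⟩
  · show V' [62, l.length] = _
    rw [w2, List.take_of_length_le (by simp)]
    rfl
  · -- length
    have h3 : (prQ m n e l).1.length = (tupP qs).length + (l.length + 1) := by
      simp [prQ, ← hqs]
    have h4 : (qs.map fun q => q.1.length).sum ≤ (e + 1) + l.length * q1.eval S := by
      rw [hqs, List.map_cons, List.sum_cons, List.map_map]
      refine Nat.add_le_add ?_ ?_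
      · exact (h2 g (fun _ => True) e hg (fun _ _ => trivial)).2.le
      · have := List.sum_le_card_nsmul (l.map ((fun q : Qry => q.1.length) ∘ detQ m n))
          (q1.eval S) (by
            intro x hx
            obtain ⟨y, _, rfl⟩ := List.mem_map.1 hx
            exact (hq1 m n g y hg).2.trans hmq)
        simpa using this
    have h5 : l.length * q1.eval S ≤ pB.eval S * q1.eval S :=
      Nat.mul_le_mul_right _ hl
    rw [h3, t5, ev]
    omega

open Pool.Agent.W920.FD.THVFR (QB_mono) in
theorem t_CMPQ : S_CMB → W.S_PR → W.S_CMPQ := by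
  intro hC hP pB
  obtain ⟨q0, h0⟩ := hP (2 * pB)
  refine ⟨cq (cq q0) + (4 * q0 + 3), ?_⟩
  intro m n S g a b hg hS ha hb
  have e0 : (2 * pB).eval S = 2 * pB.eval S := by simp
  obtain ⟨a1, a2, a3, a4⟩ := ha
  obtain ⟨b1, b2, b3, b4⟩ := hb
  obtain ⟨p1, p2⟩ := h0 m n S g (a.1.2.1.length + b.1.2.2.length) (a.2.1 ++ b.2.2) hg hS (by omega)
    (by rw [List.length_append]; omega)
  obtain ⟨r1, r2⟩ := h0 m n S g (b.1.2.1.length + a.1.2.2.length) (b.2.1 ++ a.2.2) hg hS (by omega)
    (by rw [List.length_append]; omega)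
  obtain ⟨s1, s2⟩ := cmb_gd hC (op := Op.mul) p1 p1 (fun h => by cases h)
  obtain ⟨t1, t2⟩ := cmb_gd hC (op := Op.mul) r1 r1 (fun h => by cases h)
  obtain ⟨u1, u2⟩ := cmb_gd hC (op := Op.sub) s1 t1 (fun h => by cases h)
  refine ⟨hv_mono (CS.TPR.gd_mono ?_) u1, ?_⟩
  · intro x
    rw [Polynomial.eval_add]
    omega
  · have e1 : (cq (cq q0) + (4 * q0 + 3)).eval S =
        (cq (cq q0)).eval S + (4 * q0.eval S + 3) := by simp
    unfold cmpQ
    rw [u2, s2, t2, e1]
    omega

open Pool.Agent.W920.FD.THVFR (QB_mono) in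
theorem t_MOQ : S_CMB → W.S_PR → W.S_MOQ := by
  intro hC hP pB
  obtain ⟨q0, h0⟩ := hP pB
  refine ⟨cq (cq q0) + (2 * q0 + 2), ?_⟩
  intro m n S g a hg hS ha hok
  obtain ⟨a1, a2, a3, a4⟩ := ha
  obtain ⟨p1, p2⟩ := h0 m n S g a.1.2.1.length a.2.1 hg hS a1 a3
  obtain ⟨r1, r2⟩ := h0 m n S g a.1.2.2.length a.2.2 hg hS a2 a4
  obtain ⟨s1, s2⟩ := cmb_gd hC (op := Op.div) p1 r1 (fun _ => prV_ne m n g _ _ hok)
  have hz : HasVal g (Gd (cq q0) S g) (([], [3]) : Qry) 0 :=
    ⟨trivial, g, fun _ _ => rfl, fun I hI => by simp at hI, Or.inl (by simp [baseReg]), hg.2⟩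
  obtain ⟨u1, u2⟩ := cmb_gd hC (op := Op.sub) hz s1 (fun h => by cases h)
  have e1 : (cq (cq q0) + (2 * q0 + 2)).eval S =
      (cq (cq q0)).eval S + (2 * q0.eval S + 2) := by simp
  have hm1 : ∀ x, (cq (cq q0)).eval x ≤ (cq (cq q0) + (2 * q0 + 2)).eval x := fun x => by
    rw [Polynomial.eval_add]; omega
  have hm0 : ∀ x, (cq q0).eval x ≤ (cq (cq q0) + (2 * q0 + 2)).eval x := fun x => by
    refine le_trans ?_ (hm1 x)
    rw [cq_eval (cq q0)]
    omega
  by_cases h : a.1.1 = true
  · have e2 : moV m n g a = Op.sub.eval 0 (Op.div.eval (prV m n g a.1.2.1.length a.2.1)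
        (prV m n g a.1.2.2.length a.2.2)) := by
      simp only [moV, h, if_true, Op.eval]
      ring
    have e3 : moQ m n a = cmb Op.sub ([], [3]) (cmb Op.div (prQ m n a.1.2.1.length a.2.1)
        (prQ m n a.1.2.2.length a.2.2)) := by
      simp only [moQ, h, if_true]
    rw [e2, e3]
    refine ⟨hv_mono (CS.TPR.gd_mono hm1) u1, ?_⟩
    rw [u2, s2, e1]
    simp only [List.length_nil]
    omega
  · have h' : a.1.1 = false := by simpa using h
    have e2 : moV m n g a = Op.div.eval (prV m n g a.1.2.1.length a.2.1)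
        (prV m n g a.1.2.2.length a.2.2) := by
      simp [moV, h', Op.eval]
    have e3 : moQ m n a = cmb Op.div (prQ m n a.1.2.1.length a.2.1)
        (prQ m n a.1.2.2.length a.2.2) := by
      simp [moQ, h']
    rw [e2, e3]
    refine ⟨hv_mono (CS.TPR.gd_mono hm0) s1, ?_⟩
    rw [s2, e1]
    omega

end Pool.Agent.Y648.CS.W
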