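import Pool.Agent.Y648.CS.T_PTA
import Pool.Agent.Y648.CW.Stm

set_option autoImplicit false

/-!
# Scales of circuit ratios: the computation in polynomial time
-/

namespace Pool.Agent.Y648.CS.W

open Pool.Agent.NPC Pool.Agent.H558R2 Pool.Agent.H622R3.SM Pool.Agent.W920.FC
open TPTA TQQ TQD

variable {α : Type} [TEnc α]

/-- Repetition in polynomial time. -/
theorem pt_whl (hO : S_OUT) (hP : S_PT) (hI : S_PTITER) (hQ : Pool.Agent.W920.FD.S_QP)
    (h4 : S_PP4) {m n : α → ℕ} {drop : α → List Bool} {s : α → PS} (p : ℕ)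
    (hm : UPoly m) (hn : UPoly n) (hd : Poly drop) (hs : Poly s) :
    PT (fun a => whl (itr (m a) (n a) p (drop a)) (s a)) := by
  have b : Poly (fun q : α × List Outcome => q.1) := NPC.Poly.fst NPC.Poly.id
  have b2 : Poly (fun q : α × List Outcome => q.2) := NPC.Poly.snd NPC.Poly.id
  have h := pt_itrs (α := α × List Outcome) hO hP hI hQ h4 p (UPoly.comp (n := m) hm b)
    (UPoly.comp (n := n) hn b) (UPoly.add (UPoly.length b2) (UPoly.const 1)) (hd.comp b)
    (hs.comp b)
  unfold Pool.Agent.W920.FC.PT at h ⊢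
  have h2 := Poly.comp h (NPC.Poly.pair (NPC.Poly.id (α := α × List Outcome)) b2)
  exact h2

theorem pt_TBW (hO : S_OUT) (hP : S_PT) (hI : S_PTITER) (hQ : Pool.Agent.W920.FD.S_QP)
    (h4 : S_PP4) {m n : α → ℕ} {s : α → PS} (hm : UPoly m) (hn : UPoly n)
    (hs : Poly s) : PT (fun a => TBW (m a) (n a) (s a)) := by
  unfold TBW
  refine pt_ite (c := fun a => (s a).1 ≠ 2) (NPC.Poly.decide_not (NPC.Poly.dec_eq
    (NPC.Poly.fst hs) (NPC.Poly.const 2))) (hP.1 _ _ _ (NPC.Poly.const true)) ?_
  refine hP.2.1 α (List Outcome) Bool (fun a => batch (bQs (m a) (n a)))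
    (fun a o => if (List.range (m a)).all fun j => decide (o.getD j none ≠ some true) then
        ret true
      else
        bnd (batch [fxQ (m a) (n a) (t1 (m a) (n a) (bMax (m a) o))]) fun o' =>
          bnd (whl (itr (m a) (n a) 1 (dr1 (m a) (s a).2.2.2))
            (st1 (m a) (n a) (bMax (m a) o) (o'.getD 0 none) (s a).2.2.1 (s a).2.2.2)) fun s' =>
            ret (decide (s'.1 ≠ 1))) (hP.2.2 _ _ (pbQs hm hn)) ?_
  have b : Poly (fun q : α × List Outcome => q.1) := NPC.Poly.fst NPC.Poly.id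
  have b2 : Poly (fun q : α × List Outcome => q.2) := NPC.Poly.snd NPC.Poly.id
  refine pt_ite (c := fun q : α × List Outcome =>
    ((List.range (m q.1)).all fun j => decide (q.2.getD j none ≠ some true)) = true)
    (NPC.Poly.decide_bool ?_) (hP.1 _ _ _ (NPC.Poly.const true)) ?_
  · refine NPC.Poly.all (l := fun q : α × List Outcome => List.range (m q.1))
      (p := fun q j => decide (q.2.getD j none ≠ some true)) (hm.range.comp b) ?_
    exact NPC.Poly.decide_not (NPC.Poly.dec_eq (NPC.Poly.getD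
      (NPC.Poly.snd (NPC.Poly.fst NPC.Poly.id)) (NPC.Poly.snd NPC.Poly.id) (NPC.Poly.const none))
      (NPC.Poly.const _))
  · have hmb : UPoly (fun q : α × List Outcome => m q.1) := UPoly.comp (n := m) hm b
    have hnb : UPoly (fun q : α × List Outcome => n q.1) := UPoly.comp (n := n) hn b
    refine hP.2.1 (α × List Outcome) (List Outcome) Bool
      (fun q => batch [fxQ (m q.1) (n q.1) (t1 (m q.1) (n q.1) (bMax (m q.1) q.2))])
      (fun q o' => bnd (whl (itr (m q.1) (n q.1) 1 (dr1 (m q.1) (s q.1).2.2.2))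
            (st1 (m q.1) (n q.1) (bMax (m q.1) q.2) (o'.getD 0 none) (s q.1).2.2.1
              (s q.1).2.2.2)) fun s' => ret (decide (s'.1 ≠ 1)))
      (hP.2.2 _ _ (NPC.Poly.cons (pfxQ hmb hnb (pt1 hmb hnb (pbMax h4 hmb b2)))
        (NPC.Poly.const []))) ?_
    have c : Poly (fun q : (α × List Outcome) × List Outcome => q.1.1) :=
      NPC.Poly.fst (NPC.Poly.fst NPC.Poly.id)
    have c2 : Poly (fun q : (α × List Outcome) × List Outcome => q.1.2) :=
      NPC.Poly.snd (NPC.Poly.fst NPC.Poly.id)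
    have hmc : UPoly (fun q : (α × List Outcome) × List Outcome => m q.1.1) :=
      UPoly.comp (n := m) hm c
    have hnc : UPoly (fun q : (α × List Outcome) × List Outcome => n q.1.1) :=
      UPoly.comp (n := n) hn c
    have hWc : Poly (fun q : (α × List Outcome) × List Outcome => (s q.1.1).2.2.1) :=
      NPC.Poly.fst (NPC.Poly.snd (NPC.Poly.snd (hs.comp c)))
    have hBc : Poly (fun q : (α × List Outcome) × List Outcome => (s q.1.1).2.2.2) :=
      NPC.Poly.snd (NPC.Poly.snd (NPC.Poly.snd (hs.comp c)))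
    refine hP.2.1 ((α × List Outcome) × List Outcome) PS Bool
      (fun q => whl (itr (m q.1.1) (n q.1.1) 1 (dr1 (m q.1.1) (s q.1.1).2.2.2))
            (st1 (m q.1.1) (n q.1.1) (bMax (m q.1.1) q.1.2) (q.2.getD 0 none) (s q.1.1).2.2.1
              (s q.1.1).2.2.2)) (fun _ s' => ret (decide (s'.1 ≠ 1)))
      (pt_whl hO hP hI hQ h4 1 hmc hnc (pdr1 hmc hBc) (pst1 hmc hnc (pbMax h4 hmc c2)
        (NPC.Poly.getD (NPC.Poly.snd NPC.Poly.id) (NPC.Poly.const 0) (NPC.Poly.const _))
        hWc hBc)) ?_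
    exact hP.1 _ _ _ (NPC.Poly.decide_not (NPC.Poly.dec_eq
      (NPC.Poly.fst (NPC.Poly.snd NPC.Poly.id)) (NPC.Poly.const 1)))

/-- The computation in polynomial time. -/
theorem t_PTW : S_OUT → S_PT → S_PTITER → Pool.Agent.W920.FD.S_QP → S_PP4 → W.S_PTW := by
  intro hO hP hI hQ h4
  have hm : UPoly (fun a : List Unit × List Unit => a.1.length) :=
    UPoly.length (NPC.Poly.fst NPC.Poly.id)
  have hn : UPoly (fun a : List Unit × List Unit => a.2.length) :=
    UPoly.length (NPC.Poly.snd NPC.Poly.id)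
  unfold S_PTW TAW
  refine hP.2.1 (List Unit × List Unit) PS Bool
    (fun a => whl (itr a.1.length a.2.length 0 (dr0 a.1.length))
      (st0 a.1.length)) (fun a s => TBW a.1.length a.2.length s)
    ?_ ?_
  · refine pt_whl hO hP hI hQ h4 0 hm hn ?_ ?_
    · unfold dr0
      exact (NPC.Poly.map (F := fun _ _ => false) (UPoly.add hm hm).range
        (NPC.Poly.const false)).congr fun a => by simp
    · unfold st0
      refine NPC.Poly.pair (NPC.Poly.const 0) (NPC.Poly.pair (NPC.Poly.const _) (NPC.Poly.pair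
        ?_ (NPC.Poly.const [])))
      exact (NPC.Poly.map (F := fun _ _ => moOne) (UPoly.add hm hm).range
        (NPC.Poly.const _)).congr fun a => by simp
  · have b : Poly (fun q : (List Unit × List Unit) × PS => q.1) := NPC.Poly.fst NPC.Poly.id
    exact pt_TBW hO hP hI hQ h4 (UPoly.comp (n := fun a : List Unit × List Unit => a.1.length) hm b)
      (UPoly.comp (n := fun a : List Unit × List Unit => a.2.length) hn b)
      (NPC.Poly.snd NPC.Poly.id)

end Pool.Agent.Y648.CS.W
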