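import Pool.Agent.Y648.CS.T_REC
import Pool.Agent.Y648.CW.Stm

set_option autoImplicit false

/-!
# The search for the centre, with the bound `S`
-/

namespace Pool.Agent.Y648.CS.W

open Pool.Agent.NPC Pool.Agent.H558R2 Pool.Agent.H622R3.SM Pool.Agent.W920.FC

namespace TRECW

open TREC

theorem pS_le (pB : Polynomial ℕ) (m n S E : ℕ) (hS : m + n ≤ S) (hE : E ≤ pB.eval S) :
    E + cA m n + cR m n ≤ (pS pB).eval S ∧ 4 * cD m n ≤ (pS pB).eval S := by
  have h1 := (pD_le m n).trans (pe_mono pD hS)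
  have h2 := (pR_le m n).trans (pe_mono pR hS)
  have h3 : (pS pB).eval S = pB.eval S + (11 * pD.eval S + pR.eval S) := by
    unfold pS
    simp only [Polynomial.eval_add, Polynomial.eval_mul, Polynomial.eval_ofNat]
  have h4 : cA m n = 7 * cD m n := rfl
  omega

theorem RI_sz {m n p S : ℕ} (hS : m + n ≤ S) {g : Reg → ℝ} {drop : List Bool} {E : ℕ}
    {t : Mo} {W Ws : List Mo} (hI : Inv m n p g drop E t W) {j : ℕ} {pB : Polynomial ℕ}
    (hE : E ≤ pB.eval S)
    (h : RI m n p g drop E t (2 ^ cA m n * ∏ c ∈ Xc m drop, wf m n g t W c) j Ws) :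
    ∀ a ∈ Ws, MoSz ((pS pB).eval S) a ∧ MoOK m n g a := by
  intro a ha
  obtain ⟨c, hc, rfl⟩ := List.getElem_of_mem ha
  have hc' : c < m + m + 4 := by
    rw [← h.len]
    exact hc
  have e : Ws[c] = Ws.getD c moOne := by
    rw [List.getD_eq_getElem?_getD, List.getElem?_eq_getElem hc]
    rfl
  rw [e]
  obtain ⟨s1, s2, s3, s4⟩ := h.szA c hc'
  obtain ⟨p1, p2⟩ := TRECW.pS_le pB m n S E hS hE
  have hj := count hI h
  exact ⟨⟨by omega, by omega, by omega, by omega⟩, h.ok c hc'⟩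

end TRECW

open TREC in
/-- The search for the centre. -/
theorem t_REC : W.S_PEQ → S_PRM → S_PERM → S_MOV → W.S_REC := by
  intro hPEQ hPRM hPERM hM pB
  obtain ⟨q, hq⟩ := hPEQ (pS pB)
  obtain ⟨pT, hpT⟩ : ∃ pT : Polynomial ℕ, pT = 4 * (pD * (pD * pD)) := ⟨_, rfl⟩
  have hcT : ∀ m n : ℕ, cT (n + 3) (m + m + 4) ≤ pT.eval (m + n) := by
    intro m n
    have h := pD_le m n
    rw [hpT]
    simp only [Polynomial.eval_mul, Polynomial.eval_ofNat]
    have e : cT (n + 3) (m + m + 4) = 4 * (cD m n * (cD m n * cD m n)) := rfl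
    rw [e]
    gcongr
  refine ⟨q + (pS pB + pR * (pT * q)), ?_⟩
  intro m n p S g drop E t W hg hS hE hI
  have hcS : cT (n + 3) (m + m + 4) ≤ pT.eval S := (hcT m n).trans (pe_mono pT hS)
  have hst := st_all hPERM hM hI
  have hsym : ∀ Ws : List Mo, (GG m n p g drop (wV m n g Ws)).IsSymm ∧
      ∀ x : Fin (cD m n) → ℝ, (GG m n p g drop (wV m n g Ws)).mulVec x = 0 →
        ∀ j : Fin (cD m n), (drK m n drop).getD j false = true → x j = 0 := by
    intro Ws
    have h := TKERSTEP.ker_thm (n + 3) (m + m + 4) (gW m n p g (wV m n g Ws)) (fun _ => 1)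
      (drK m n drop)
    exact ⟨h.1, fun x hx j hj => ((h.2 x).1 hx).2 j hj⟩
  have hperm : ∀ Ws : List Mo, _ := fun Ws =>
    hPERM (cD m n) (GG m n p g drop (wV m n g Ws)) (tsK m n drop) (drK m n drop)
      (by have := cD_ge m n; omega) (hsym Ws).1 (hsym Ws).2
      (fun j hj hts => ts_dr m n drop j hj hts) (nd_len m n drop)
  -- one round
  have hround : ∀ i, Runs g (Gd q S g) (rnd m n p drop (sq m n p g drop t W i))
      (sq m n p g drop t W (i + 1)) (pT.eval S * q.eval S) := by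
    intro i
    have e : sq m n p g drop t W (i + 1) = nx m n p g drop (sq m n p g drop t W i) := rfl
    rw [e]
    rcases hst i with ⟨h1, h2⟩ | ⟨h1, -⟩
    · obtain ⟨s, hs⟩ : ∃ s, s = sq m n p g drop t W i := ⟨_, rfl⟩
      rw [← hs] at h1 h2 ⊢
      have hsz := TRECW.RI_sz hS hI hE h2
      have hstep : ∀ k < cT (n + 3) (m + m + 4), Runs g (Gd q S g)
          (bnd (batch (peQs m n p drop s.1.1
            (pSt (cD m n) (GG m n p g drop (wV m n g s.1.1)) (tsK m n drop) k).1))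
          fun o => ret (pUpd (cD m n) (tsK m n drop)
            (pSt (cD m n) (GG m n p g drop (wV m n g s.1.1)) (tsK m n drop) k) o))
          (pSt (cD m n) (GG m n p g drop (wV m n g s.1.1)) (tsK m n drop) (k + 1))
          (q.eval S) := by
        intro k hk
        obtain ⟨q1, q2⟩ := hq m n p S g drop s.1.1
          (pSt (cD m n) (GG m n p g drop (wV m n g s.1.1)) (tsK m n drop) k).1 hg hS hsz
          (fun l _ => ((hperm s.1.1).1 k l).trans hk.le)
        have q3 := runs_batch q1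
        have q4 := runs_bnd (f := fun o => ret (pUpd (cD m n) (tsK m n drop)
            (pSt (cD m n) (GG m n p g drop (wV m n g s.1.1)) (tsK m n drop) k) o)) q3
          (runs_ret (pSt (cD m n) (GG m n p g drop (wV m n g s.1.1)) (tsK m n drop) (k + 1)))
        exact t_TT.2.2.2 _ g _ _ _ _ _ _ (fun v hv => hv) (by simpa using q2) q4
      have hit := t_TT.2.2.1 (List ℕ × Bool) g (Gd q S g)
        (fun t' => bnd (batch (peQs m n p drop s.1.1 t'.1))
          fun o => ret (pUpd (cD m n) (tsK m n drop) t' o))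
        (pSt (cD m n) (GG m n p g drop (wV m n g s.1.1)) (tsK m n drop))
        (cT (n + 3) (m + m + 4)) (q.eval S) hstep
      have hfin : Runs g (Gd q S g) (rnd m n p drop s) (nx m n p g drop s)
          (cT (n + 3) (m + m + 4) * q.eval S + 0) := by
        unfold rnd nx
        rw [if_neg (by rw [h1]; decide), if_neg (by rw [h1]; decide)]
        refine runs_bnd hit ?_
        exact runs_ret _
      exact t_TT.2.2.2 _ g _ _ _ _ _ _ (fun v hv => hv)
        (by rw [add_zero]; exact Nat.mul_le_mul_right _ hcS) hfin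
    · obtain ⟨s, hs⟩ : ∃ s, s = sq m n p g drop t W i := ⟨_, rfl⟩
      rw [← hs] at h1 ⊢
      have hfin : Runs g (Gd q S g) (rnd m n p drop s) (nx m n p g drop s) 0 := by
        unfold rnd nx
        rw [if_pos h1, if_pos h1]
        exact runs_ret _
      exact t_TT.2.2.2 _ g _ _ _ _ _ _ (fun v hv => hv) (Nat.zero_le _) hfin
  have hall := t_TT.2.2.1 RS g (Gd q S g) (rnd m n p drop) (sq m n p g drop t W)
    (cR m n) (pT.eval S * q.eval S) (fun i _ => hround i)
  obtain ⟨s, hs⟩ : ∃ s, s = sq m n p g drop t W (cR m n) := ⟨_, rfl⟩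
  have hR : Runs g (Gd (q + (pS pB + pR * (pT * q))) S g) (recen m n p drop t W) s
      ((q + (pS pB + pR * (pT * q))).eval S) := by
    rw [hs]
    refine runs_mono (ple_add_left _ _) ?_ hall
    simp only [Polynomial.eval_add, Polynomial.eval_mul]
    have := Nat.mul_le_mul_right (pT.eval S * q.eval S) ((pR_le m n).trans (pe_mono pR hS))
    omega
  rcases hst (cR m n) with ⟨-, h2⟩ | ⟨h1, ⟨j, h2⟩, h3, h4⟩
  · exact absurd (count hI h2) (lt_irrefl _)
  rw [← hs] at h1 h2 h3 h4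
  obtain ⟨hp1, hp2, -⟩ := hperm s.1.1
  obtain ⟨z, z1, z2, z3⟩ := hp2 h4
  obtain ⟨x, x1, x2, x3⟩ := succ hI h2 z z1.1 z2 z3
  obtain ⟨z', z1', z2'⟩ := hPRM (cD m n) (GG m n p g drop (wV m n g s.1.1))
    (rp m n p g drop s.1.1).1 (hsym s.1.1).1
  have hzz : z = z' := pr_uniq (hsym s.1.1).1 z1 z1'
  have hj := count hI h2
  have hD := cD_eq m n
  have hOlt : cO m n + (m + m + 3) < cD m n := by omega
  refine ⟨s.1.1, (rp m n p g drop s.1.1).1, x, ?_, h2.len, ?_, ?_, ?_, x1, ?_, x3⟩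
  · have e : ((s.1.1, (rp m n p g drop s.1.1).1), true) = s := by
      rw [← h3, ← h1]
    rw [e]
    exact hR
  · intro c hc
    obtain ⟨s1, s2, s3, s4⟩ := h2.szW c hc
    exact ⟨⟨by omega, by omega, s3, s4⟩, h2.ok c (by omega), h2.pos c (by omega)⟩
  · intro a ha
    obtain ⟨⟨s1, s2, s3, s4⟩, h6⟩ := TRECW.RI_sz hS hI hE h2 a ha
    have h7 : (pS pB).eval S ≤ (q + (pS pB + pR * (pT * q))).eval S := by
      simp only [Polynomial.eval_add]
      omega
    exact ⟨⟨s1.trans h7, s2.trans h7, s3.trans h7, s4.trans h7⟩, h6⟩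
  · intro l _
    exact hp1 _ l
  · have h6 := (z2' ⟨cO m n + (m + m + 3), hOlt⟩).2.1
    rw [← hzz] at h6
    exact h6.trans (x2 hOlt)

end Pool.Agent.Y648.CS.W
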