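import Pool.Agent.W920.FD.All
import Pool.Agent.Y648.CS.T_TUP
import Pool.Agent.Y648.CS.T_DET
import Pool.Agent.Y648.CS.T_REL
import Pool.Agent.Y648.CS.T_PERM
import Pool.Agent.Y648.CS.T_QQ
import Pool.Agent.Y648.CS.T_QD
import Pool.Agent.Y648.CS.T_GRD
import Pool.Agent.Y648.CS.T_GRV
import Pool.Agent.Y648.CS.T_LSP
import Pool.Agent.Y648.CS.T_LAB
import Pool.Agent.Y648.CS.T_BEG
import Pool.Agent.Y721.CS.T_JUMP
import Pool.Agent.Y721.CS.T_FST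
import Pool.Agent.Y721.CS.T_CNT
import Pool.Agent.Y648.CW.T_PR
import Pool.Agent.Y648.CW.T_PEQ
import Pool.Agent.Y648.CW.T_REC
import Pool.Agent.Y648.CW.T_BAS
import Pool.Agent.Y648.CW.T_FIN
import Pool.Agent.Y648.CW.T_ITR
import Pool.Agent.Y648.CW.T_PHS
import Pool.Agent.Y648.CW.T_CUTC
import Pool.Agent.Y648.CW.T_SC
import Pool.Agent.Y648.CW.T_PTW
import Pool.Agent.Y648.CW.T_MAIN

set_option autoImplicit false

/-! # Scales of circuit ratios: all parts together -/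

namespace Pool.Agent.Y648.CS.W

open Pool.Agent.W920.FC

/-- The parts which do not depend on the scales. -/
theorem parts : W.S_CMPQ ∧ W.S_PR ∧ W.S_PHS ∧ W.S_PTW ∧ S_CTRL := by
  obtain ⟨hOUT, hCTRL⟩ := t_OUT
  obtain ⟨hPP3, hPP4⟩ := t_PP34
  have hA := t_ORD2A t_ORD1
  have hORD2 : Pool.Agent.W920.FC.S_ORD2 := ⟨hA.1, t_ORD2B t_ORD1, hA.2⟩
  have hEQR := Pool.Agent.W920.FD.t_EQR Pool.Agent.W920.FD.t_FORM
  have hSZ1 := Pool.Agent.W920.FD.t_SZ1 Pool.Agent.W920.FD.t_FORM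
  have hLEN := Pool.Agent.W920.FD.t_LEN Pool.Agent.W920.FD.t_FORM
  have hHVP := Pool.Agent.W920.FD.t_HVP t_ORD1 hORD2 Pool.Agent.W920.FD.t_FORD hEQR
    Pool.Agent.W920.FD.t_EQM hSZ1 Pool.Agent.W920.FD.t_SZ2 Pool.Agent.W920.FD.t_SZ3
    Pool.Agent.W920.FD.t_SZ4 hLEN
  have hQP := Pool.Agent.W920.FD.t_QP Pool.Agent.W920.FD.t_QF
  have hCMB := t_CMB t_TUP
  have hPR := W.t_PR t_TUP t_TWO t_DET
  have hCMPQ := W.t_CMPQ hCMB hPR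
  have hMOQ := W.t_MOQ hCMB hPR
  have hPRE := W.t_PRE t_TUP t_TWO hMOQ
  have hALLQ := t_ALLQ hHVP hCMB t_TWO
  have hPEQ := W.t_PEQ hPRE t_REL hALLQ
  have hPERM := t_PERM t_PRM
  have hREC := W.t_REC hPEQ t_PRM hPERM t_MOV
  have hBAS := W.t_BAS hPR hCMPQ t_MOV t_LSP
  have hGRA := W.t_GRA hPR hCMPQ t_MOV t_LSP t_GRD
  have hLAB := t_LAB t_GRD t_MOV t_LSP
  have hFIN := W.t_FIN t_LSP t_MOV hCMPQ hPR t_GRD Pool.Agent.Y721.CS.t_COMP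
    Pool.Agent.Y721.CS.t_JUMP (Pool.Agent.Y721.CS.t_TERM Pool.Agent.Y721.CS.t_JUMP)
  have hITR := W.t_ITR hREC hPEQ hBAS hGRA hLAB hFIN
  exact ⟨hCMPQ, hPR, W.t_PHS hITR, W.t_PTW hOUT t_PT t_PTITER hQP hPP4, hCTRL⟩

theorem main : W.S_MAIN := by
  obtain ⟨hCMPQ, hPR, hPHS, hPTW, hCTRL⟩ := parts
  have hGRV := t_GRV t_GRD
  have hFST := Pool.Agent.Y721.CS.t_FST Pool.Agent.Y721.CS.t_DECO
  have hCUTC := W.t_CUTC t_LSP t_GRD hGRV hFST Pool.Agent.Y721.CS.t_CNT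
  exact W.t_MAIN t_RUN hCTRL t_BITS hPTW hPHS (t_BEG0 t_MOV) (t_BEG1 t_MOV) W.t_SC t_MOV
    hCMPQ hPR hCUTC

end Pool.Agent.Y648.CS.W
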