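import Pool.Agent.Y648.CW.Stm

set_option autoImplicit false

/-!
# Scales of circuit ratios: matrices whose minors are small combinations of few reals
-/

namespace Pool.Agent.Y648.CS.W

/-- Up to nonzero factors of the rows and an invertible matrix on the right, `A` is a matrix `B`
whose minors of order the rank of `B` are integer combinations, with coefficients at most `2 ^ s`,
of `N` real numbers. -/
def MinSpan (N s : ℕ) {m n : ℕ} (A : Matrix (Fin m) (Fin n) ℝ) : Prop :=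
  ∃ (ρ : Fin m → ℝ) (B : Matrix (Fin m) (Fin n) ℝ) (G : Matrix (Fin n) (Fin n) ℝ)
    (w : Fin N → ℝ), (∀ i, ρ i ≠ 0) ∧ G.det ≠ 0 ∧ (∀ i j, ρ i * A i j = (B * G) i j) ∧
    ∀ (f : Fin B.rank → Fin m) (h : Fin B.rank → Fin n), ∃ y : Fin N → ℤ,
      (∀ l, |y l| ≤ 2 ^ s) ∧ (B.submatrix f h).det = ∑ l, y l * w l

/-- Such matrices have few scales. -/
def S_SPAN : Prop := ∃ q : Polynomial ℕ, ∀ (m n N s : ℕ) (A : Matrix (Fin m) (Fin n) ℝ),
  MinSpan N s A → Scales (q.eval (m + n + N + s)) A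

/-- Matrices of polynomial growth (as in the starting result `PolynomialGrowth`). -/
def Growth (k m n : ℕ) (A : Matrix (Fin m) (Fin n) ℝ) : Prop :=
  ∃ (R : Finset (Fin m)) (C : Finset (Fin n)) (ρ : Fin m → ℝ) (γ : Fin n → ℝ)
    (w : Fin ((m + n) ^ k) → ℝ), R.card ≤ k ∧ C.card ≤ k ∧ (∀ i, ρ i ≠ 0) ∧ (∀ j, γ j ≠ 0) ∧
    ∀ l : List (Fin m × Fin n), l.length ≤ (m + n) ^ 6 → (∀ p ∈ l, p.1 ∉ R ∧ p.2 ∉ C) →
      ∃ y : Fin ((m + n) ^ k) → ℤ, (∀ r, |y r| ≤ 2 ^ ((m + n) ^ k)) ∧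
        (l.map fun p => ρ p.1 * A p.1 p.2 * γ p.2).prod = ∑ r, y r * w r

/-- They have minors which are small combinations of few reals. -/
def S_GROW : Prop := ∀ k : ℕ, ∃ q : Polynomial ℕ, ∀ (m n : ℕ) (A : Matrix (Fin m) (Fin n) ℝ),
  1 ≤ m → 1 ≤ n → Growth k m n A → MinSpan (q.eval (m + n)) (q.eval (m + n)) A

/-- The integer polynomial `p` in `k` variables has degree at most `s` in each variable, and its
coefficients have absolute value at most `2 ^ s`. -/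
def Small {k : ℕ} (s : ℕ) (p : MvPolynomial (Fin k) ℤ) : Prop :=
  (∀ r, p.degreeOf r ≤ s) ∧ ∀ e, |p.coeff e| ≤ 2 ^ s

/-- For `k` numbers `θ` and small integer polynomials `Q` and `P i j` with `Q(θ) ≠ 0`, the matrix
`Q(θ) A - P(θ)` has rank at most `k` (as in the starting result `PolynomialsPlusLowRank`, but the
numbers `θ` are arbitrary). -/
def Near (k m n : ℕ) (A : Matrix (Fin m) (Fin n) ℝ) : Prop :=
  ∃ (θ : Fin k → ℝ) (Q : MvPolynomial (Fin k) ℤ)
    (P : Matrix (Fin m) (Fin n) (MvPolynomial (Fin k) ℤ)),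
    Small ((m + n) ^ k) Q ∧ (∀ i j, Small ((m + n) ^ k) (P i j)) ∧
    MvPolynomial.aeval θ Q ≠ 0 ∧
    (Matrix.of fun i j => MvPolynomial.aeval θ Q * A i j - MvPolynomial.aeval θ (P i j)).rank ≤ k

/-- They have minors which are small combinations of few reals. -/
def S_NEAR : Prop := ∀ k : ℕ, ∃ q : Polynomial ℕ, ∀ (m n : ℕ) (A : Matrix (Fin m) (Fin n) ℝ),
  1 ≤ m → 1 ≤ n → Near k m n A → MinSpan (q.eval (m + n)) (q.eval (m + n)) A

end Pool.Agent.Y648.CS.W
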