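import Pool.Agent.Y648.CW.StmC
import Pool.Agent.Y496.CW.Sp

set_option autoImplicit false

/-!
# Matrices of polynomial growth have minors which are small combinations of few reals
-/

namespace Pool.Agent.Y648.CS.W

open Finset Pool.Agent.Y496.CW

theorem t_GROW : S_GROW := by
  intro k
  refine ⟨(Polynomial.X ^ 2 + 1) ^ (2 * k) * Polynomial.X ^ k + (Polynomial.X ^ 2 + Polynomial.X ^ k), ?_⟩
  intro m n A hm hn hG
  obtain ⟨R, C, ρ, γ, w, hR, hC, hρ, hγ, hw⟩ := hG
  classical
  set Q : ℕ := Polynomial.eval (m + n)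
    ((Polynomial.X ^ 2 + 1) ^ (2 * k) * Polynomial.X ^ k + (Polynomial.X ^ 2 + Polynomial.X ^ k) :
      Polynomial ℕ) with hQ
  have hQe : Q = ((m + n) ^ 2 + 1) ^ (2 * k) * (m + n) ^ k + ((m + n) ^ 2 + (m + n) ^ k) := by
    rw [hQ]
    simp
  set B : Matrix (Fin m) (Fin n) ℝ := Matrix.of fun i j => ρ i * A i j * γ j with hB
  set W : (Fin (2 * k) → Option (Fin m × Fin n)) × Fin ((m + n) ^ k) → ℝ :=
    fun p => (∏ a, (p.1 a).elim 1 (fun x => B x.1 x.2)) * w p.2 with hW
  have hcard : Fintype.card ((Fin (2 * k) → Option (Fin m × Fin n)) × Fin ((m + n) ^ k)) ≤ Q := by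
    rw [Fintype.card_prod, Fintype.card_fun, Fintype.card_option, Fintype.card_prod, Fintype.card_fin,
      Fintype.card_fin, Fintype.card_fin, Fintype.card_fin, hQe]
    have h1 : m * n + 1 ≤ (m + n) ^ 2 + 1 := by nlinarith
    have h2 := Nat.mul_le_mul_right ((m + n) ^ k) (Nat.pow_le_pow_left h1 (2 * k))
    omega
  obtain ⟨w', hw'⟩ := LC.fin (W := W) hcard
  refine ⟨ρ, B, Matrix.diagonal fun j => (γ j)⁻¹, w', hρ, ?_, ?_, ?_⟩
  · rw [Matrix.det_diagonal]
    exact prod_ne_zero_iff.2 fun j _ => inv_ne_zero (hγ j)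
  · intro i j
    rw [Matrix.mul_diagonal, hB, Matrix.of_apply]
    have := hγ j
    field_simp
  · intro f h
    suffices hs : LC W (2 ^ Q) (B.submatrix f h).det from hw' _ _ (by positivity) hs
    have hrm : B.rank ≤ m + n := (Matrix.rank_le_height B).trans (Nat.le_add_right _ _)
    by_cases hf : Function.Injective f
    swap
    · obtain ⟨i, i', hii, hne⟩ : ∃ i i', f i = f i' ∧ i ≠ i' := by
        by_contra hcon
        push Not at hcon
        exact hf fun i i' hi => hcon i i' hi
      rw [Matrix.det_zero_of_row_eq hne (by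
        funext j
        simp [Matrix.submatrix_apply, hii])]
      exact LC.zero _ (by positivity)
    by_cases hh : Function.Injective h
    swap
    · obtain ⟨i, i', hii, hne⟩ : ∃ i i', h i = h i' ∧ i ≠ i' := by
        by_contra hcon
        push Not at hcon
        exact hh fun i i' hi => hcon i i' hi
      rw [Matrix.det_zero_of_column_eq hne (by
        intro j
        simp [Matrix.submatrix_apply, hii])]
      exact LC.zero _ (by positivity)
    rw [Matrix.det_apply']
    have hterm : ∀ σ ∈ (univ : Finset (Equiv.Perm (Fin B.rank))),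
        LC W (2 ^ ((m + n) ^ k)) (((Equiv.Perm.sign σ : ℤˣ) : ℤ) * ∏ i, (B.submatrix f h) (σ i) i) := by
      intro σ _
      refine LC.unit _ ?_
      have hsplit : ∏ i, (B.submatrix f h) (σ i) i =
          (∏ i ∈ univ.filter (fun i => f (σ i) ∈ R ∨ h i ∈ C), B (f (σ i)) (h i)) *
          ∏ i ∈ univ.filter (fun i => ¬ (f (σ i) ∈ R ∨ h i ∈ C)), B (f (σ i)) (h i) := by
        rw [prod_filter_mul_prod_filter_not]
        rfl
      rw [hsplit]
      -- the exceptional factors
      obtain ⟨ψ, hψ⟩ := enum_prod (2 * k) (univ.filter (fun i => f (σ i) ∈ R ∨ h i ∈ C)) (by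
        rw [filter_or]
        refine (card_union_le _ _).trans ?_
        have h1 : (univ.filter fun i => f (σ i) ∈ R).card ≤ R.card := by
          refine card_le_card_of_injOn (fun i => f (σ i)) (fun i hi => ?_) ?_
          · exact (mem_filter.1 hi).2
          · exact fun i _ i' _ hi => σ.injective (hf hi)
        have h2 : (univ.filter fun i => h i ∈ C).card ≤ C.card := by
          refine card_le_card_of_injOn h (fun i hi => ?_) ?_
          · exact (mem_filter.1 hi).2
          · exact fun i _ i' _ hi => hh hi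
        omega) (fun i => (f (σ i), h i)) (fun x : Fin m × Fin n => B x.1 x.2)
      rw [hψ]
      -- the regular factors
      set l : List (Fin m × Fin n) :=
        (univ.filter (fun i => ¬ (f (σ i) ∈ R ∨ h i ∈ C))).toList.map fun i => (f (σ i), h i) with hl
      have hlen : l.length ≤ (m + n) ^ 6 := by
        rw [hl, List.length_map, length_toList]
        calc (univ.filter (fun i => ¬ (f (σ i) ∈ R ∨ h i ∈ C))).card ≤ (univ : Finset (Fin B.rank)).card :=
              card_filter_le _ _
          _ = B.rank := by simp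
          _ ≤ m + n := hrm
          _ ≤ (m + n) ^ 6 := Nat.le_self_pow (by norm_num) _
      obtain ⟨y, hy, e⟩ := hw l hlen (by
        intro p hp
        rw [hl, List.mem_map] at hp
        obtain ⟨i, hi, rfl⟩ := hp
        rw [mem_toList, mem_filter] at hi
        exact ⟨fun h1 => hi.2 (Or.inl h1), fun h1 => hi.2 (Or.inr h1)⟩)
      have e2 : ∏ i ∈ univ.filter (fun i => ¬ (f (σ i) ∈ R ∨ h i ∈ C)), B (f (σ i)) (h i) =
          (l.map fun p => ρ p.1 * A p.1 p.2 * γ p.2).prod := by
        rw [hl, List.map_map, ← prod_map_toList]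
        rfl
      rw [e2]
      exact LC.prod (w := w) (fun ψ : Fin (2 * k) → Option (Fin m × Fin n) =>
        ∏ a, (ψ a).elim 1 (fun x => B x.1 x.2)) ψ (by positivity) ⟨y, hy, e⟩
    have h1 := LC.sum univ hterm
    refine h1.mono ?_
    rw [card_univ, Fintype.card_perm, Fintype.card_fin]
    have h2 := fact_le B.rank (m + n) hrm
    have h3 : B.rank.factorial * 2 ^ ((m + n) ^ k) ≤ 2 ^ Q := by
      calc B.rank.factorial * 2 ^ ((m + n) ^ k) ≤ 2 ^ ((m + n) ^ 2) * 2 ^ ((m + n) ^ k) :=
            Nat.mul_le_mul_right _ h2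
        _ = 2 ^ ((m + n) ^ 2 + (m + n) ^ k) := by rw [pow_add]
        _ ≤ 2 ^ Q := Nat.pow_le_pow_right (by norm_num) (by rw [hQe]; omega)
    exact_mod_cast h3

end Pool.Agent.Y648.CS.W
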