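import Pool.Agent.Y648.CW.StmC
import Pool.Agent.Y496.CW.Mv

set_option autoImplicit false

/-!
# Matrices near small polynomial matrices have minors which are small combinations of few reals
-/

namespace Pool.Agent.Y648.CS.W

open Finset Pool.Agent.Y496.CW

theorem t_NEAR : S_NEAR := by
  intro k
  refine ⟨(Polynomial.X ^ 2 + 1) ^ k * (Polynomial.X ^ (k + 1) + 1) ^ k +
    (Polynomial.X ^ 2 + (Polynomial.C k * Polynomial.X +
      Polynomial.C (k + 1) * Polynomial.X ^ (k + 1))), ?_⟩
  intro m n A hm hn hG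
  obtain ⟨θ, q, P, hq, hP, hq0, hrk⟩ := hG
  classical
  set x : ℕ := m + n with hx
  set Q : ℕ := Polynomial.eval x ((Polynomial.X ^ 2 + 1) ^ k * (Polynomial.X ^ (k + 1) + 1) ^ k +
    (Polynomial.X ^ 2 + (Polynomial.C k * Polynomial.X +
      Polynomial.C (k + 1) * Polynomial.X ^ (k + 1))) : Polynomial ℕ) with hQ
  have hQe : Q = (x ^ 2 + 1) ^ k * (x ^ (k + 1) + 1) ^ k + (x ^ 2 + (k * x + (k + 1) * x ^ (k + 1))) := by
    rw [hQ]
    simp
  set a : ℝ := MvPolynomial.aeval θ q with ha
  set B : Matrix (Fin m) (Fin n) ℝ := a • A with hB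
  obtain ⟨U, V, hUV⟩ := rank_fac _ hrk
  -- the entries of B
  set Tm : Option (Fin k) → Fin m → Fin n → ℝ := fun o i j =>
    o.elim (MvPolynomial.aeval θ (P i j)) (fun c => U i c * V c j) with hTm
  have hBT : ∀ i j, B i j = ∑ o, Tm o i j := by
    intro i j
    have h1 := hUV i j
    rw [Matrix.of_apply] at h1
    rw [Fintype.sum_option, hB, Matrix.smul_apply, smul_eq_mul]
    simp only [hTm, Option.elim]
    rw [← h1]
    ring
  set W : (Fin k → Option (Fin m × Fin n)) × (Fin k → Fin (x ^ (k + 1) + 1)) → ℝ :=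
    fun p => (∏ c, (p.1 c).elim 1 (fun y => U y.1 c * V c y.2)) * ∏ v, θ v ^ (p.2 v : ℕ) with hW
  have hcard : Fintype.card ((Fin k → Option (Fin m × Fin n)) × (Fin k → Fin (x ^ (k + 1) + 1))) ≤ Q := by
    rw [Fintype.card_prod, Fintype.card_fun, Fintype.card_fun, Fintype.card_option, Fintype.card_prod,
      Fintype.card_fin, Fintype.card_fin, Fintype.card_fin, Fintype.card_fin, hQe]
    have h1 : m * n + 1 ≤ x ^ 2 + 1 := by rw [hx]; nlinarith
    have h2 := Nat.mul_le_mul_right ((x ^ (k + 1) + 1) ^ k) (Nat.pow_le_pow_left h1 k)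
    omega
  obtain ⟨w', hw'⟩ := LC.fin (W := W) hcard
  refine ⟨fun _ => 1, B, a⁻¹ • (1 : Matrix (Fin n) (Fin n) ℝ), w', fun _ => one_ne_zero, ?_, ?_, ?_⟩
  · rw [Matrix.det_smul, Matrix.det_one, mul_one]
    exact pow_ne_zero _ (inv_ne_zero hq0)
  · intro i j
    rw [Matrix.mul_smul, Matrix.mul_one, hB, smul_smul, inv_mul_cancel₀ hq0, one_smul, one_mul]
  · intro f h
    suffices hs : LC W (2 ^ Q) (B.submatrix f h).det from hw' _ _ (by positivity) hs
    have hrm : B.rank ≤ x := (Matrix.rank_le_height B).trans (Nat.le_add_right _ _)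
    -- expansion
    have hexp : (B.submatrix f h).det = ∑ φ : Fin B.rank → Option (Fin k),
        (Matrix.of fun y i => Tm (φ i) (f y) (h i)).det := by
      rw [Matrix.det_apply']
      have h1 : ∀ σ : Equiv.Perm (Fin B.rank), ∏ i, (B.submatrix f h) (σ i) i =
          ∑ φ : Fin B.rank → Option (Fin k), ∏ i, Tm (φ i) (f (σ i)) (h i) := by
        intro σ
        have h2 := Finset.prod_univ_sum (fun _ : Fin B.rank => (univ : Finset (Option (Fin k))))
          (fun i o => Tm o (f (σ i)) (h i))
        rw [Fintype.piFinset_univ] at h2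
        rw [← h2]
        refine prod_congr rfl fun i _ => ?_
        rw [Matrix.submatrix_apply, hBT]
      rw [sum_congr rfl fun σ _ => by rw [h1 σ, mul_sum], sum_comm]
      refine sum_congr rfl fun φ _ => ?_
      rw [Matrix.det_apply']
      rfl
    rw [hexp]
    have hterm : ∀ φ ∈ (univ : Finset (Fin B.rank → Option (Fin k))),
        LC W (2 ^ (x ^ 2) * 2 ^ ((k + 1) * x ^ (k + 1)))
          (Matrix.of fun y i => Tm (φ i) (f y) (h i)).det := by
      intro φ _
      by_cases hφ : ∀ i i' c, φ i = some c → φ i' = some c → i = i'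
      swap
      · push Not at hφ
        obtain ⟨i, i', c, h1, h2, hne⟩ := hφ
        have h3 : (Matrix.of fun y i => Tm (φ i) (f y) (h i)).det =
            (∏ i, (φ i).elim 1 (fun c => V c (h i))) * (Matrix.of fun (y i : Fin B.rank) =>
              (φ i).elim (MvPolynomial.aeval θ (P (f y) (h i))) (fun c => U (f y) c)).det := by
          rw [← Matrix.det_mul_row]
          congr 1
          ext y i
          simp only [Matrix.of_apply, hTm]
          rcases φ i with _ | c
          · simp
          · simp [mul_comm]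
        rw [h3, Matrix.det_zero_of_column_eq hne (by
          intro y
          simp [Matrix.of_apply, h1, h2]), mul_zero]
        exact LC.zero _ (by positivity)
      rw [Matrix.det_apply']
      have hσ : ∀ σ ∈ (univ : Finset (Equiv.Perm (Fin B.rank))),
          LC W (2 ^ ((k + 1) * x ^ (k + 1))) (((Equiv.Perm.sign σ : ℤˣ) : ℤ) *
            ∏ i, (Matrix.of fun y i => Tm (φ i) (f y) (h i)) (σ i) i) := by
        intro σ _
        refine LC.unit _ ?_
        have hsplit : ∏ i, (Matrix.of fun y i => Tm (φ i) (f y) (h i)) (σ i) i =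
            (∏ i, (φ i).elim 1 (fun c => U (f (σ i)) c * V c (h i))) *
              MvPolynomial.aeval θ (∏ i, (φ i).elim (P (f (σ i)) (h i)) (fun _ => 1)) := by
          rw [map_prod, ← prod_mul_distrib]
          refine prod_congr rfl fun i _ => ?_
          simp only [Matrix.of_apply, hTm]
          rcases φ i with _ | c
          · simp
          · simp
        obtain ⟨ψ, hψ⟩ := enum_lab φ hφ (fun i => (f (σ i), h i))
          (fun c (y : Fin m × Fin n) => U y.1 c * V c y.2)
        rw [hsplit, hψ]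
        have hs1 : (1 : ℤ) ≤ 2 ^ (x ^ k) := one_le_pow₀ (by norm_num)
        obtain ⟨hd, hc⟩ := prod_bd (s := x ^ k) (c := 2 ^ (x ^ k)) hs1
          (fun i => (φ i).elim (P (f (σ i)) (h i)) (fun _ => 1)) (by
            intro i r
            rcases φ i with _ | c
            · exact (hP _ _).1 r
            · simp [MvPolynomial.degreeOf_one]) (by
            intro i e
            rcases φ i with _ | c
            · exact (hP _ _).2 e
            · simp only [Option.elim, MvPolynomial.coeff_one]
              split_ifs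
              · simpa using hs1
              · simp) univ
        rw [card_univ, Fintype.card_fin] at hd hc
        have hbd : (((x ^ k : ℕ) : ℤ) + 1) ^ k * 2 ^ (x ^ k) ≤ 2 ^ ((k + 1) * x ^ k) := by
          have h1 : x ^ k + 1 ≤ 2 ^ (x ^ k) := Nat.lt_two_pow_self
          have h2 : (x ^ k + 1) ^ k * 2 ^ (x ^ k) ≤ 2 ^ ((k + 1) * x ^ k) := by
            calc (x ^ k + 1) ^ k * 2 ^ (x ^ k) ≤ (2 ^ (x ^ k)) ^ k * 2 ^ (x ^ k) :=
                  Nat.mul_le_mul_right _ (Nat.pow_le_pow_left h1 k)
              _ = 2 ^ ((k + 1) * x ^ k) := by rw [← pow_mul, ← pow_add]; congr 1; ring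
          exact_mod_cast h2
        have hc' : ∀ e, |(∏ i, (φ i).elim (P (f (σ i)) (h i)) (fun _ => 1)).coeff e| ≤
            2 ^ ((k + 1) * x ^ (k + 1)) := by
          intro e
          refine (hc e).trans ?_
          calc ((((x ^ k : ℕ) : ℤ) + 1) ^ k * 2 ^ (x ^ k)) ^ B.rank ≤ (2 ^ ((k + 1) * x ^ k)) ^ B.rank :=
                pow_le_pow_left₀ (by positivity) hbd _
            _ = 2 ^ ((k + 1) * x ^ k * B.rank) := by rw [← pow_mul]
            _ ≤ 2 ^ ((k + 1) * x ^ (k + 1)) := by
              refine pow_le_pow_right₀ (by norm_num) ?_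
              calc (k + 1) * x ^ k * B.rank ≤ (k + 1) * x ^ k * x := Nat.mul_le_mul_left _ hrm
                _ = _ := by ring
        have hd' : ∀ r, (∏ i, (φ i).elim (P (f (σ i)) (h i)) (fun _ => 1)).degreeOf r ≤ x ^ (k + 1) := by
          intro r
          refine (hd r).trans ?_
          calc B.rank * x ^ k ≤ x * x ^ k := Nat.mul_le_mul_right _ hrm
            _ = _ := by ring
        exact LC.prod (fun ψ : Fin k → Option (Fin m × Fin n) =>
          ∏ c, (ψ c).elim 1 (fun y => U y.1 c * V c y.2)) ψ (by positivity) (LC.aeval θ _ hd' hc')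
      refine (LC.sum univ hσ).mono ?_
      rw [card_univ, Fintype.card_perm, Fintype.card_fin]
      refine mul_le_mul_of_nonneg_right ?_ (by positivity)
      exact_mod_cast fact_le B.rank x hrm
    refine (LC.sum univ hterm).mono ?_
    rw [card_univ, Fintype.card_fun, Fintype.card_option, Fintype.card_fin, Fintype.card_fin]
    have h3 : (k + 1) ^ B.rank * (2 ^ (x ^ 2) * 2 ^ ((k + 1) * x ^ (k + 1))) ≤ 2 ^ Q := by
      have h4 : (k + 1) ^ B.rank ≤ 2 ^ (k * x) := by
        calc (k + 1) ^ B.rank ≤ (2 ^ k) ^ B.rank := Nat.pow_le_pow_left Nat.lt_two_pow_self _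
          _ = 2 ^ (k * B.rank) := by rw [pow_mul]
          _ ≤ 2 ^ (k * x) := Nat.pow_le_pow_right (by norm_num) (Nat.mul_le_mul_left _ hrm)
      calc (k + 1) ^ B.rank * (2 ^ (x ^ 2) * 2 ^ ((k + 1) * x ^ (k + 1)))
          ≤ 2 ^ (k * x) * (2 ^ (x ^ 2) * 2 ^ ((k + 1) * x ^ (k + 1))) := Nat.mul_le_mul_right _ h4
        _ = 2 ^ (x ^ 2 + (k * x + (k + 1) * x ^ (k + 1))) := by
          rw [← pow_add, ← pow_add]; congr 1; ring
        _ ≤ 2 ^ Q := Nat.pow_le_pow_right (by norm_num) (by rw [hQe]; exact Nat.le_add_left _ _)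
    exact_mod_cast h3

end Pool.Agent.Y648.CS.W
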