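import Pool.Agent.Y648.CW.StmC

/-!
# Matrices whose minors are small combinations of few reals have few scales
-/

set_option autoImplicit false
set_option linter.all false

namespace Pool.Agent.Y648.CS.W

namespace TSPAN

/-! ### Circuits and minors -/

section

variable {m n : ℕ}

theorem circ_scale {A B : Matrix (Fin m) (Fin n) ℝ} {G : Matrix (Fin n) (Fin n) ℝ}
    {ρ : Fin m → ℝ} (hρ : ∀ i, ρ i ≠ 0) (hG : G.det ≠ 0)
    (hAB : ∀ i j, ρ i * A i j = (B * G) i j) {C : Fin m → ℝ} (hC : Circ A C) :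
    Circ B (fun i => C i / ρ i) := by
  have key : ∀ D : Fin m → ℝ, A.vecMul D = 0 ↔ B.vecMul (fun i => D i / ρ i) = 0 := by
    intro D
    have h1 : A.vecMul D = G.vecMul (B.vecMul fun i => D i / ρ i) := by
      rw [Matrix.vecMul_vecMul]
      funext j
      simp only [Matrix.vecMul, dotProduct]
      refine Finset.sum_congr rfl fun i _ => ?_
      rw [← hAB i j]
      have := hρ i
      field_simp
    rw [h1]
    constructor
    · exact fun h => Matrix.eq_zero_of_vecMul_eq_zero hG h
    · intro h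
      rw [h, Matrix.zero_vecMul]
  refine ⟨?_, (key C).1 hC.2.1, ?_⟩
  · intro h
    apply hC.1
    funext i
    have h1 := congrFun h i
    have h2 : C i / ρ i = 0 := h1
    rw [div_eq_zero_iff] at h2
    exact h2.resolve_right (hρ i)
  · intro D hD hs
    have h1 : A.vecMul (fun i => D i * ρ i) = 0 := by
      rw [key]
      have h2 : (fun i => D i * ρ i / ρ i) = D := by
        funext i
        exact mul_div_cancel_right₀ _ (hρ i)
      rw [h2]
      exact hD
    obtain ⟨l, hl⟩ := hC.2.2 _ h1 (by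
      intro i hi
      show D i * ρ i = 0
      rw [hs i (by show C i / ρ i = 0; rw [hi, zero_div]), zero_mul])
    refine ⟨l, ?_⟩
    funext i
    have h2 : D i * ρ i = l * C i := congrFun hl i
    show D i = l * (C i / ρ i)
    rw [← mul_div_assoc, ← h2, mul_div_cancel_right₀ _ (hρ i)]

/-- A choice of columns. -/
theorem exists_cols {r : ℕ} (M : Matrix (Fin r) (Fin n) ℝ) (h : LinearIndependent ℝ M.row) :
    ∃ c : Fin r → Fin n, (M.submatrix id c).det ≠ 0 := by
  classical
  have hrank : M.rank = r := by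
    rw [h.rank_matrix, Fintype.card_fin]
  rw [M.rank_eq_finrank_span_cols] at hrank
  obtain ⟨κ', a, ha, hspan, hli⟩ := exists_linearIndependent' ℝ M.col
  have hfin : Finite κ' := hli.finite
  have : Fintype κ' := Fintype.ofFinite κ'
  have hcard : Fintype.card κ' = r := by
    rw [linearIndependent_iff_card_eq_finrank_span.1 hli, Set.finrank, hspan, hrank]
  obtain ⟨e⟩ : Nonempty (Fin r ≃ κ') := by
    rw [← Fintype.card_eq, Fintype.card_fin, hcard]
  refine ⟨fun j => a (e j), ?_⟩
  have h2 : (M.submatrix id fun j => a (e j)).col = (M.col ∘ a) ∘ e := by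
    funext j i
    rfl
  have h3 : LinearIndependent ℝ (M.submatrix id fun j => a (e j)).col := by
    rw [h2]
    exact hli.comp _ e.injective
  have h4 := Matrix.linearIndependent_cols_iff_isUnit.1 h3
  exact ((Matrix.isUnit_iff_isUnit_det _).1 h4).ne_zero

/-- Cramer's rule for circuits. -/
theorem circ_minor {B : Matrix (Fin m) (Fin n) ℝ} {C : Fin m → ℝ} (hC : Circ B C) {i j : Fin m}
    (hij : i ≠ j) (hi : C i ≠ 0) (hj : C j ≠ 0) :
    ∃ (f f' : Fin B.rank → Fin m) (h : Fin B.rank → Fin n), (B.submatrix f h).det ≠ 0 ∧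
      (B.submatrix f' h).det = -(C i / C j) * (B.submatrix f h).det := by
  classical
  set T : Set (Fin m) := {c | C c ≠ 0 ∧ c ≠ j} with hT
  have hCB : ∀ col, ∑ c, C c * B c col = 0 := fun col => congrFun hC.2.1 col
  have hTli : LinearIndepOn ℝ B.row T := by
    rw [LinearIndepOn, Fintype.linearIndependent_iff]
    intro g hg
    set D : Fin m → ℝ := fun c => if hc : c ∈ T then g ⟨c, hc⟩ else 0 with hD
    have hD0 : B.vecMul D = 0 := by
      funext col
      show ∑ c, D c * B c col = 0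
      have h1 := congrFun hg col
      rw [Finset.sum_apply] at h1
      have h2 : ∑ x : T, (g x • B.row x) col = ∑ c, D c * B c col := by
        refine Fintype.sum_of_injective (fun x : T => (x : Fin m)) Subtype.val_injective _ _ ?_ ?_
        · intro c hc
          have hc' : c ∉ T := fun h => hc ⟨⟨c, h⟩, rfl⟩
          simp only [hD]
          rw [dif_neg hc', zero_mul]
        · intro x
          simp only [hD]
          rw [dif_pos x.2]
          rfl
      rw [← h2]
      exact h1
    obtain ⟨l, hl⟩ := hC.2.2 D hD0 (by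
      intro c hc
      simp only [hD]
      rw [dif_neg]
      rintro ⟨h1, -⟩
      exact h1 hc)
    have hl0 : l = 0 := by
      have h1 : D j = l * C j := congrFun hl j
      have h2 : D j = 0 := by
        simp only [hD]
        rw [dif_neg]
        rintro ⟨-, h⟩
        exact h rfl
      rw [h2] at h1
      rcases mul_eq_zero.1 h1.symm with h3 | h3
      · exact h3
      · exact absurd h3 hj
    intro x
    have h1 : D x = l * C x := congrFun hl x
    rw [hl0, zero_mul] at h1
    simp only [hD] at h1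
    rw [dif_pos x.2] at h1
    exact h1
  obtain ⟨b, -, hTb, hspan, hli⟩ := exists_linearIndepOn_extension hTli (Set.subset_univ T)
  have hcard : Fintype.card b = B.rank := by
    rw [B.rank_eq_finrank_span_row]
    have h1 : Submodule.span ℝ (Set.range B.row) = Submodule.span ℝ (Set.range fun x : b => B.row x) := by
      apply le_antisymm
      · rw [Submodule.span_le]
        rintro _ ⟨c, rfl⟩
        have h2 := hspan ⟨c, Set.mem_univ c, rfl⟩
        have h3 : (Set.range fun x : b => B.row x) = B.row '' b := by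
          ext v
          simp
        rw [h3]
        exact h2
      · apply Submodule.span_mono
        rintro _ ⟨c, rfl⟩
        exact ⟨c, rfl⟩
    rw [h1]
    exact (finrank_span_eq_card hli).symm
  obtain ⟨e⟩ : Nonempty (Fin B.rank ≃ b) := by
    rw [← Fintype.card_eq, Fintype.card_fin, hcard]
  set f : Fin B.rank → Fin m := fun k => (e k : Fin m) with hf
  have hfinj : Function.Injective f := fun a b hab => e.injective (Subtype.ext hab)
  obtain ⟨h, hdet⟩ := exists_cols (B.submatrix f id) (by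
    have h1 : (B.submatrix f id).row = (fun x : b => B.row x) ∘ e := by
      funext k c
      rfl
    rw [h1]
    exact hli.comp _ e.injective)
  have hsub : (B.submatrix f id).submatrix id h = B.submatrix f h := rfl
  rw [hsub] at hdet
  have hib : i ∈ b := hTb ⟨hi, hij⟩
  obtain ⟨k0, hk0⟩ : ∃ k0, f k0 = i := ⟨e.symm ⟨i, hib⟩, by simp [hf]⟩
  refine ⟨f, Function.update f k0 j, h, hdet, ?_⟩
  set c' : Fin m → ℝ := fun x => if x = j then 0 else -(C x / C j) with hc'
  have hrow : ∀ col, B j col = ∑ k, c' (f k) * B (f k) col := by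
    intro col
    have h1 : ∑ k, c' (f k) * B (f k) col = ∑ x, c' x * B x col := by
      refine Fintype.sum_of_injective f hfinj _ _ ?_ (fun _ => rfl)
      intro x hx
      have hxb : x ∉ b := fun hxb => hx ⟨e.symm ⟨x, hxb⟩, by simp [hf]⟩
      have hxT : x ∉ T := fun h => hxb (hTb h)
      have hc0 : c' x = 0 := by
        simp only [hc']
        split_ifs with hxj
        · rfl
        · have : C x = 0 := by
            by_contra hne
            exact hxT ⟨hne, hxj⟩
          rw [this, zero_div, neg_zero]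
      rw [hc0, zero_mul]
    rw [h1]
    have h2 := hCB col
    rw [← Finset.add_sum_erase _ _ (Finset.mem_univ j)] at h2
    rw [← Finset.add_sum_erase _ _ (Finset.mem_univ j)]
    have h3 : c' j = 0 := by simp [hc']
    rw [h3, zero_mul, zero_add]
    have h4 : ∑ x ∈ Finset.univ.erase j, c' x * B x col
        = -(∑ x ∈ Finset.univ.erase j, C x * B x col) / C j := by
      rw [neg_div, Finset.sum_div, ← Finset.sum_neg_distrib]
      refine Finset.sum_congr rfl fun x hx => ?_
      have hxj := Finset.ne_of_mem_erase hx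
      simp only [hc']
      rw [if_neg hxj]
      ring
    rw [h4]
    field_simp
    linarith
  have hmat : B.submatrix (Function.update f k0 j) h
      = (B.submatrix f h).updateRow k0 (∑ k, (fun k => c' (f k)) k • (B.submatrix f h) k) := by
    ext a d
    by_cases hak : a = k0
    · subst hak
      rw [Matrix.updateRow_self, Matrix.submatrix_apply, Function.update_self, hrow (h d),
        Finset.sum_apply]
      rfl
    · rw [Matrix.updateRow_ne hak, Matrix.submatrix_apply, Function.update_of_ne hak]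
      rfl
  rw [hmat, Matrix.det_updateRow_sum]
  have : c' (f k0) = -(C i / C j) := by
    rw [hk0]
    simp only [hc']
    rw [if_neg hij]
  show c' (f k0) • _ = _
  rw [this, smul_eq_mul]

end

/-! ### The gaps -/

section

attribute [local instance] Matrix.seminormedAddCommGroup

theorem siegel {N s : ℕ} {β : Type} [Fintype β] (hβ : Fintype.card β = N + 1) (hN : 0 < N)
    (A : Matrix (Fin N) β ℤ) (hA : ∀ i j, |A i j| ≤ 2 ^ s) :
    ∃ v : β → ℤ, v ≠ 0 ∧ A.mulVec v = 0 ∧ ∀ j, |v j| ≤ 2 ^ ((N + s) * N) := by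
  classical
  obtain ⟨v, hv0, hv1, hv2⟩ := Int.Matrix.exists_ne_zero_int_vec_norm_le A
    (by rw [Fintype.card_fin, hβ]; omega) (by rw [Fintype.card_fin]; exact hN)
  refine ⟨v, hv0, hv1, fun j => ?_⟩
  rw [Fintype.card_fin, hβ] at hv2
  have hAn : ‖A‖ ≤ 2 ^ s := by
    rw [Matrix.norm_le_iff (by positivity)]
    intro i j
    rw [Int.norm_eq_abs]
    have h := hA i j
    exact_mod_cast h
  have h1 : ‖v j‖ ≤ ‖v‖ := norm_le_pi_norm v j
  have h3 : max 1 ‖A‖ ≤ (2 : ℝ) ^ s := max_le (one_le_pow₀ (by norm_num)) hAn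
  have h5 : ((N : ℝ) / (((N + 1 : ℕ) : ℝ) - N)) = (N : ℕ) := by
    push_cast
    rw [add_sub_cancel_left, div_one]
  rw [h5, Real.rpow_natCast] at hv2
  have h6 : ‖v j‖ ≤ ((2 ^ ((N + s) * N) : ℤ) : ℝ) := by
    calc ‖v j‖ ≤ ‖v‖ := h1
      _ ≤ (((N + 1 : ℕ) : ℝ) * max 1 ‖A‖) ^ N := hv2
      _ ≤ ((2 : ℝ) ^ N * 2 ^ s) ^ N := by
          have h7 : ((N + 1 : ℕ) : ℝ) ≤ 2 ^ N := by
            exact_mod_cast Nat.lt_two_pow_self
          have h8 : (0 : ℝ) ≤ max 1 ‖A‖ := le_trans zero_le_one (le_max_left _ _)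
          gcongr
      _ = _ := by
          push_cast
          rw [← pow_add, ← pow_mul]
  rw [Int.norm_eq_abs] at h6
  exact_mod_cast h6

end

/-- The values. -/
def Vals (N s : ℕ) (w : Fin N → ℝ) : Set ℝ :=
  {v | 0 < v ∧ ∃ y : Fin N → ℤ, (∀ l, |y l| ≤ 2 ^ s) ∧ |∑ l, (y l : ℝ) * w l| = v}

/-- The width of the windows. -/
def wd (N s : ℕ) : ℕ := N + (N + s) * N

theorem spread_card {N s : ℕ} {w : Fin N → ℝ} {T : Finset ℝ} (hT : ∀ t ∈ T, t ∈ Vals N s w)
    (hsp : ∀ a ∈ T, ∀ b ∈ T, a < b → 2 ^ wd N s * a < b) : T.card ≤ N := by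
  classical
  by_contra hcon
  push Not at hcon
  obtain ⟨T', hT', hcard⟩ := Finset.exists_subset_card_eq (show N + 1 ≤ T.card by omega)
  have hpos : ∀ t ∈ T', 0 < t := fun t ht => (hT t (hT' ht)).1
  have hex : ∀ t : T', ∃ y : Fin N → ℤ, (∀ l, |y l| ≤ 2 ^ s) ∧ ∑ l, (y l : ℝ) * w l = t := by
    intro t
    obtain ⟨-, y, hy, hv⟩ := hT t (hT' t.2)
    rcases abs_choice (∑ l, (y l : ℝ) * w l) with h | h
    · exact ⟨y, hy, by rw [← hv, h]⟩
    · refine ⟨fun l => - y l, fun l => by rw [abs_neg]; exact hy l, ?_⟩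
      rw [← hv, h, ← Finset.sum_neg_distrib]
      refine Finset.sum_congr rfl fun l _ => ?_
      push_cast
      ring
  choose y hy hyv using hex
  have hN : 0 < N := by
    rcases Nat.eq_zero_or_pos N with h | h
    · subst h
      obtain ⟨t, ht⟩ : T'.Nonempty := by
        rw [← Finset.card_pos]
        omega
      have h1 := hyv ⟨t, ht⟩
      have h2 := hpos t ht
      simp only [Finset.univ_eq_empty, Finset.sum_empty] at h1
      have h3 : (0 : ℝ) = t := h1
      linarith
    · exact h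
  obtain ⟨a, ha0, ha1, ha2⟩ := siegel (N := N) (s := s) (β := T')
    (by rw [Fintype.card_coe, hcard]) hN (fun l t => y t l) (fun l t => hy t l)
  -- the relation
  have hrel : ∑ t : T', (a t : ℝ) * (t : ℝ) = 0 := by
    have h1 : ∀ t : T', (a t : ℝ) * (t : ℝ) = ∑ l, (a t : ℝ) * ((y t l : ℝ) * w l) := by
      intro t
      rw [← Finset.mul_sum, hyv]
    simp only [h1]
    rw [Finset.sum_comm]
    refine Finset.sum_eq_zero fun l _ => ?_
    have h2 : ∑ t : T', y t l * a t = 0 := congrFun ha1 l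
    have h3 : ∑ t : T', ((y t l : ℝ) * (a t : ℝ)) = 0 := by
      have h4 : ((∑ t : T', y t l * a t : ℤ) : ℝ) = 0 := by rw [h2]; simp
      push_cast at h4
      exact h4
    calc ∑ t : T', (a t : ℝ) * ((y t l : ℝ) * w l)
        = (∑ t : T', ((y t l : ℝ) * (a t : ℝ))) * w l := by
          rw [Finset.sum_mul]
          exact Finset.sum_congr rfl fun t _ => by ring
      _ = 0 := by rw [h3, zero_mul]
  -- the largest element with a nonzero coefficient
  set U : Finset T' := Finset.univ.filter fun t => a t ≠ 0 with hU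
  have hUne : U.Nonempty := by
    by_contra hne
    rw [Finset.not_nonempty_iff_eq_empty] at hne
    apply ha0
    funext t
    by_contra ht
    have : t ∈ U := by rw [hU, Finset.mem_filter]; exact ⟨Finset.mem_univ _, ht⟩
    rw [hne] at this
    exact absurd this (Finset.notMem_empty _)
  obtain ⟨t0, ht0, hmax⟩ := Finset.exists_max_image U (fun t => (t : ℝ)) hUne
  have hat0 : a t0 ≠ 0 := (Finset.mem_filter.1 ht0).2
  have ht0p : (0 : ℝ) < t0 := hpos t0 t0.2
  rw [← Finset.add_sum_erase _ _ (Finset.mem_univ t0)] at hrel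
  have hbig : (t0 : ℝ) ≤ |(a t0 : ℝ) * (t0 : ℝ)| := by
    rw [abs_mul, abs_of_pos ht0p]
    have h1 : (1 : ℝ) ≤ |(a t0 : ℝ)| := by
      have h2 := Int.one_le_abs hat0
      exact_mod_cast h2
    exact le_mul_of_one_le_left ht0p.le h1
  have hterm : ∀ t ∈ Finset.univ.erase t0, |(a t : ℝ) * (t : ℝ)| * 2 ^ N < t0 ∨
      |(a t : ℝ) * (t : ℝ)| = 0 := by
    intro t ht
    by_cases hat : a t = 0
    · right
      rw [hat]
      simp
    left
    have htU : t ∈ U := by rw [hU, Finset.mem_filter]; exact ⟨Finset.mem_univ _, hat⟩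
    have htne := Finset.ne_of_mem_erase ht
    have hlt : (t : ℝ) < t0 := lt_of_le_of_ne (hmax t htU) fun h => htne (Subtype.ext h)
    have htp : (0 : ℝ) < t := hpos t t.2
    have h1 := hsp t (hT' t.2) t0 (hT' t0.2) hlt
    have h2 : |(a t : ℝ)| ≤ 2 ^ ((N + s) * N) := by
      have := ha2 t
      exact_mod_cast this
    refine lt_of_le_of_lt ?_ h1
    rw [abs_mul, abs_of_pos htp]
    calc |(a t : ℝ)| * (t : ℝ) * 2 ^ N ≤ 2 ^ ((N + s) * N) * (t : ℝ) * 2 ^ N := by
          gcongr
      _ = 2 ^ wd N s * (t : ℝ) := by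
          unfold wd
          rw [pow_add]
          ring
  have hsum : |∑ t ∈ Finset.univ.erase t0, (a t : ℝ) * (t : ℝ)| < t0 := by
    have h1 : |∑ t ∈ Finset.univ.erase t0, (a t : ℝ) * (t : ℝ)|
        ≤ ∑ t ∈ Finset.univ.erase t0, |(a t : ℝ) * (t : ℝ)| := Finset.abs_sum_le_sum_abs _ _
    have h2 : ∑ t ∈ Finset.univ.erase t0, |(a t : ℝ) * (t : ℝ)|
        ≤ ∑ t ∈ (Finset.univ.erase t0 : Finset T'), (t0 : ℝ) / 2 ^ N := by
      refine Finset.sum_le_sum fun t ht => ?_
      rcases hterm t ht with h3 | h3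
      · rw [le_div_iff₀ (by positivity)]
        exact h3.le
      · rw [h3]
        positivity
    rw [Finset.sum_const, nsmul_eq_mul, Finset.card_erase_of_mem (Finset.mem_univ _),
      Finset.card_univ, Fintype.card_coe, hcard, Nat.add_sub_cancel] at h2
    have h3 : (N : ℝ) * ((t0 : ℝ) / 2 ^ N) < t0 := by
      rw [mul_div_assoc', div_lt_iff₀ (by positivity), mul_comm]
      have h4 : (N : ℝ) < 2 ^ N := by exact_mod_cast Nat.lt_two_pow_self
      exact mul_lt_mul_of_pos_left h4 ht0p
    linarith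
  have h5 : |(a t0 : ℝ) * (t0 : ℝ)| = |∑ t ∈ Finset.univ.erase t0, (a t : ℝ) * (t : ℝ)| := by
    have h6 : (a t0 : ℝ) * (t0 : ℝ) = -∑ t ∈ Finset.univ.erase t0, (a t : ℝ) * (t : ℝ) := by
      linarith
    rw [h6, abs_neg]
  linarith

/-- The windows of the values. -/
theorem windows (N s : ℕ) (w : Fin N → ℝ) : ∃ S : Finset ℝ, S.card ≤ N ∧ (∀ σ ∈ S, 0 < σ) ∧
    ∀ v ∈ Vals N s w, ∃ σ ∈ S, σ ≤ v * 2 ^ wd N s ∧ v ≤ 2 ^ wd N s * σ := by
  classical
  set P : ℕ → Prop := fun k => ∃ T : Finset ℝ, T.card = k ∧ (∀ t ∈ T, t ∈ Vals N s w) ∧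
    ∀ a ∈ T, ∀ b ∈ T, a < b → 2 ^ wd N s * a < b with hP
  have hP0 : P 0 := ⟨∅, rfl, by simp, by simp⟩
  have hPN : ∀ k, P k → k ≤ N := by
    rintro k ⟨T, hk, h1, h2⟩
    rw [← hk]
    exact spread_card h1 h2
  have hspec : P (Nat.findGreatest P N) := Nat.findGreatest_spec (Nat.zero_le N) hP0
  obtain ⟨T, hk, h1, h2⟩ := hspec
  refine ⟨T, spread_card h1 h2, fun σ hσ => (h1 σ hσ).1, ?_⟩
  intro v hv
  by_contra hcon
  push Not at hcon
  have hvT : v ∉ T := by
    intro hvT
    have hv0 : 0 < v := hv.1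
    have h3 : (1 : ℝ) ≤ 2 ^ wd N s := one_le_pow₀ (by norm_num)
    have h4 := hcon v hvT (le_mul_of_one_le_right hv0.le h3)
    have h5 : v ≤ 2 ^ wd N s * v := le_mul_of_one_le_left hv0.le h3
    linarith
  have hP1 : P (T.card + 1) := by
    refine ⟨insert v T, Finset.card_insert_of_notMem hvT, ?_, ?_⟩
    · intro t ht
      rcases Finset.mem_insert.1 ht with rfl | ht
      · exact hv
      · exact h1 t ht
    · intro a ha b hb hab
      rcases Finset.mem_insert.1 ha with rfl | ha'
      · rcases Finset.mem_insert.1 hb with rfl | hb'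
        · exact absurd hab (lt_irrefl _)
        · by_contra hn
          push Not at hn
          have h6 := hcon b hb' (by rw [mul_comm]; exact hn)
          have hb0 : 0 < b := (h1 b hb').1
          have h3 : (1 : ℝ) ≤ 2 ^ wd N s := one_le_pow₀ (by norm_num)
          have h5 : b ≤ 2 ^ wd N s * b := le_mul_of_one_le_left hb0.le h3
          linarith
      · rcases Finset.mem_insert.1 hb with rfl | hb'
        · by_contra hn
          push Not at hn
          have h6 := hcon a ha' (by
            have hb0 : 0 < b := hv.1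
            have h3 : (1 : ℝ) ≤ 2 ^ wd N s := one_le_pow₀ (by norm_num)
            exact hab.le.trans (le_mul_of_one_le_right hb0.le h3))
          linarith
        · exact h2 a ha' b hb' hab
  have h7 := hPN _ hP1
  have h8 := Nat.le_findGreatest h7 hP1
  omega

end TSPAN

open TSPAN in
theorem t_SPAN : S_SPAN := by
  classical
  refine ⟨4 * Polynomial.X * (Polynomial.X + 1) + 1, ?_⟩
  intro m n N s A hA
  obtain ⟨ρ, B, G, w, hρ, hG, hAB, hmin⟩ := hA
  set r : ℕ := (4 * Polynomial.X * (Polynomial.X + 1) + 1 : Polynomial ℕ).eval (m + n + N + s)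
    with hr
  have hr' : r = 4 * (m + n + N + s) * (m + n + N + s + 1) + 1 := by
    rw [hr]
    simp
  have hrN : N * N ≤ r := by
    rw [hr']
    have h1 : N ≤ m + n + N + s := by omega
    have h2 : N * N ≤ (m + n + N + s) * (m + n + N + s + 1) := Nat.mul_le_mul h1 (by omega)
    nlinarith
  have hrL : 4 * wd N s ≤ r := by
    rw [hr']
    unfold wd
    have h1 : N ≤ m + n + N + s := by omega
    have h2 : (N + s + 1) * N ≤ (m + n + N + s + 1) * (m + n + N + s) :=
      Nat.mul_le_mul (by omega) h1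
    nlinarith
  clear_value r
  obtain ⟨S, hS1, hS2, hS3⟩ := windows N s w
  set L := wd N s with hL
  intro i j
  by_cases hij : i = j
  · subst hij
    refine ⟨{1}, by rw [Finset.card_singleton, hr']; omega, by simp, ?_⟩
    intro C hC hi _
    refine ⟨1, Finset.mem_singleton_self _, ?_, ?_⟩
    · rw [div_self hi, abs_one]
    · rw [div_self hi, abs_one, mul_one]
      exact one_le_pow₀ (by norm_num)
  set κ : ℝ := |ρ i / ρ j| with hκ
  have hκ0 : 0 < κ := abs_pos.2 (div_ne_zero (hρ i) (hρ j))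
  refine ⟨(S ×ˢ S).image fun p => κ * (p.1 / p.2 / 2 ^ (2 * L)), ?_, ?_, ?_⟩
  · refine Finset.card_image_le.trans ?_
    rw [Finset.card_product]
    exact (Nat.mul_le_mul hS1 hS1).trans hrN
  · intro x hx
    obtain ⟨p, hp, rfl⟩ := Finset.mem_image.1 hx
    rw [Finset.mem_product] at hp
    have h1 := hS2 _ hp.1
    have h2 := hS2 _ hp.2
    positivity
  · intro C hC hi hj
    have hC' := circ_scale hρ hG hAB hC
    obtain ⟨f, f', h, hd1, hd2⟩ := circ_minor hC' hij (div_ne_zero hi (hρ i))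
      (div_ne_zero hj (hρ j))
    set d := (B.submatrix f h).det with hd
    set d' := (B.submatrix f' h).det with hd'
    have hratio0 : C i / ρ i / (C j / ρ j) ≠ 0 :=
      div_ne_zero (div_ne_zero hi (hρ i)) (div_ne_zero hj (hρ j))
    have hd0 : d' ≠ 0 := by
      rw [hd2]
      exact mul_ne_zero (neg_ne_zero.2 hratio0) hd1
    have hab : |d'| = |C i / ρ i / (C j / ρ j)| * |d| := by
      rw [hd2, abs_mul, abs_neg]
    have hratio : |C i / C j| = κ * (|d'| / |d|) := by
      rw [hab, mul_div_assoc, div_self (abs_ne_zero.2 hd1), mul_one, hκ, ← abs_mul]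
      congr 1
      have := hρ i
      have := hρ j
      field_simp
    obtain ⟨y, hy, hyd⟩ := hmin f h
    obtain ⟨y', hy', hyd'⟩ := hmin f' h
    obtain ⟨σ, hσ, hσ1, hσ2⟩ := hS3 |d| ⟨abs_pos.2 hd1, y, hy, by rw [← hyd]⟩
    obtain ⟨σ', hσ', hσ1', hσ2'⟩ := hS3 |d'| ⟨abs_pos.2 hd0, y', hy', by rw [← hyd']⟩
    have hσp := hS2 σ hσ
    have hσp' := hS2 σ' hσ'
    have hdp : 0 < |d| := abs_pos.2 hd1
    have hdp' : 0 < |d'| := abs_pos.2 hd0
    have h2L : (2 : ℝ) ^ (2 * L) = 2 ^ L * 2 ^ L := by rw [two_mul, pow_add]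
    have hLp : (0 : ℝ) < 2 ^ L := by positivity
    refine ⟨κ * (σ' / σ / 2 ^ (2 * L)), ?_, ?_, ?_⟩
    · exact Finset.mem_image.2 ⟨(σ', σ), Finset.mem_product.2 ⟨hσ', hσ⟩, rfl⟩
    · rw [hratio]
      refine mul_le_mul_of_nonneg_left ?_ hκ0.le
      rw [div_div, div_le_div_iff₀ (by positivity) hdp, h2L]
      calc σ' * |d| ≤ (|d'| * 2 ^ L) * (2 ^ L * σ) :=
            mul_le_mul hσ1' hσ2 hdp.le (by positivity)
        _ = |d'| * (σ * (2 ^ L * 2 ^ L)) := by ring
    · rw [hratio]
      have h4 : (2 : ℝ) ^ (4 * L) ≤ 2 ^ r := pow_le_pow_right₀ (by norm_num) hrL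
      have h5 : 2 ^ (4 * L) * (κ * (σ' / σ / 2 ^ (2 * L))) = κ * (2 ^ (2 * L) * (σ' / σ)) := by
        have h6 : (2 : ℝ) ^ (4 * L) = 2 ^ (2 * L) * 2 ^ (2 * L) := by
          rw [← pow_add]
          congr 1
          ring
        rw [h6]
        field_simp
      have h7 : |d'| / |d| ≤ 2 ^ (2 * L) * (σ' / σ) := by
        rw [mul_div_assoc', div_le_div_iff₀ hdp hσp, h2L]
        calc |d'| * σ ≤ (2 ^ L * σ') * (|d| * 2 ^ L) :=
              mul_le_mul hσ2' hσ1 hσp.le (by positivity)
          _ = 2 ^ L * 2 ^ L * σ' * |d| := by ring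
      calc κ * (|d'| / |d|) ≤ κ * (2 ^ (2 * L) * (σ' / σ)) := mul_le_mul_of_nonneg_left h7 hκ0.le
        _ = 2 ^ (4 * L) * (κ * (σ' / σ / 2 ^ (2 * L))) := h5.symm
        _ ≤ 2 ^ r * (κ * (σ' / σ / 2 ^ (2 * L))) :=
            mul_le_mul_of_nonneg_right h4 (by positivity)

end Pool.Agent.Y648.CS.W
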